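import Mathlib

set_option autoImplicit false

namespace Pool.Agent.Lib.MP_509488_nt

open Finset

/-- The quotient `(u^p - v^p)/(u - v)`. -/
def F (p : ℕ) (u v : ℤ) : ℤ := ∑ i ∈ range p, u ^ i * v ^ (p - 1 - i)

theorem F_mul (p : ℕ) (u v : ℤ) : (u - v) * F p u v = u ^ p - v ^ p := by
  have := Commute.mul_geom_sum₂ (Commute.all u v) p
  simpa [F] using this

theorem F_comm (p : ℕ) (u v : ℤ) : F p u v = F p v u := by
  unfold F
  rw [← Finset.sum_range_reflect]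
  apply Finset.sum_congr rfl
  intro i hi
  rw [Finset.mem_range] at hi
  rw [mul_comm]
  congr 2
  omega

theorem isCoprime_of_nat_prime {a b : ℤ} (hb : b ≠ 0)
    (H : ∀ l : ℕ, l.Prime → (l : ℤ) ∣ a → ¬ (l : ℤ) ∣ b) : IsCoprime a b := by
  apply isCoprime_of_prime_dvd (fun h => hb h.2)
  intro z hz ha hb'
  exact H z.natAbs (Int.prime_iff_natAbs_prime.1 hz) (Int.natAbs_dvd.2 ha) (Int.natAbs_dvd.2 hb')

/-- If `l` is a prime with `l ∣ x^r - y^r`, `l` prime to `y` and `r` prime to `l - 1`, then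
`l ∣ x - y`. -/
theorem dvd_sub_of_pow {r l : ℕ} (hr : 0 < r) (hl : l.Prime) (hrl : Nat.Coprime r (l - 1))
    {x y : ℤ} (hy : ¬ (l : ℤ) ∣ y) (h : (l : ℤ) ∣ x ^ r - y ^ r) : (l : ℤ) ∣ x - y := by
  have : Fact l.Prime := ⟨hl⟩
  have hy' : (y : ZMod l) ≠ 0 := by
    rwa [Ne, ZMod.intCast_zmod_eq_zero_iff_dvd]
  have h1 : ((x : ZMod l)) ^ r = (y : ZMod l) ^ r := by
    have := (ZMod.intCast_zmod_eq_zero_iff_dvd _ l).2 h
    push_cast at this
    exact sub_eq_zero.1 this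
  by_cases hx' : (x : ZMod l) = 0
  · rw [hx', zero_pow hr.ne'] at h1
    exact absurd ((pow_eq_zero_iff hr.ne').1 h1.symm) hy'
  · have h2 : ((x : ZMod l) / y) ^ r = 1 := by
      rw [div_pow, h1, div_self (pow_ne_zero _ hy')]
    have h3 : ((x : ZMod l) / y) ^ (l - 1) = 1 :=
      ZMod.pow_card_sub_one_eq_one (div_ne_zero hx' hy')
    have h4 : ((x : ZMod l) / y) = 1 := by
      have := (pow_gcd_eq_one (a := ((x : ZMod l) / y)) (m := r) (n := l - 1)).2 ⟨h2, h3⟩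
      rwa [hrl, pow_one] at this
    rw [← ZMod.intCast_zmod_eq_zero_iff_dvd]
    push_cast
    rw [div_eq_one_iff_eq hy'] at h4
    exact sub_eq_zero.2 h4

theorem coprime_of_not_modEq {r l : ℕ} (hr : r.Prime) (hl : l.Prime) (h : ¬ l ≡ 1 [MOD r]) :
    Nat.Coprime r (l - 1) := by
  rw [Nat.Prime.coprime_iff_not_dvd hr]
  intro hd
  exact h ((Nat.modEq_iff_dvd' hl.one_le).2 hd).symm

/-- A prime `l ≠ r`, `l ≢ 1 mod r` dividing `x^r - y^r` and prime to `y` does not divide the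
cofactor `F r x y`. -/
theorem not_dvd_F {r l : ℕ} (hr : r.Prime) (hl : l.Prime) (hlr : l ≠ r) (h1 : ¬ l ≡ 1 [MOD r])
    {x y : ℤ} (hy : ¬ (l : ℤ) ∣ y) (h : (l : ℤ) ∣ x ^ r - y ^ r) : ¬ (l : ℤ) ∣ F r x y := by
  have hxy := dvd_sub_of_pow hr.pos hl (coprime_of_not_modEq hr hl h1) hy h
  have hx : ¬ (l : ℤ) ∣ x := fun hx => hy (by simpa using dvd_sub hx hxy)
  apply not_dvd_geom_sum₂ (Nat.prime_iff_prime_int.1 hl) hxy hx
  intro hd
  exact hlr ((Nat.prime_dvd_prime_iff_eq hl hr).1 (Int.natCast_dvd_natCast.1 hd))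

theorem dvd_sub_of_pow' {r : ℕ} (hr : r.Prime) {m x y : ℤ} (hm : m ≠ 0)
    (hcop : IsCoprime y m) (hrm : ¬ (r : ℤ) ∣ m)
    (hgood : ∀ l : ℕ, l.Prime → (l : ℤ) ∣ m → ¬ l ≡ 1 [MOD r])
    (h : m ∣ x ^ r - y ^ r) : m ∣ x - y := by
  have h1 : IsCoprime (F r x y) m := by
    apply isCoprime_of_nat_prime hm
    intro l hl hlF hlm
    have hlr : l ≠ r := by rintro rfl; exact hrm hlm
    have hly : ¬ (l : ℤ) ∣ y := fun hy =>
      (Nat.prime_iff_prime_int.1 hl).not_isUnit (hcop.isUnit_of_dvd' hy hlm)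
    exact not_dvd_F hr hl hlr (hgood l hl hlm) hly (hlm.trans h) hlF
  rw [← F_mul] at h
  exact h1.symm.dvd_of_dvd_mul_right h

theorem dvd_mul_sub_of_pow {r : ℕ} (hr : r.Prime) (hr2 : r ≠ 2) {m x y : ℤ} (hm : m ≠ 0)
    (hcop : IsCoprime y m)
    (hgood : ∀ l : ℕ, l.Prime → (l : ℤ) ∣ m → ¬ l ≡ 1 [MOD r])
    (h : m ∣ x ^ r - y ^ r) : m ∣ r * (x - y) := by
  by_cases hrm : (r : ℤ) ∣ m
  swap
  · exact (dvd_sub_of_pow' hr hm hcop hrm hgood h).mul_left _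
  have : Fact r.Prime := ⟨hr⟩
  have hprime := Nat.prime_iff_prime_int.1 hr
  have hry : ¬ (r : ℤ) ∣ y := fun hy => hprime.not_isUnit (hcop.isUnit_of_dvd' hy hrm)
  -- `r ∣ x - y`
  have h1 : (r : ℤ) ∣ x - y := by
    have h2 := hrm.trans h
    rw [← ZMod.intCast_zmod_eq_zero_iff_dvd] at h2 ⊢
    push_cast at h2 ⊢
    simpa [ZMod.pow_card] using h2
  obtain ⟨b, hb⟩ := h1
  have hx : x = y + r * b := by linear_combination hb
  obtain ⟨s, hs⟩ := odd_sq_dvd_geom_sum₂_sub (a := y) (b := b) (p := r) (hr.odd_of_ne_two hr2)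
  have hF : F r x y = r * (y ^ (r - 1) + r * s) := by
    have : F r x y = ∑ i ∈ range r, (y + r * b) ^ i * y ^ (r - 1 - i) := by
      rw [hx]; rfl
    rw [this]
    linear_combination hs
  have h3 : IsCoprime (y ^ (r - 1) + r * s) m := by
    apply isCoprime_of_nat_prime hm
    intro l hl hlF hlm
    have hly : ¬ (l : ℤ) ∣ y := fun hy =>
      (Nat.prime_iff_prime_int.1 hl).not_isUnit (hcop.isUnit_of_dvd' hy hlm)
    by_cases hlr : l = r
    · subst hlr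
      have : (l : ℤ) ∣ y ^ (l - 1) := by
        have := dvd_sub hlF (Dvd.intro s rfl : (l : ℤ) ∣ l * s)
        simpa using this
      exact hly ((Nat.prime_iff_prime_int.1 hl).dvd_of_dvd_pow this)
    · exact not_dvd_F hr hl hlr (hgood l hl hlm) hly (hlm.trans h)
        (by rw [hF]; exact hlF.mul_left _)
  rw [← F_mul, hF] at h
  refine h3.symm.dvd_of_dvd_mul_right ?_
  have h4 : (r : ℤ) * (x - y) * (y ^ (r - 1) + r * s) = (x - y) * (r * (y ^ (r - 1) + r * s)) := by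
    ring
  rw [h4]; exact h

theorem isCoprime_sub {u v : ℤ} (h : IsCoprime u v) : IsCoprime (u - v) v := by
  obtain ⟨a, b, h⟩ := h
  exact ⟨a, a + b, by linear_combination h⟩

theorem isCoprime_sub' {u v : ℤ} (h : IsCoprime u v) : IsCoprime (u - v) u := by
  obtain ⟨a, b, h⟩ := h
  exact ⟨-b, a + b, by linear_combination h⟩

/-- `p u v` divides `(u^p - v^p)/(u - v) - (u - v)^(p-1)` when `p ∤ u - v`. -/
theorem N_dvd {p : ℕ} (hp : p.Prime) (hp2 : p ≠ 2) {u v : ℤ} (huv : IsCoprime u v)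
    (hpd : ¬ (p : ℤ) ∣ u - v) : (p : ℤ) * u * v ∣ F p u v - (u - v) ^ (p - 1) := by
  obtain ⟨s, hs⟩ := exists_add_pow_prime_eq hp u (-v)
  have hodd := hp.odd_of_ne_two hp2
  rw [hodd.neg_pow] at hs
  have h1 : (u - v) * (F p u v - (u - v) ^ (p - 1)) = p * u * v * s := by
    rw [mul_sub, F_mul, ← pow_succ', Nat.sub_add_cancel hp.one_le]
    have : (u - v) ^ p = (u + -v) ^ p := by ring
    rw [this, hs]; ring
  have hc1 : IsCoprime (u - v) ((p : ℤ) * u * v) := by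
    apply IsCoprime.mul_right
    · apply IsCoprime.mul_right
      · exact (((Nat.prime_iff_prime_int.1 hp).coprime_iff_not_dvd).2 hpd).symm
      · exact isCoprime_sub' huv
    · exact isCoprime_sub huv
  exact hc1.symm.dvd_of_dvd_mul_left ⟨s, h1⟩

theorem F_pos {p : ℕ} (hp : Odd p) {u v : ℤ} (h : u ≠ v) : 0 < F p u v := by
  have h1 := F_mul p u v
  rcases lt_or_gt_of_ne h with h | h
  · have h2 : u ^ p < v ^ p := hp.strictMono_pow h
    by_contra hF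
    push Not at hF
    nlinarith
  · have h2 : v ^ p < u ^ p := hp.strictMono_pow h
    by_contra hF
    push Not at hF
    nlinarith

theorem isCoprime_F {p : ℕ} (hp : p.Prime) {u v : ℤ} (huv : IsCoprime u v)
    (hpd : ¬ (p : ℤ) ∣ u - v) (hF : F p u v ≠ 0) : IsCoprime (u - v) (F p u v) := by
  apply isCoprime_of_nat_prime hF
  intro l hl h1 h2
  have hlu : ¬ (l : ℤ) ∣ u := fun hu =>
    (Nat.prime_iff_prime_int.1 hl).not_isUnit ((isCoprime_sub' huv).isUnit_of_dvd' h1 hu)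
  refine not_dvd_geom_sum₂ (Nat.prime_iff_prime_int.1 hl) h1 hlu ?_ h2
  intro hd
  have := (Nat.prime_dvd_prime_iff_eq hl hp).1 (Int.natCast_dvd_natCast.1 hd)
  subst this
  exact hpd h1

theorem exists_cd {p r : ℕ} (hp : p.Prime) (hr : r.Prime) (hp2 : p ≠ 2) (hr2 : r ≠ 2) {u v w : ℤ}
    (huv : IsCoprime u v) (h : u ^ p - v ^ p = w ^ r) (hpw : ¬ (p : ℤ) ∣ w) :
    ∃ c d : ℤ, u - v = c ^ r ∧ F p u v = d ^ r ∧ 0 < d := by
  have hpd : ¬ (p : ℤ) ∣ u - v := by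
    intro hd
    apply hpw
    apply (Nat.prime_iff_prime_int.1 hp).dvd_of_dvd_pow (n := r)
    rw [← h, ← F_mul]
    exact hd.mul_right _
  have huv' : u ≠ v := by
    rintro rfl
    simp at hpd
  have hF := F_pos (hp.odd_of_ne_two hp2) huv'
  obtain ⟨⟨c, hc⟩, ⟨d, hd⟩⟩ := Int.eq_pow_of_mul_eq_pow_odd (isCoprime_F hp huv hpd hF.ne')
    (hr.odd_of_ne_two hr2) ((F_mul p u v).trans h)
  refine ⟨c, d, hc, hd, ?_⟩
  rw [hd] at hF
  exact ((hr.odd_of_ne_two hr2).pow_pos_iff).1 hF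

theorem key_dvd {p r : ℕ} (hp : p.Prime) (hr : r.Prime) (hp2 : p ≠ 2) (hpr : p < r)
    {u v c d : ℤ} (huv : IsCoprime u v) (hv : v ≠ 0) (hpd : ¬ (p : ℤ) ∣ u - v)
    (hc : u - v = c ^ r) (hd : F p u v = d ^ r)
    (hgood : ∀ l : ℕ, l.Prime → (l : ℤ) ∣ v → ¬ l ≡ 1 [MOD r]) :
    (p : ℤ) * v ∣ r * (d - c ^ (p - 1)) ∧ (¬ (r : ℤ) ∣ v → (p : ℤ) * v ∣ d - c ^ (p - 1)) := by
  have hr2 : r ≠ 2 := by have := hp.two_le; omega
  have hpZ := Nat.prime_iff_prime_int.1 hp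
  have hrZ := Nat.prime_iff_prime_int.1 hr
  have hm : (p : ℤ) * v ≠ 0 := mul_ne_zero hpZ.ne_zero hv
  have hp1 : ¬ p ≡ 1 [MOD r] := by
    intro h1
    have h2 : p = 1 := Nat.ModEq.eq_of_lt_of_lt h1 hpr hr.one_lt
    exact hp.one_lt.ne' h2
  have hgood' : ∀ l : ℕ, l.Prime → (l : ℤ) ∣ p * v → ¬ l ≡ 1 [MOD r] := by
    intro l hl hlm
    rcases (Nat.prime_iff_prime_int.1 hl).dvd_or_dvd hlm with h | h
    · have := (Nat.prime_dvd_prime_iff_eq hl hp).1 (Int.natCast_dvd_natCast.1 h)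
      rw [this]; exact hp1
    · exact hgood l hl h
  have hcop : IsCoprime (c ^ (p - 1)) ((p : ℤ) * v) := by
    apply IsCoprime.pow_left
    have h1 : IsCoprime (c ^ r) ((p : ℤ) * v) := by
      rw [← hc]
      exact IsCoprime.mul_right ((hpZ.coprime_iff_not_dvd).2 hpd).symm (isCoprime_sub huv)
    exact (IsCoprime.pow_left_iff hr.pos).1 h1
  have hdvd : (p : ℤ) * v ∣ d ^ r - (c ^ (p - 1)) ^ r := by
    have h1 := N_dvd hp hp2 huv hpd
    rw [hd, hc] at h1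
    have h2 : (c ^ (p - 1)) ^ r = (c ^ r) ^ (p - 1) := by rw [← pow_mul, ← pow_mul, mul_comm]
    rw [h2]
    refine dvd_trans ?_ h1
    exact ⟨u, by ring⟩
  refine ⟨dvd_mul_sub_of_pow hr hr2 hm hcop hgood' hdvd, fun hrv => ?_⟩
  refine dvd_sub_of_pow' hr hm hcop ?_ hgood' hdvd
  intro h
  rcases hrZ.dvd_or_dvd h with h | h
  · have := (Nat.prime_dvd_prime_iff_eq hr hp).1 (Int.natCast_dvd_natCast.1 h)
    omega
  · exact hrv h

end Pool.Agent.Lib.MP_509488_nt
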