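import Mathlib

set_option autoImplicit false

namespace Pool.Agent.Lib.MP_509488_nt

open Finset NumberField

/-- The facts about the ring of integers of the `p`-th cyclotomic field used below. -/
structure CycRing (p : ℕ) (R : Type*) [CommRing R] where
  z : R
  prim : IsPrimitiveRoot z p
  adj : Algebra.adjoin ℤ {z} = ⊤
  prime : Prime (1 - z)
  assoc : Associated ((1 - z) ^ (p - 1)) (p : R)
  dvd_int : ∀ n : ℤ, (1 - z) ∣ (n : R) ↔ (p : ℤ) ∣ n
  exists_int : ∀ x : R, ∃ n : ℤ, (1 - z) ∣ x - n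
  coprime : ∀ x : R, ¬ (1 - z) ∣ x → IsCoprime (p : R) x
  conj : R ≃+* R
  conj_z : conj z * z = 1
  conj_conj : ∀ x, conj (conj x) = x
  unit : ∀ e : Rˣ, ∃ y : R, y ^ (2 * p) = 1 ∧ (e : R) = y * conj e
  norm_unit : ∀ (e : Rˣ) (k : ℕ) (a : ℤ), (1 - z) ^ k ∣ (a : R) - e →
    ∃ n : ℤ, (n = 1 ∨ n = -1) ∧ (1 - z) ^ k ∣ ((a ^ (p - 1) - n : ℤ) : R)

section

variable {p : ℕ} [hp : Fact p.Prime] {K : Type*} [Field K] [NumberField K]
  [hK : IsCyclotomicExtension {p} ℚ K] {ζ : K} (hζ : IsPrimitiveRoot ζ p)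

include hζ hK in
theorem exists_int_sub (x : 𝓞 K) : ∃ n : ℤ, (1 - hζ.toInteger) ∣ x - n := by
  have hx : x ∈ Algebra.adjoin ℤ {hζ.toInteger} := by
    rw [IsCyclotomicExtension.Rat.adjoin_singleton_eq_top hζ]; trivial
  induction hx using Algebra.adjoin_induction with
  | mem x hx =>
    rw [Set.mem_singleton_iff] at hx
    subst hx
    exact ⟨1, ⟨-1, by push_cast; ring⟩⟩
  | algebraMap n => exact ⟨n, by simp⟩
  | add x y _ _ hx hy =>
    obtain ⟨a, ha⟩ := hx
    obtain ⟨b, hb⟩ := hy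
    refine ⟨a + b, ?_⟩
    have := dvd_add ha hb
    push_cast
    convert this using 1
    ring
  | mul x y _ _ hx hy =>
    obtain ⟨a, ha⟩ := hx
    obtain ⟨b, hb⟩ := hy
    refine ⟨a * b, ?_⟩
    have := dvd_add (ha.mul_right y) (hb.mul_left (a : 𝓞 K))
    push_cast
    convert this using 1
    ring

omit hp in
include hK in
theorem norm_prod (x : 𝓞 K) :
    ((Algebra.norm ℤ x : ℤ) : 𝓞 K) = ∏ s : (K ≃ₐ[ℚ] K), RingOfIntegers.mapRingEquiv s.toRingEquiv x := by
  have : IsGalois ℚ K := IsCyclotomicExtension.isGalois {p} ℚ K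
  apply RingOfIntegers.coe_injective
  rw [map_prod]
  have h1 := Algebra.norm_eq_prod_automorphisms ℚ (x : K)
  rw [← Algebra.coe_norm_int] at h1
  simpa using h1

theorem prod_cong {ι R : Type*} [CommRing R] (s : Finset ι) (f : ι → R) (a m : R)
    (h : ∀ i ∈ s, m ∣ a - f i) : m ∣ a ^ s.card - ∏ i ∈ s, f i := by
  classical
  induction s using Finset.induction_on with
  | empty => simp
  | insert i s hi ih =>
    rw [Finset.card_insert_of_notMem hi, Finset.prod_insert hi]
    have h1 := ih (fun j hj => h j (Finset.mem_insert_of_mem hj))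
    have h2 := h i (Finset.mem_insert_self i s)
    have := dvd_add (h1.mul_left a) (h2.mul_right (∏ i ∈ s, f i))
    convert this using 1
    ring

include hζ hp hK in
theorem norm_unit_aux (e : (𝓞 K)ˣ) (k : ℕ) (a : ℤ) (h : (1 - hζ.toInteger) ^ k ∣ (a : 𝓞 K) - e) :
    ∃ n : ℤ, (n = 1 ∨ n = -1) ∧ (1 - hζ.toInteger) ^ k ∣ ((a ^ (p - 1) - n : ℤ) : 𝓞 K) := by
  have : IsGalois ℚ K := IsCyclotomicExtension.isGalois {p} ℚ K
  have : NeZero p := ⟨hp.out.ne_zero⟩
  refine ⟨Algebra.norm ℤ (e : 𝓞 K), ?_, ?_⟩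
  · have : IsUnit (Algebra.norm ℤ (e : 𝓞 K)) := e.isUnit.map _
    exact Int.isUnit_iff.1 this
  · have hc : (Finset.univ : Finset (K ≃ₐ[ℚ] K)).card = p - 1 := by
      rw [Finset.card_univ, ← Nat.card_eq_fintype_card,
        IsGalois.card_aut_eq_finrank, IsCyclotomicExtension.Rat.finrank p, Nat.totient_prime hp.out]
    push_cast
    rw [norm_prod (p := p), ← hc]
    apply prod_cong
    intro s _
    set t : 𝓞 K ≃+* 𝓞 K := RingOfIntegers.mapRingEquiv s.toRingEquiv with ht
    have h1 : t ((1 - hζ.toInteger) ^ k) ∣ t ((a : 𝓞 K) - e) := map_dvd t h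
    rw [map_sub, map_intCast, map_pow] at h1
    refine dvd_trans (pow_dvd_pow_of_dvd ?_ k) h1
    let t' : 𝓞 K ≃ₐ[ℤ] 𝓞 K := AlgEquiv.ofRingEquiv (f := t) (by intro r; simp)
    have h2 := hζ.toInteger_isPrimitiveRoot.associated_sub_one_map_sub_one t'
    have h3 : t (1 - hζ.toInteger) = - t' (hζ.toInteger - 1) := by
      rw [← map_neg, neg_sub]; rfl
    rw [h3, ← neg_sub, neg_dvd, dvd_neg]
    exact h2.dvd

include hp hK in
theorem unit_conj (hp2 : 2 < p) [IsCMField K] (e : (𝓞 K)ˣ) :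
    ∃ y : 𝓞 K, y ^ (2 * p) = 1 ∧ (e : 𝓞 K) = y * IsCMField.ringOfIntegersComplexConj K e := by
  have h1 := IsCMField.unitsMulComplexConjInv_apply K e
  set t := IsCMField.unitsMulComplexConjInv K e with ht
  refine ⟨((t : (𝓞 K)ˣ) : 𝓞 K), ?_, ?_⟩
  · have h2 : Units.torsionOrder K = 2 * p := by
      rw [IsCyclotomicExtension.Rat.torsionOrder_eq (n := p), if_neg]
      rw [Nat.not_even_iff_odd]
      exact hp.out.odd_of_ne_two (by omega)
    have h3 : t ^ (Units.torsionOrder K) = 1 := by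
      rw [Units.torsionOrder]
      exact pow_card_eq_one'
    rw [h2] at h3
    have h4 : ((t : (𝓞 K)ˣ)) ^ (2 * p) = 1 := by
      have := congrArg Subtype.val h3
      simpa using this
    rw [← Units.val_pow_eq_pow_val, h4, Units.val_one]
  · rw [h1]
    have : (IsCMField.ringOfIntegersComplexConj K (e : 𝓞 K)) = ((IsCMField.unitsComplexConj K e : (𝓞 K)ˣ) : 𝓞 K) := rfl
    rw [this, ← Units.val_mul, inv_mul_cancel_right]

include hp hK in
theorem conj_zeta [IsCMField K] :
    IsCMField.ringOfIntegersComplexConj K hζ.toInteger * hζ.toInteger = 1 := by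
  have : NeZero p := ⟨hp.out.ne_zero⟩
  apply RingOfIntegers.coe_injective
  obtain ⟨φ⟩ : Nonempty (K →+* ℂ) := inferInstance
  apply φ.injective
  simp only [map_mul, map_one]
  change φ (IsCMField.complexConj K ζ) * φ ζ = 1
  rw [IsCMField.complexEmbedding_complexConj]
  have h2 : ‖φ ζ‖ = 1 := (hζ.map_of_injective φ.injective).norm'_eq_one hp.out.ne_zero
  rw [Complex.conj_mul', h2]
  simp

include hζ hK in
noncomputable def cycRing (hp2 : 2 < p) : CycRing p (𝓞 K) := by
  haveI : NeZero p := ⟨hp.out.ne_zero⟩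
  haveI : IsCMField K := IsCyclotomicExtension.Rat.isCMField K (S := {p}) ⟨p, rfl, hp2⟩
  exact
  { z := hζ.toInteger
    prim := hζ.toInteger_isPrimitiveRoot
    adj := IsCyclotomicExtension.Rat.adjoin_singleton_eq_top hζ
    prime := by
      have := hζ.zeta_sub_one_prime'
      rw [← neg_sub]
      exact this.neg
    assoc := by
      have := IsCyclotomicExtension.Rat.associated_zeta_sub_one_pow_prime p hζ
      have he : Even (p - 1) := Nat.Odd.sub_odd (hp.out.odd_of_ne_two (by omega)) odd_one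
      rwa [← neg_sub, he.neg_pow]
    dvd_int := fun n => by
      rw [← neg_sub, neg_dvd]
      exact IsCyclotomicExtension.Rat.zeta_sub_one_dvd_intCast_iff' p hζ
    exists_int := exists_int_sub hζ
    coprime := fun x hx => by
      apply IsCyclotomicExtension.Rat.isCoprime_of_not_zeta_sub_one_dvd p hζ
      rwa [← neg_dvd, neg_sub]
    conj := (IsCMField.ringOfIntegersComplexConj K).toRingEquiv
    conj_z := conj_zeta hζ
    conj_conj := fun x => by
      apply RingOfIntegers.coe_injective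
      exact IsCMField.complexConj_apply_apply K _
    unit := fun e => unit_conj hp2 e
    norm_unit := norm_unit_aux hζ }

end

end Pool.Agent.Lib.MP_509488_nt
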