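import Mathlib
import Pool.Agent.Lib.MP_509488_nt.Cyc

set_option autoImplicit false

namespace Pool.Agent.Lib.MP_509488_nt

open Finset

section general
variable {R : Type*} [CommRing R]

theorem sub_dvd_geom (x y : R) (n : ℕ) :
    x - y ∣ (∑ i ∈ range n, x ^ i * y ^ (n - 1 - i)) - n * y ^ (n - 1) := by
  have : (∑ i ∈ range n, x ^ i * y ^ (n - 1 - i)) - n * y ^ (n - 1) =
      ∑ i ∈ range n, y ^ (n - 1 - i) * (x ^ i - y ^ i) := by
    have h2 : (n : R) * y ^ (n - 1) = ∑ i ∈ range n, y ^ (n - 1) := by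
      rw [sum_const, card_range, nsmul_eq_mul]
    rw [h2, ← sum_sub_distrib]
    apply sum_congr rfl
    intro i hi
    have hi' := mem_range.1 hi
    have h3 : y ^ (n - 1) = y ^ (n - 1 - i) * y ^ i := by
      rw [← pow_add]; congr 1; omega
    rw [h3]; ring
  rw [this]
  exact dvd_sum fun i _ => (sub_dvd_pow_sub_pow x y i).mul_left _

theorem geom_mul (x y : R) (n : ℕ) :
    (x - y) * (∑ i ∈ range n, x ^ i * y ^ (n - 1 - i)) = x ^ n - y ^ n := by
  rw [mul_comm]; exact (Commute.all x y).geom_sum₂_mul n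

theorem isCoprime_add_mul {a b c d : R} (h : IsCoprime a b) (hd : a = c + b * d) : IsCoprime c b := by
  rw [hd] at h
  exact IsCoprime.of_add_mul_right_left (by rwa [mul_comm b d] at h)

end general

namespace CycRing

variable {p : ℕ} {R : Type*} [CommRing R] (C : CycRing p R)

/-- `λ = 1 - ζ` -/
def lam : R := 1 - C.z

/-- `ζ⁻¹` -/
def z' : R := C.conj C.z

theorem z'_mul : C.z' * C.z = 1 := C.conj_z

theorem conj_z' : C.conj C.z' = C.z := C.conj_conj _

theorem conj_lam : C.conj C.lam = -(C.z' * C.lam) := by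
  unfold lam
  rw [map_sub, map_one]
  change 1 - C.z' = _
  linear_combination -C.z'_mul

theorem lam_dvd_conj_lam : C.lam ∣ C.conj C.lam := by
  rw [C.conj_lam]
  exact (dvd_neg).2 (Dvd.intro_left _ rfl)

theorem conj_sub (x : R) : C.lam ∣ C.conj x - x := by
  obtain ⟨n, hn⟩ := C.exists_int x
  have h1 : C.conj C.lam ∣ C.conj (x - n) := map_dvd C.conj hn
  have h2 := C.lam_dvd_conj_lam.trans h1
  rw [map_sub, map_intCast] at h2
  have := dvd_sub h2 hn
  convert this using 1
  ring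

theorem lam_dvd_z'_sub : C.lam ∣ C.z' - 1 := by
  refine ⟨C.z', ?_⟩
  unfold lam
  linear_combination C.z'_mul

theorem hom_ext {S : Type*} [CommRing S] (f g : R →+* S) (h : f C.z = g C.z) : f = g := by
  ext x
  have hx : x ∈ Algebra.adjoin ℤ {C.z} := by rw [C.adj]; trivial
  induction hx using Algebra.adjoin_induction with
  | mem x hx =>
    rw [Set.mem_singleton_iff] at hx
    subst hx; exact h
  | algebraMap n => simp
  | add x y _ _ hx hy => rw [map_add, map_add, hx, hy]
  | mul x y _ _ hx hy => rw [map_mul, map_mul, hx, hy]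

theorem exists_root {r : ℕ} (hr : r.Coprime (2 * p)) (hp : 0 < p) {y : R} (hy : y ^ (2 * p) = 1)
    (hl : C.lam ∣ y - 1) : ∃ k : ℕ, k.Coprime p ∧ (y ^ k) ^ r = y ∧ C.lam ∣ y ^ k - 1 := by
  by_cases h1 : 2 * p = 1
  · omega
  obtain ⟨k, -, hk⟩ := Nat.exists_mul_mod_eq_one_of_coprime hr (by omega)
  refine ⟨k, ?_, ?_, ?_⟩
  · have : (r * k).Coprime (2 * p) := by
      rw [Nat.Coprime, Nat.gcd_comm, Nat.gcd_rec, hk]; simp
    exact (this.coprime_mul_left).coprime_mul_left_right
  · rw [← pow_mul, mul_comm k r]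
    conv_rhs => rw [← pow_one y]
    rw [← Nat.div_add_mod (r * k) (2 * p), pow_add, pow_mul, hy, one_pow, hk, one_mul]
  · refine hl.trans ?_
    simpa using sub_dvd_pow_sub_pow y 1 k


variable {r : ℕ}

theorem z_unit : IsUnit C.z := IsUnit.of_mul_eq_one _ (by rw [mul_comm]; exact C.z'_mul)

theorem z'_unit : IsUnit C.z' := IsUnit.of_mul_eq_one _ C.z'_mul

theorem exists_m (hp : 3 ≤ p) (hr : 2 ≤ r) :
    ∃ m : R, C.lam * m = (p : R) ^ (r - 1) ∧ Associated (C.lam ^ ((p - 1) * (r - 1) - 1)) m := by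
  obtain ⟨e, he⟩ := C.assoc
  change C.lam ^ (p - 1) * e = p at he
  refine ⟨C.lam ^ ((p - 1) * (r - 1) - 1) * (e : R) ^ (r - 1), ?_, e ^ (r - 1), by simp⟩
  rw [← mul_assoc, ← pow_succ', Nat.sub_add_cancel, ← he, mul_pow, pow_mul]
  have : 1 ≤ p - 1 := by omega
  have : 1 ≤ r - 1 := by omega
  nlinarith

theorem conj_m [IsDomain R] {m : R} {n : ℕ} (hm : C.lam * m = (p : R) ^ n) :
    C.conj m = -(C.z * m) := by
  have h1 : C.conj (C.lam * m) = C.lam * m := by rw [hm, map_pow, map_natCast]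
  rw [map_mul, C.conj_lam] at h1
  have h2 : C.lam * (C.z' * C.conj m + m) = 0 := by linear_combination -h1
  rcases mul_eq_zero.1 h2 with h3 | h3
  · exact absurd h3 C.prime.ne_zero
  · linear_combination (C.z) * h3 - C.conj m * C.z'_mul


theorem lam_dvd_int (n : ℤ) : C.lam ∣ (n : R) ↔ (p : ℤ) ∣ n := C.dvd_int n

include C in
theorem isUnit_V (hp : p.Prime) (hr : r.Prime) {v : ℤ} (hv0 : v ≠ 0) (hpv : ¬ (p : ℤ) ∣ v)
    (hl : ∀ l : ℕ, l.Prime → (l : ℤ) ∣ v → l ≠ p → ¬ r ∣ l * (l ^ orderOf (l : ZMod p) - 1))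
    {a b : R} (ha : IsCoprime a (v : R))
    (hd : (∑ i ∈ range r, a ^ i * b ^ (r - 1 - i)) ∣ (v : R)) :
    IsUnit (∑ i ∈ range r, a ^ i * b ^ (r - 1 - i)) := by
  by_contra hV
  obtain ⟨P, hP, hVP⟩ := exists_max_ideal_of_mem_nonunits hV
  let k := R ⧸ P
  let _ : Field k := Ideal.Quotient.field P
  let π : R →+* k := Ideal.Quotient.mk P
  have hπV : π (∑ i ∈ range r, a ^ i * b ^ (r - 1 - i)) = 0 := Ideal.Quotient.eq_zero_iff_mem.2 hVP
  have hπv : (v : k) = 0 := by
    obtain ⟨c, hc⟩ := hd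
    have : π (v : R) = 0 := by rw [hc, map_mul, hπV, zero_mul]
    simpa using this
  have hπa : π a ≠ 0 := by
    intro h0
    obtain ⟨c, d, hcd⟩ := ha
    have : π (c * a + d * v) = 1 := by rw [hcd, map_one]
    rw [map_add, map_mul, map_mul, h0, map_intCast, hπv, mul_zero, mul_zero, add_zero] at this
    exact zero_ne_one this
  obtain ⟨l, hlk⟩ := CharP.exists k
  have hlv : (l : ℤ) ∣ v := (CharP.intCast_eq_zero_iff k l v).1 hπv
  rcases CharP.char_is_prime_or_zero k l with hlp | hl0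
  swap
  · subst hl0
    simp at hlv
    exact hv0 hlv
  have : Fact l.Prime := ⟨hlp⟩
  have hlp' : l ≠ p := by rintro rfl; exact hpv hlv
  have hnr := hl l hlp hlv hlp'
  set f := orderOf (l : ZMod p) with hf
  -- Frobenius
  have hz : (C.z) ^ (l ^ f) = C.z := by
    have h1 : ((l ^ f : ℕ) : ZMod p) = 1 := by
      push_cast
      rw [hf, pow_orderOf_eq_one]
    have h2 : l ^ f ≡ 1 [MOD p] := by
      rw [← ZMod.natCast_eq_natCast_iff]; push_cast; push_cast at h1; exact h1
    have h3 : (C.z) ^ (l ^ f) = C.z ^ 1 := by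
      rw [← Nat.mod_add_div (l ^ f) p, pow_add, pow_mul, C.prim.pow_eq_one, one_pow, mul_one, h2,
        Nat.mod_eq_of_lt hp.one_lt]
    rw [h3, pow_one]
  have hfrob : (iterateFrobenius k l f).comp π = π := by
    apply C.hom_ext
    simp only [RingHom.comp_apply, iterateFrobenius_def]
    rw [← map_pow, hz]
  have hfr : ∀ x : R, (π x) ^ (l ^ f) = π x := by
    intro x
    have := congrArg (fun g : R →+* k => g x) hfrob
    simpa [iterateFrobenius_def] using this
  have hsum : ∑ i ∈ range r, (π a) ^ i * (π b) ^ (r - 1 - i) = 0 := by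
    rw [← hπV, map_sum]; simp
  have hab : (π a) ^ r = (π b) ^ r := by
    have := geom_mul (π a) (π b) r
    rw [hsum, mul_zero] at this
    exact (sub_eq_zero.1 this.symm)
  have hπb : π b ≠ 0 := by
    intro h0
    rw [h0, zero_pow hr.ne_zero] at hab
    exact hπa (pow_eq_zero_iff hr.ne_zero |>.1 hab)
  by_cases heq : π a = π b
  · rw [heq] at hsum
    have : ∑ i ∈ range r, (π b) ^ i * (π b) ^ (r - 1 - i) = r * (π b) ^ (r - 1) := by
      rw [sum_congr rfl (g := fun _ => (π b) ^ (r - 1)), sum_const, card_range, nsmul_eq_mul]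
      intro i hi
      rw [← pow_add]; congr 1
      have := mem_range.1 hi; omega
    rw [this] at hsum
    rcases mul_eq_zero.1 hsum with h | h
    · have h' := (CharP.cast_eq_zero_iff k l r).1 h
      have h'' := (Nat.prime_dvd_prime_iff_eq hlp hr).1 h'
      exact hnr (by rw [h'']; exact dvd_mul_right _ _)
    · exact pow_ne_zero _ hπb h
  · set t := π a / π b with ht
    have htr : t ^ r = 1 := by rw [ht, div_pow, hab, div_self (pow_ne_zero _ hπb)]
    have ht1 : t ≠ 1 := by
      intro h; rw [ht, div_eq_one_iff_eq hπb] at h; exact heq h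
    have htf : t ^ (l ^ f) = t := by rw [ht, div_pow, hfr, hfr]
    have ht0 : t ≠ 0 := div_ne_zero hπa hπb
    have hord : orderOf t = r := by
      rcases (Nat.dvd_prime hr).1 (orderOf_dvd_of_pow_eq_one htr) with h | h
      · exact absurd (orderOf_eq_one_iff.1 h) ht1
      · exact h
    have h1 : t ^ (l ^ f - 1) = 1 := by
      have h2 : t ^ (l ^ f - 1) * t = 1 * t := by
        rw [← pow_succ, Nat.sub_add_cancel (Nat.one_le_pow _ _ hlp.pos), htf, one_mul]
      exact mul_right_cancel₀ ht0 h2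
    have := orderOf_dvd_of_pow_eq_one h1
    rw [hord] at this
    exact hnr (this.mul_left _)


theorem dvd_of_lam_pow [IsDomain R] (i : ℕ) :
    ∀ N : ℤ, C.lam ^ ((p - 1) * i + 1) ∣ (N : R) → (p : ℤ) ^ (i + 1) ∣ N := by
  induction i with
  | zero =>
    intro N h
    rw [mul_zero, zero_add, pow_one] at h
    rw [zero_add, pow_one]
    exact (C.lam_dvd_int N).1 h
  | succ i ih =>
    intro N h
    have h1 : C.lam ∣ (N : R) := (dvd_pow_self _ (by omega)).trans h
    obtain ⟨M, hM⟩ := (C.lam_dvd_int N).1 h1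
    obtain ⟨e, he⟩ := C.assoc
    change C.lam ^ (p - 1) * e = p at he
    have h2 : C.lam ^ ((p - 1) * i + 1) ∣ (M : R) := by
      have h3 : C.lam ^ (p - 1) * C.lam ^ ((p - 1) * i + 1) ∣ C.lam ^ (p - 1) * ((e : R) * M) := by
        rw [← pow_add, ← mul_assoc, he]
        have h4 : p - 1 + ((p - 1) * i + 1) = (p - 1) * (i + 1) + 1 := by ring
        rw [h4]
        rw [hM] at h
        push_cast at h
        exact h
      have h5 := (mul_dvd_mul_iff_left (pow_ne_zero _ C.prime.ne_zero)).1 h3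
      exact (Units.dvd_mul_left).1 h5
    rw [hM, pow_succ']
    exact mul_dvd_mul_left _ (ih M h2)

include C in
theorem main [IsDomain R] (hp : p.Prime) (hr : r.Prime) (hp2 : 3 ≤ p) (hr2 : 3 ≤ r)
    (hpr : p ≠ r)
    (hpow : ∀ a b w : R, IsCoprime a b → a * b = w ^ r → ∃ (e : Rˣ) (d : R), a = e * d ^ r)
    {u v w : ℤ} (huv : IsCoprime u v) (h : u ^ p - v ^ p = w ^ r) (hv0 : v ≠ 0)
    (hpv : ¬ (p : ℤ) ∣ v) (hs : (p : ℤ) ^ (r - 1) ∣ u - v)
    (hl : ∀ l : ℕ, l.Prime → (l : ℤ) ∣ v → l ≠ p → ¬ r ∣ l * (l ^ orderOf (l : ZMod p) - 1)) :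
    (p : ℤ) ^ (r - 1) ∣ (v ^ (r - 1)) ^ (p - 1) - 1 := by
  obtain ⟨m, hm, hassoc⟩ := C.exists_m hp2 (by omega : 2 ≤ r)
  have hcm := C.conj_m hm
  obtain ⟨s, hs⟩ := hs
  have hu : u = v + p ^ (r - 1) * s := by linear_combination hs
  have hk0 : 1 ≤ (p - 1) * (r - 1) - 1 := by
    have : 2 * 2 ≤ (p - 1) * (r - 1) := Nat.mul_le_mul (by omega) (by omega)
    omega
  have hlm : C.lam ∣ m := (dvd_pow_self _ (by omega)).trans hassoc.dvd
  have hmp : m ∣ (p : R) ^ (r - 1) := ⟨C.lam, by rw [← hm]; ring⟩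
  -- `x`
  set x : R := v + m * s with hx
  have hlx : C.lam * x = u - C.z * v := by
    rw [hx, hu]; push_cast
    have : C.lam * (m * s) = p ^ (r - 1) * s := by rw [← mul_assoc, hm]
    rw [mul_add, this]; unfold lam; ring
  -- coprimality facts
  have hpo : Odd p := hp.odd_of_ne_two (by omega)
  have hro : Odd r := hr.odd_of_ne_two (by omega)
  have hcvp : IsCoprime (v : R) (p : R) := by
    have h1 : IsCoprime v (p : ℤ) := ((Nat.prime_iff_prime_int.1 hp).coprime_iff_not_dvd.2 hpv).symm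
    have := h1.map (Int.castRingHom R)
    simpa using this
  have hcvm : IsCoprime (v : R) m := (IsCoprime.pow_right hcvp).of_isCoprime_of_dvd_right hmp
  have hlp : C.lam ∣ (p : R) := by
    have := (C.lam_dvd_int (p : ℤ)).2 dvd_rfl
    simpa using this
  have hcuv : IsCoprime (u : R) (v : R) := by
    have := huv.map (Int.castRingHom R)
    simpa using this
  have hzu := C.z_unit
  have hxv : IsCoprime x (v : R) := by
    have h1 : IsCoprime ((u : R) - C.z * v) (v : R) := by
      have := (IsCoprime.add_mul_right_left_iff (x := (u : R)) (y := (v : R)) (z := -C.z)).2 hcuv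
      convert this using 1; ring
    rw [← hlx] at h1
    exact h1.of_mul_left_right
  have hxlam : ¬ C.lam ∣ x := by
    intro hd
    have h1 : C.lam ∣ (v : R) := by
      have := dvd_sub hd (hlm.mul_right (s : R))
      rw [hx] at this
      simpa using this
    exact hpv ((C.lam_dvd_int v).1 h1)
  have hxp : IsCoprime (p : R) x := C.coprime x hxlam
  set G := ∑ i ∈ range p, (u : R) ^ i * (C.z * v) ^ (p - 1 - i) with hG
  have hGmul : ((u : R) - C.z * v) * G = w ^ r := by
    rw [hG, geom_mul, mul_pow, C.prim.pow_eq_one, one_mul]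
    exact_mod_cast congrArg (Int.cast : ℤ → R) h
  have hxG : IsCoprime x G := by
    obtain ⟨q, hq⟩ := sub_dvd_geom (u : R) (C.z * v) p
    have h1 : IsCoprime x ((p : R) * (C.z * v) ^ (p - 1)) := by
      refine IsCoprime.mul_right hxp.symm (IsCoprime.pow_right ?_)
      refine IsCoprime.mul_right ?_ hxv
      exact (isCoprime_one_right.of_isCoprime_of_dvd_right (hzu.dvd) )
    have h2 : G = (p : R) * (C.z * v) ^ (p - 1) + x * (C.lam * q) := by
      have : G - (p : R) * (C.z * v) ^ (p - 1) = (u - C.z * v) * q := hq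
      rw [← hlx] at this
      linear_combination this
    rw [h2]
    exact h1.add_mul_left_right _
  obtain ⟨e, a, hea⟩ := hpow x (C.lam * G) w (IsCoprime.mul_right
    (hxp.symm.of_isCoprime_of_dvd_right hlp) hxG)
    (by rw [← hGmul, ← hlx]; ring)
  -- the conjugate
  have hcx : C.conj x = v - C.z * m * s := by
    rw [hx, map_add, map_mul, map_intCast, map_intCast, hcm]; ring
  have hid : x + C.z' * C.conj x = (1 + C.z') * v := by
    rw [hcx, hx]
    linear_combination (-(m * s)) * C.z'_mul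
  obtain ⟨y, hy, hey⟩ := C.unit e
  -- `λ ∣ y - 1`
  have hly : C.lam ∣ y - 1 := by
    have h1 := C.conj_sub (e : R)
    have h2 : (C.conj (e : R)) - e = (C.conj (e : R)) * (1 - y) := by
      conv_lhs => rw [hey]
      have : C.conj (y * C.conj (e : R)) = C.conj (e : R) := by rw [← hey]
      rw [this]; ring
    rw [h2] at h1
    have h3 : IsUnit (C.conj (e : R)) := e.isUnit.map _
    have h4 := (IsUnit.dvd_mul_left h3).1 h1
    rw [← dvd_neg]; simpa using h4
  have hy1 : y * y ^ (2 * p - 1) = 1 := by rw [← pow_succ', Nat.sub_add_cancel (by omega), hy]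
  have hrc : r.Coprime (2 * p) := by
    refine Nat.Coprime.mul_right ?_ ((Nat.coprime_primes hr hp).2 (Ne.symm hpr))
    exact (Nat.coprime_primes hr Nat.prime_two).2 (by omega)
  have hz'p : C.z' ^ p = 1 := by
    unfold z'; rw [← map_pow, C.prim.pow_eq_one, map_one]
  obtain ⟨k, -, hk, hk'⟩ := C.exists_root hrc (by omega) (y := C.z' * y ^ (2 * p - 1))
    (by
      have e1 : (y ^ (2 * p - 1)) ^ (2 * p) = 1 := by
        rw [← pow_mul, mul_comm (2 * p - 1), pow_mul, hy, one_pow]
      have e2 : C.z' ^ (2 * p) = 1 := by rw [mul_comm 2 p, pow_mul, hz'p, one_pow]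
      rw [mul_pow, e1, e2, one_mul])
    (by
      have h1 := C.lam_dvd_z'_sub
      have h2 : C.lam ∣ y ^ (2 * p - 1) - 1 := hly.trans (by simpa using sub_dvd_pow_sub_pow y 1 (2 * p - 1))
      have := dvd_add (h1.mul_right (y ^ (2 * p - 1))) h2
      convert this using 1; ring)
  set n := (C.z' * y ^ (2 * p - 1)) ^ k with hn
  obtain ⟨k2, hk2, ht, ht'⟩ := C.exists_root hrc (by omega) (y := C.z')
    (by rw [mul_comm 2 p, pow_mul, hz'p, one_pow]) C.lam_dvd_z'_sub
  set t := C.z' ^ k2 with htdef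
  -- `β`
  set b := n * C.conj a with hb
  have hea' : C.conj x = C.conj (e : R) * C.conj a ^ r := by rw [hea, map_mul, map_pow]
  have hbr : (e : R) * b ^ r = C.z' * C.conj x := by
    rw [hb, mul_pow, hk, hea']
    have h3 : (e : R) * y ^ (2 * p - 1) = C.conj (e : R) := by
      conv_lhs => rw [hey]
      rw [mul_assoc, mul_comm (C.conj (e : R)), ← mul_assoc, hy1, one_mul]
    linear_combination (C.z' * C.conj a ^ r) * h3
  have hsum : (e : R) * (a ^ r + b ^ r) = (1 + C.z') * v := by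
    rw [mul_add, hbr, ← hea, hid]
  have hprim' : IsPrimitiveRoot C.z' p := C.prim.map_of_injective C.conj.injective
  have htprim : IsPrimitiveRoot t p := hprim'.pow_of_coprime k2 hk2
  have h2p : Nat.Coprime 2 p := (Nat.coprime_primes Nat.prime_two hp).2 (by omega)
  have hu1 : IsUnit (1 + C.z') := by
    have := hprim'.geom_sum_isUnit (by omega : 2 ≤ p) h2p
    simpa [sum_range_succ, add_comm] using this
  have hu2 : IsUnit (1 + t) := by
    have := htprim.geom_sum_isUnit (by omega : 2 ≤ p) h2p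
    simpa [sum_range_succ, add_comm] using this
  -- factor
  set V := ∑ i ∈ range r, a ^ i * (-b) ^ (r - 1 - i) with hV
  have hfac : (a + b) * V = a ^ r + b ^ r := by
    have := geom_mul a (-b) r
    rw [hro.neg_pow] at this
    linear_combination this
  have hav : IsCoprime a (v : R) := by
    rw [hea] at hxv
    exact (IsCoprime.pow_left_iff (by omega)).1 hxv.of_mul_left_right
  have hVdvd : V ∣ (v : R) := by
    have h1 : V ∣ (1 + C.z') * v := by
      rw [← hsum, ← hfac]; exact ⟨e * (a + b), by ring⟩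
    exact (IsUnit.dvd_mul_left hu1).1 h1
  have hVu : IsUnit V := C.isUnit_V hp hr hv0 hpv hl hav hVdvd
  obtain ⟨z1, hz1⟩ := hu1
  obtain ⟨z2, hz2⟩ := hu2
  obtain ⟨V', hV'⟩ := hVu
  -- `α + β = v κ`
  set κ : Rˣ := z1 * e⁻¹ * V'⁻¹ with hκ
  have hab : a + b = v * κ := by
    have h1 : (e : R) * ((a + b) * V') = z1 * v := by rw [hV', hfac, hsum, hz1]
    have h2 : a + b = (e⁻¹ : Rˣ) * ((e : R) * ((a + b) * V')) * (V'⁻¹ : Rˣ) := by
      rw [← mul_assoc, Units.inv_mul, one_mul, mul_assoc, Units.mul_inv, mul_one]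
    rw [h2, h1, hκ]; push_cast; ring
  -- `m ∣ β - τ α`
  have hmbr : m ∣ b ^ r - (t * a) ^ r := by
    have h1 : (e : R) * (b ^ r - (t * a) ^ r) = m * (-(1 + C.z') * s) := by
      rw [mul_sub, hbr, mul_pow, ht]
      have : (e : R) * (C.z' * a ^ r) = C.z' * x := by rw [hea]; ring
      rw [this, hcx, hx]
      linear_combination (-(m * s)) * C.z'_mul
    have h2 : m ∣ (e : R) * (b ^ r - (t * a) ^ r) := ⟨_, h1⟩
    exact (Units.dvd_mul_left).1 h2
  have hlb : C.lam ∣ b - t * a := by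
    have h1 := C.conj_sub a
    have h2 := dvd_sub (dvd_add (hk'.mul_right (C.conj a)) h1) (ht'.mul_right a)
    convert h2 using 1
    rw [hb]; ring
  have hla : ¬ C.lam ∣ a := by
    intro hd
    apply hxlam
    rw [hea]
    exact (dvd_pow hd (by omega)).mul_left _
  have hmba : m ∣ b - t * a := by
    set H := ∑ i ∈ range r, b ^ i * (t * a) ^ (r - 1 - i) with hH
    have h1 : (b - t * a) * H = b ^ r - (t * a) ^ r := geom_mul _ _ _
    rw [← h1] at hmbr
    have h2 : ¬ C.lam ∣ H := by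
      intro hd
      have h3 := sub_dvd_geom b (t * a) r
      have h4 : C.lam ∣ (r : R) * (t * a) ^ (r - 1) := by
        have := dvd_sub hd (hlb.trans h3)
        rw [← hH] at this
        simpa using this
      rcases C.prime.dvd_or_dvd h4 with h5 | h5
      · have h6 : C.lam ∣ ((r : ℤ) : R) := by rw [Int.cast_natCast]; exact h5
        have h7 := (C.lam_dvd_int _).1 h6
        exact hpr ((Nat.prime_dvd_prime_iff_eq hp hr).1 (Int.natCast_dvd_natCast.1 h7))
      · have h6 := C.prime.dvd_of_dvd_pow h5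
        rcases C.prime.dvd_or_dvd h6 with h7 | h7
        · have h8 : C.lam ∣ (1 : R) := by
            have := dvd_sub h7 ht'
            rw [sub_sub_cancel] at this
            exact this
          exact C.prime.not_isUnit (isUnit_of_dvd_one h8)
        · exact hla h7
    have h3 : IsCoprime ((p : R) ^ (r - 1)) H := (C.coprime H h2).pow_left
    have h4 : IsCoprime m H := h3.of_isCoprime_of_dvd_left hmp
    exact h4.dvd_of_dvd_mul_right hmbr
  -- final congruence
  have hmv : m ∣ (v : R) * κ - (1 + t) * a := by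
    have : (v : R) * κ - (1 + t) * a = b - t * a := by rw [← hab]; ring
    rw [this]; exact hmba
  have hmr : m ∣ ((v : R) * κ) ^ r - ((1 + t) * a) ^ r := hmv.trans (sub_dvd_pow_sub_pow _ _ _)
  have hfin : m ∣ (v : R) * ((e : R) * κ ^ r * v ^ (r - 1) - (1 + t) ^ r) := by
    have h1 := dvd_add (hmr.mul_left (e : R)) (Dvd.intro (s * (1 + t) ^ r : R) rfl : m ∣ m * (s * (1 + t) ^ r))
    convert h1 using 1
    have h2 : (e : R) * a ^ r = v + m * s := by rw [← hea]
    have h3 : (v : R) ^ r = v * v ^ (r - 1) := by rw [← pow_succ', Nat.sub_add_cancel (by omega)]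
    rw [mul_pow, mul_pow, h3]
    linear_combination ((1 + t) ^ r) * h2
  have hfin2 := hcvm.symm.dvd_of_dvd_mul_left hfin
  -- unit `E`
  set E : Rˣ := z2 ^ r * e⁻¹ * (κ⁻¹) ^ r with hE
  have hfin3 : m ∣ ((v ^ (r - 1) : ℤ) : R) - E := by
    have h1 : ((v ^ (r - 1) : ℤ) : R) - E =
        ((e⁻¹ : Rˣ) : R) * ((κ⁻¹ : Rˣ) : R) ^ r * ((e : R) * κ ^ r * v ^ (r - 1) - (1 + t) ^ r) := by
      rw [hE, ← hz2]
      have h2 : ((e⁻¹ : Rˣ) : R) * e = 1 := Units.inv_mul e
      have h3 : ((κ⁻¹ : Rˣ) : R) ^ r * (κ : R) ^ r = 1 := by rw [← mul_pow, Units.inv_mul, one_pow]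
      push_cast
      linear_combination (-(v : R) ^ (r - 1) * (((κ⁻¹ : Rˣ) : R) ^ r * (κ : R) ^ r)) * h2 -
        ((v : R) ^ (r - 1)) * h3
    rw [h1]
    exact hfin2.mul_left _
  obtain ⟨nn, hnn, hnd⟩ := C.norm_unit E ((p - 1) * (r - 1) - 1) (v ^ (r - 1))
    (hassoc.dvd.trans hfin3)
  have hpd : (p : ℤ) ^ (r - 1) ∣ (v ^ (r - 1)) ^ (p - 1) - nn := by
    have h1 : r - 1 = (r - 2) + 1 := by omega
    have h2 : (p - 1) * (r - 2) + 1 ≤ (p - 1) * (r - 1) - 1 := by
      have : (p - 1) * (r - 1) = (p - 1) * (r - 2) + (p - 1) := by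
        rw [h1]; ring
      omega
    have h3 := C.dvd_of_lam_pow (r - 2) _ ((pow_dvd_pow C.lam h2).trans hnd)
    rwa [← h1] at h3
  rcases hnn with h1 | h1
  · rwa [h1] at hpd
  · exfalso
    rw [h1] at hpd
    have h2 : (p : ℤ) ∣ (v ^ (r - 1)) ^ (p - 1) - -1 := (dvd_pow_self _ (by omega)).trans hpd
    have : Fact p.Prime := ⟨hp⟩
    have h3 : (p : ℤ) ∣ (v ^ (r - 1)) ^ (p - 1) - 1 := by
      have hc : IsCoprime (v ^ (r - 1)) (p : ℤ) :=
        (((Nat.prime_iff_prime_int.1 hp).coprime_iff_not_dvd.2 hpv).symm).pow_left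
      exact (Int.ModEq.pow_card_sub_one_eq_one hp hc).symm.dvd
    have h4 : (p : ℤ) ∣ 2 := by
      have := dvd_sub h2 h3
      simpa using this
    have h5 := Int.le_of_dvd (by norm_num) h4
    omega

end CycRing

end Pool.Agent.Lib.MP_509488_nt
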