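import Mathlib
import Pool.Agent.Lib.MP_509488_nt.Alg

set_option autoImplicit false

namespace Pool.Agent.Lib.MP_509488_nt

open Finset

/-- Size estimate in the sum case. -/
theorem sum_ineq {p r : ℕ} (hp : 0 < p) (hr : 0 < r) {A B C d : ℝ} (hA : 0 < A) (hB : 0 < B)
    (hC : 0 < C) (hd : 0 < d) (h1 : d ^ r * (A + B) = A ^ p + B ^ p)
    (h2 : C ^ r = (A + B) ^ (p - 1)) : r * (C - d) * A ≤ p * B * C := by
  by_contra hcon
  push Not at hcon
  have hr' : (0 : ℝ) < r := by exact_mod_cast hr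
  have hp' : (0 : ℝ) < p := by exact_mod_cast hp
  set θ := (C - d) / C with hθ
  have h3 : d / C = 1 - θ := by rw [hθ]; field_simp; ring
  have h4 : p * (B / A) < r * θ := by
    rw [hθ]
    have : r * ((C - d) / C) - p * (B / A) = (r * (C - d) * A - p * B * C) / (A * C) := by
      field_simp
    have h5 : 0 < (r * (C - d) * A - p * B * C) / (A * C) := by
      apply div_pos (by linarith) (by positivity)
    linarith
  have h5 : d / C ≤ Real.exp (-θ) := by
    rw [h3]; exact Real.one_sub_le_exp_neg θ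
  have h6 : (d / C) ^ r ≤ Real.exp (-(r * θ)) := by
    calc (d / C) ^ r ≤ (Real.exp (-θ)) ^ r := pow_le_pow_left₀ (by positivity) h5 r
      _ = Real.exp (-(r * θ)) := by rw [← Real.exp_nat_mul]; ring_nf
  have h7 : (d / C) ^ r < Real.exp (-(p * (B / A))) :=
    h6.trans_lt (Real.exp_lt_exp.2 (by linarith))
  have h8 : d ^ r < C ^ r * Real.exp (-(p * (B / A))) := by
    rw [div_pow, div_lt_iff₀ (by positivity)] at h7
    linarith
  have h9 : (A + B) ^ p ≤ A ^ p * Real.exp (p * (B / A)) := by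
    have h10 : A + B = A * (B / A + 1) := by field_simp; ring
    rw [h10, mul_pow]
    apply mul_le_mul_of_nonneg_left _ (by positivity)
    calc (B / A + 1) ^ p ≤ (Real.exp (B / A)) ^ p :=
          pow_le_pow_left₀ (by positivity) (Real.add_one_le_exp _) p
      _ = Real.exp (p * (B / A)) := by rw [← Real.exp_nat_mul]
  have h10 : A ^ p < (A + B) ^ p * Real.exp (-(p * (B / A))) := by
    calc A ^ p < A ^ p + B ^ p := by linarith [pow_pos hB p]
      _ = d ^ r * (A + B) := h1.symm
      _ < (C ^ r * Real.exp (-(p * (B / A)))) * (A + B) :=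
          mul_lt_mul_of_pos_right h8 (by positivity)
      _ = (A + B) ^ p * Real.exp (-(p * (B / A))) := by
          rw [h2]
          have : (A + B) ^ p = (A + B) ^ (p - 1) * (A + B) := by
            rw [← pow_succ, Nat.sub_add_cancel hp]
          rw [this]; ring
  have h11 : (A + B) ^ p * Real.exp (-(p * (B / A))) ≤ A ^ p := by
    rw [Real.exp_neg, ← div_eq_mul_inv, div_le_iff₀ (Real.exp_pos _)]
    exact h9
  linarith

/-- Size estimate in the difference case. -/
theorem diff_ineq {p r : ℕ} (hp : 0 < p) (hr : 0 < r) {X Y C d : ℝ} (hY : 0 < Y) (hXY : Y < X)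
    (hC : 0 < C) (hd : 0 < d) (h1 : d ^ r * (X - Y) = X ^ p - Y ^ p)
    (h2 : C ^ r = (X - Y) ^ (p - 1)) : r * (d - C) * (X - Y) ≤ p * Y * d := by
  by_contra hcon
  push Not at hcon
  have hZ : 0 < X - Y := by linarith
  have hX : 0 < X := by linarith
  have hr' : (0 : ℝ) < r := by exact_mod_cast hr
  have hp' : (0 : ℝ) < p := by exact_mod_cast hp
  set θ := (d - C) / d with hθ
  have h3 : C / d = 1 - θ := by rw [hθ]; field_simp; ring
  have h4 : p * (Y / (X - Y)) < r * θ := by
    rw [hθ]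
    have : r * ((d - C) / d) - p * (Y / (X - Y)) =
        (r * (d - C) * (X - Y) - p * Y * d) / ((X - Y) * d) := by
      field_simp
    have h5 : 0 < (r * (d - C) * (X - Y) - p * Y * d) / ((X - Y) * d) := by
      apply div_pos (by linarith) (by positivity)
    linarith
  have h5 : C / d ≤ Real.exp (-θ) := by
    rw [h3]; exact Real.one_sub_le_exp_neg θ
  have h6 : (C / d) ^ r ≤ Real.exp (-(r * θ)) := by
    calc (C / d) ^ r ≤ (Real.exp (-θ)) ^ r := pow_le_pow_left₀ (by positivity) h5 r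
      _ = Real.exp (-(r * θ)) := by rw [← Real.exp_nat_mul]; ring_nf
  have h7 : (C / d) ^ r < Real.exp (-(p * (Y / (X - Y)))) :=
    h6.trans_lt (Real.exp_lt_exp.2 (by linarith))
  have h8 : C ^ r < d ^ r * Real.exp (-(p * (Y / (X - Y)))) := by
    rw [div_pow, div_lt_iff₀ (by positivity)] at h7
    linarith
  have h9 : X ^ p ≤ (X - Y) ^ p * Real.exp (p * (Y / (X - Y))) := by
    have h10 : X = (X - Y) * (Y / (X - Y) + 1) := by field_simp; ring
    calc X ^ p = ((X - Y) * (Y / (X - Y) + 1)) ^ p := by rw [← h10]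
      _ = (X - Y) ^ p * (Y / (X - Y) + 1) ^ p := mul_pow _ _ _
      _ ≤ (X - Y) ^ p * (Real.exp (Y / (X - Y))) ^ p := by
          apply mul_le_mul_of_nonneg_left _ (by positivity)
          exact pow_le_pow_left₀ (by positivity) (Real.add_one_le_exp _) p
      _ = (X - Y) ^ p * Real.exp (p * (Y / (X - Y))) := by rw [← Real.exp_nat_mul]
  have h10 : (X - Y) ^ p < X ^ p * Real.exp (-(p * (Y / (X - Y)))) := by
    calc (X - Y) ^ p = C ^ r * (X - Y) := by
          rw [h2, ← pow_succ, Nat.sub_add_cancel hp]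
      _ < (d ^ r * Real.exp (-(p * (Y / (X - Y))))) * (X - Y) :=
          mul_lt_mul_of_pos_right h8 hZ
      _ = (X ^ p - Y ^ p) * Real.exp (-(p * (Y / (X - Y)))) := by rw [← h1]; ring
      _ ≤ X ^ p * Real.exp (-(p * (Y / (X - Y)))) := by
          apply mul_le_mul_of_nonneg_right _ (Real.exp_pos _).le
          linarith [pow_pos hY p]
  have h11 : X ^ p * Real.exp (-(p * (Y / (X - Y)))) ≤ (X - Y) ^ p := by
    rw [Real.exp_neg, ← div_eq_mul_inv, div_le_iff₀ (Real.exp_pos _)]
    exact h9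
  linarith

theorem exp_le_three_pow (n : ℕ) : Real.exp n ≤ 3 ^ n := by
  have h1 : Real.exp (1 : ℝ) ≤ 3 := by
    have := Real.exp_one_lt_d9
    linarith
  calc Real.exp (n : ℝ) = (Real.exp 1) ^ n := by rw [← Real.exp_nat_mul]; simp
    _ ≤ 3 ^ n := pow_le_pow_left₀ (Real.exp_pos _).le h1 n

/-- `(a + b)^a ≤ a^a * 3^b`. -/
theorem add_pow_le (a b : ℕ) (ha : 0 < a) : (a + b) ^ a ≤ a ^ a * 3 ^ b := by
  have ha' : (0 : ℝ) < a := by exact_mod_cast ha
  have h : ((a : ℝ) + b) ^ a ≤ a ^ a * 3 ^ b := by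
    have h1 : (a : ℝ) + b = a * (b / a + 1) := by field_simp; ring
    rw [h1, mul_pow]
    apply mul_le_mul_of_nonneg_left _ (by positivity)
    calc ((b : ℝ) / a + 1) ^ a ≤ (Real.exp (b / a)) ^ a :=
          pow_le_pow_left₀ (by positivity) (Real.add_one_le_exp _) a
      _ = Real.exp b := by rw [← Real.exp_nat_mul]; field_simp
      _ ≤ 3 ^ b := exp_le_three_pow b
  exact_mod_cast h

theorem pow_lemma_base {p : ℕ} (hp : 3 ≤ p) : (p + 3) ^ (p - 1) ≤ p ^ (p + 1) := by
  rcases Nat.lt_or_ge p 5 with h5 | h5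
  · interval_cases p <;> norm_num
  · have hp' : (0 : ℝ) < p := by exact_mod_cast (by omega : 0 < p)
    have h : ((p : ℝ) + 3) ^ (p - 1) ≤ p ^ (p + 1) := by
      have h1 : (p : ℝ) + 3 = p * (3 / p + 1) := by field_simp; ring
      have h2 : (p : ℝ) ^ (p + 1) = p ^ (p - 1) * p ^ 2 := by
        rw [← pow_add]; congr 1; omega
      rw [h1, mul_pow, h2]
      apply mul_le_mul_of_nonneg_left _ (by positivity)
      have h3 : (1 : ℝ) ≤ 3 / p + 1 := by
        have : (0 : ℝ) ≤ 3 / p := by positivity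
        linarith
      have h4 : (25 : ℝ) ≤ p ^ 2 := by
        have : (5 : ℝ) ≤ p := by exact_mod_cast h5
        nlinarith
      calc ((3 : ℝ) / p + 1) ^ (p - 1) ≤ (3 / p + 1) ^ p := pow_le_pow_right₀ h3 (by omega)
        _ ≤ (Real.exp (3 / p)) ^ p :=
          pow_le_pow_left₀ (by positivity) (Real.add_one_le_exp _) p
        _ = Real.exp 3 := by rw [← Real.exp_nat_mul]; field_simp
        _ = (Real.exp 1) ^ 3 := by rw [← Real.exp_nat_mul]; norm_num
        _ ≤ (2.7182818286 : ℝ) ^ 3 :=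
          pow_le_pow_left₀ (Real.exp_pos _).le Real.exp_one_lt_d9.le 3
        _ ≤ 25 := by norm_num
        _ ≤ p ^ 2 := h4
    exact_mod_cast h

theorem pow_lemma {p : ℕ} (hp : 3 ≤ p) {r : ℕ} (hr : p + 2 ≤ r) :
    (r + 1) ^ (p - 1) ≤ p ^ (r - 1) := by
  induction r, hr using Nat.le_induction with
  | base =>
    have := pow_lemma_base hp
    simpa using this
  | succ r hr ih =>
    have h1 : (r + 1 + 1) ^ (p - 1) ≤ (r + 1) ^ (p - 1) * 3 := by
      have hr' : (0 : ℝ) < (r : ℝ) + 1 := by positivity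
      have h : ((r : ℝ) + 1 + 1) ^ (p - 1) ≤ (r + 1) ^ (p - 1) * 3 := by
        have h1 : (r : ℝ) + 1 + 1 = (r + 1) * (1 / (r + 1) + 1) := by field_simp; ring
        rw [h1, mul_pow]
        apply mul_le_mul_of_nonneg_left _ (by positivity)
        have h3 : (1 : ℝ) ≤ 1 / (r + 1) + 1 := by
          have : (0 : ℝ) ≤ 1 / (r + 1) := by positivity
          linarith
        calc ((1 : ℝ) / (r + 1) + 1) ^ (p - 1) ≤ (1 / (r + 1) + 1) ^ (r + 1) :=
              pow_le_pow_right₀ h3 (by omega)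
          _ ≤ (Real.exp (1 / (r + 1))) ^ (r + 1) :=
              pow_le_pow_left₀ (by positivity) (Real.add_one_le_exp _) _
          _ = Real.exp 1 := by
              rw [← Real.exp_nat_mul]
              congr 1
              push_cast
              field_simp
          _ ≤ 3 := by
              have := Real.exp_one_lt_d9
              linarith
      exact_mod_cast h
    calc (r + 1 + 1) ^ (p - 1) ≤ (r + 1) ^ (p - 1) * 3 := h1
      _ ≤ p ^ (r - 1) * p := Nat.mul_le_mul ih hp
      _ = p ^ (r + 1 - 1) := by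
          rw [← pow_succ]; congr 1; omega

theorem F_le {p : ℕ} {X Y : ℤ} (hY : 0 ≤ Y) (hXY : Y ≤ X) : F p X Y ≤ p * X ^ (p - 1) := by
  unfold F
  calc ∑ i ∈ range p, X ^ i * Y ^ (p - 1 - i) ≤ ∑ i ∈ range p, X ^ (p - 1) := by
        apply Finset.sum_le_sum
        intro i hi
        rw [Finset.mem_range] at hi
        calc X ^ i * Y ^ (p - 1 - i) ≤ X ^ i * X ^ (p - 1 - i) := by
              apply mul_le_mul_of_nonneg_left _ (pow_nonneg (hY.trans hXY) _)
              exact pow_le_pow_left₀ hY hXY _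
          _ = X ^ (p - 1) := by rw [← pow_add]; congr 1; omega
    _ = p * X ^ (p - 1) := by simp

theorem case_sum {p r : ℕ} (hp : p.Prime) (hr : r.Prime) (hp2 : p ≠ 2) (hpr : p < r) {x y z : ℤ}
    (hx : 0 < x) (hy : 0 < y) (hxy : IsCoprime x y) (h : x ^ p + y ^ p = z ^ r)
    (hpz : ¬ (p : ℤ) ∣ z) (hgood : ∀ l : ℕ, l.Prime → (l : ℤ) ∣ y → ¬ l ≡ 1 [MOD r]) : False := by
  have hpo := hp.odd_of_ne_two hp2
  have hp3 : 3 ≤ p := by have := hp.two_le; omega
  have hr2 : r ≠ 2 := by omega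
  have hro := hr.odd_of_ne_two hr2
  have huv : IsCoprime x (-y) := hxy.neg_right
  have h' : x ^ p - (-y) ^ p = z ^ r := by rw [hpo.neg_pow]; linarith
  obtain ⟨c, d, hc, hd, hd0⟩ := exists_cd hp hr hp2 hr2 huv h' hpz
  have hpd : ¬ (p : ℤ) ∣ x - -y := by
    intro hd'
    apply hpz
    apply (Nat.prime_iff_prime_int.1 hp).dvd_of_dvd_pow (n := r)
    rw [← h', ← F_mul]
    exact hd'.mul_right _
  have hkey := (key_dvd hp hr hp2 hpr huv (neg_ne_zero.2 hy.ne') hpd hc hd
    (fun l hl hlv => hgood l hl ((dvd_neg).1 hlv))).1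
  rw [sub_neg_eq_add] at hc
  have hc0 : 0 < c := by
    rw [← hro.pow_pos_iff, ← hc]; positivity
  have hc2 : 2 ≤ c := by
    by_contra hlt
    have : c = 1 := by omega
    rw [this, one_pow] at hc
    omega
  set C := c ^ (p - 1) with hC
  have hC0 : 0 < C := by positivity
  have hF : (x + y) * F p x (-y) = x ^ p + y ^ p := by
    have := F_mul p x (-y)
    rw [hpo.neg_pow] at this
    linarith
  have hCr : C ^ r = (x + y) ^ (p - 1) := by
    rw [hC, hc, ← pow_mul, ← pow_mul, mul_comm]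
  -- d < C
  have hdC : d < C := by
    by_contra hle
    push Not at hle
    have h1 : C ^ r ≤ d ^ r := pow_le_pow_left₀ hC0.le hle r
    rw [hCr, ← hd] at h1
    have h2 : (x + y) ^ p ≤ x ^ p + y ^ p := by
      calc (x + y) ^ p = (x + y) * (x + y) ^ (p - 1) := by
            rw [← pow_succ', Nat.sub_add_cancel hp.one_le]
        _ ≤ (x + y) * F p x (-y) := mul_le_mul_of_nonneg_left h1 (by positivity)
        _ = _ := hF
    have h3 : x ^ p + y ^ p < (x + y) ^ p := by
      have e1 : x ^ p = x * x ^ (p - 1) := by rw [← pow_succ', Nat.sub_add_cancel hp.one_le]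
      have e2 : y ^ p = y * y ^ (p - 1) := by rw [← pow_succ', Nat.sub_add_cancel hp.one_le]
      have e3 : (x + y) ^ p = x * (x + y) ^ (p - 1) + y * (x + y) ^ (p - 1) := by
        rw [← add_mul, ← pow_succ', Nat.sub_add_cancel hp.one_le]
      have e4 : x ^ (p - 1) < (x + y) ^ (p - 1) :=
        pow_lt_pow_left₀ (by linarith) hx.le (by omega)
      have e5 : y ^ (p - 1) < (x + y) ^ (p - 1) :=
        pow_lt_pow_left₀ (by linarith) hy.le (by omega)
      rw [e1, e2, e3]
      nlinarith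
    linarith
  -- size estimate
  have hsize : r * (C - d) * max x y ≤ p * min x y * C := by
    have h1 := sum_ineq (p := p) (r := r) hp.pos hr.pos (A := ((max x y : ℤ) : ℝ))
      (B := ((min x y : ℤ) : ℝ)) (C := (C : ℝ)) (d := (d : ℝ))
      (by exact_mod_cast lt_max_of_lt_left hx) (by exact_mod_cast lt_min hx hy)
      (by exact_mod_cast hC0) (by exact_mod_cast hd0)
    have e1 : max x y + min x y = x + y := max_add_min x y
    have e2 : (max x y) ^ p + (min x y) ^ p = x ^ p + y ^ p := by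
      rcases le_total x y with hle | hle
      · rw [max_eq_right hle, min_eq_left hle, add_comm]
      · rw [max_eq_left hle, min_eq_right hle]
    have h2 := h1 (by
      have : d ^ r * (max x y + min x y) = (max x y) ^ p + (min x y) ^ p := by
        rw [e1, e2, ← hd, ← hF]; ring
      exact_mod_cast this) (by
      have : C ^ r = (max x y + min x y) ^ (p - 1) := by rw [e1, hCr]
      exact_mod_cast this)
    exact_mod_cast h2
  have hA0 : 0 < max x y := lt_max_of_lt_left hx
  have hdvd : (p : ℤ) * y ≤ r * (C - d) := by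
    apply Int.le_of_dvd
    · apply mul_pos
      · exact_mod_cast hr.pos
      · linarith
    · have : (p : ℤ) * y = -(p * -y) := by ring
      rw [this, neg_dvd]
      have h3 : (r : ℤ) * (C - d) = -(r * (d - C)) := by ring
      rw [h3, dvd_neg]
      exact hkey
  have hp0 : (0 : ℤ) < p := by exact_mod_cast hp.pos
  have h1 : y * max x y ≤ min x y * C := by
    have : (p : ℤ) * (y * max x y) ≤ p * (min x y * C) := by
      calc (p : ℤ) * (y * max x y) = (p * y) * max x y := by ring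
        _ ≤ (r * (C - d)) * max x y := mul_le_mul_of_nonneg_right hdvd hA0.le
        _ ≤ p * min x y * C := hsize
        _ = p * (min x y * C) := by ring
    exact le_of_mul_le_mul_left this hp0
  have h2 : max x y ≤ C := by
    have : y * max x y ≤ y * C := by
      calc y * max x y ≤ min x y * C := h1
        _ ≤ y * C := mul_le_mul_of_nonneg_right (min_le_right _ _) hC0.le
    exact le_of_mul_le_mul_left this hy
  have h3 : c ^ r ≤ 2 * C := by
    rw [← hc]
    have := le_max_left x y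
    have := le_max_right x y
    linarith
  have h4 : 4 * C ≤ c ^ r := by
    calc 4 * C ≤ c ^ 2 * c ^ (p - 1) := by
          apply mul_le_mul_of_nonneg_right _ hC0.le
          nlinarith
      _ = c ^ (p + 1) := by rw [← pow_add]; congr 1; omega
      _ ≤ c ^ r := pow_le_pow_right₀ (by linarith) hpr
  linarith

/-- Common facts for the difference case `X^p - Y^p = z^r`. -/
theorem diff_common {p r : ℕ} (hp : p.Prime) (hr : r.Prime) (hp2 : p ≠ 2) (hpr : p < r)
    {X Y c d : ℤ} (hY : 0 < Y) (hXY : Y < X) (hc : X - Y = c ^ r) (hd : F p X Y = d ^ r)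
    (hd0 : 0 < d) :
    1 ≤ c ∧ c ^ (p - 1) < d ∧ r * (d - c ^ (p - 1)) * (X - Y) ≤ p * Y * d ∧
      d ^ r ≤ p * X ^ (p - 1) := by
  have hpo := hp.odd_of_ne_two hp2
  have hp3 : 3 ≤ p := by have := hp.two_le; omega
  have hr2 : r ≠ 2 := by omega
  have hro := hr.odd_of_ne_two hr2
  have hX : 0 < X := by linarith
  have hc0 : 0 < c := by
    rw [← hro.pow_pos_iff, ← hc]; linarith
  have hC0 : 0 < c ^ (p - 1) := by positivity
  have hF : (X - Y) * F p X Y = X ^ p - Y ^ p := F_mul p X Y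
  have hCr : (c ^ (p - 1)) ^ r = (X - Y) ^ (p - 1) := by
    rw [hc, ← pow_mul, ← pow_mul, mul_comm]
  refine ⟨hc0, ?_, ?_, ?_⟩
  · by_contra hle
    push Not at hle
    have h1 : d ^ r ≤ (c ^ (p - 1)) ^ r := pow_le_pow_left₀ hd0.le hle r
    rw [hCr, ← hd] at h1
    have h2 : X ^ p - Y ^ p ≤ (X - Y) ^ p := by
      calc X ^ p - Y ^ p = (X - Y) * F p X Y := hF.symm
        _ ≤ (X - Y) * (X - Y) ^ (p - 1) := mul_le_mul_of_nonneg_left h1 (by linarith)
        _ = (X - Y) ^ p := by rw [← pow_succ', Nat.sub_add_cancel hp.one_le]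
    -- but X^p = ((X-Y)+Y)^p > (X-Y)^p + Y^p
    have hZ : 0 < X - Y := by linarith
    have e1 : X ^ p = (X - Y) * X ^ (p - 1) + Y * X ^ (p - 1) := by
      rw [← add_mul, sub_add_cancel, ← pow_succ', Nat.sub_add_cancel hp.one_le]
    have e2 : (X - Y) ^ p = (X - Y) * (X - Y) ^ (p - 1) := by
      rw [← pow_succ', Nat.sub_add_cancel hp.one_le]
    have e3 : Y ^ p = Y * Y ^ (p - 1) := by rw [← pow_succ', Nat.sub_add_cancel hp.one_le]
    have e4 : (X - Y) ^ (p - 1) < X ^ (p - 1) :=
      pow_lt_pow_left₀ (by linarith) hZ.le (by omega)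
    have e5 : Y ^ (p - 1) < X ^ (p - 1) := pow_lt_pow_left₀ hXY hY.le (by omega)
    nlinarith
  · have h1 := diff_ineq (p := p) (r := r) hp.pos hr.pos (X := (X : ℝ)) (Y := (Y : ℝ))
      (C := ((c ^ (p - 1) : ℤ) : ℝ)) (d := (d : ℝ)) (by exact_mod_cast hY)
      (by exact_mod_cast hXY) (by exact_mod_cast hC0) (by exact_mod_cast hd0)
      (by
        have : d ^ r * (X - Y) = X ^ p - Y ^ p := by rw [← hd, ← hF]; ring
        exact_mod_cast this)
      (by exact_mod_cast hCr)
    exact_mod_cast h1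
  · rw [← hd]
    exact F_le hY.le hXY.le

theorem case_diff_big {p r : ℕ} (hp : p.Prime) (hr : r.Prime) (hp2 : p ≠ 2) (hpr : p < r)
    {X Y z : ℤ} (hY : 0 < Y) (hXY : Y < X) (hco : IsCoprime X Y) (h : X ^ p - Y ^ p = z ^ r)
    (hpz : ¬ (p : ℤ) ∣ z) (hgood : ∀ l : ℕ, l.Prime → (l : ℤ) ∣ X → ¬ l ≡ 1 [MOD r]) : False := by
  have hpo := hp.odd_of_ne_two hp2
  have hp3 : 3 ≤ p := by have := hp.two_le; omega
  have hr2 : r ≠ 2 := by omega
  have hro := hr.odd_of_ne_two hr2
  have hX : 0 < X := by linarith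
  have h' : Y ^ p - X ^ p = (-z) ^ r := by rw [hro.neg_pow]; linarith
  have hpz' : ¬ (p : ℤ) ∣ -z := by rwa [dvd_neg]
  obtain ⟨c, d, hc, hd, hd0⟩ := exists_cd hp hr hp2 hr2 hco.symm h' hpz'
  have hpd : ¬ (p : ℤ) ∣ Y - X := by
    intro hd'
    apply hpz'
    apply (Nat.prime_iff_prime_int.1 hp).dvd_of_dvd_pow (n := r)
    rw [← h', ← F_mul]
    exact hd'.mul_right _
  obtain ⟨k1, k2⟩ := key_dvd hp hr hp2 hpr hco.symm hX.ne' hpd hc hd hgood
  have hc' : X - Y = (-c) ^ r := by rw [hro.neg_pow, ← hc]; ring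
  have hd' : F p X Y = d ^ r := by rw [F_comm, hd]
  have hcp : (-c) ^ (p - 1) = c ^ (p - 1) := by
    apply Even.neg_pow
    exact Nat.Odd.sub_odd hpo odd_one
  obtain ⟨f1, f2, -, f4⟩ := diff_common hp hr hp2 hpr hY hXY hc' hd' hd0
  rw [hcp] at f2
  have hC0 : 0 < c ^ (p - 1) := by
    rw [← hcp]; positivity
  have hr0 : (0 : ℤ) < r := by exact_mod_cast hr.pos
  have hp0 : (0 : ℤ) < p := by exact_mod_cast hp.pos
  have hprZ : (p : ℤ) < r := by exact_mod_cast hpr
  by_cases hrX : (r : ℤ) ∣ X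
  · have h1 : (p : ℤ) * X ≤ r * (d - c ^ (p - 1)) :=
      Int.le_of_dvd (mul_pos hr0 (by linarith)) k1
    have h2 : (p : ℤ) * X < r * d := by nlinarith
    have h3 : ((p : ℤ) * X) ^ r < r ^ r * (p * X ^ (p - 1)) := by
      calc ((p : ℤ) * X) ^ r < (r * d) ^ r := pow_lt_pow_left₀ h2 (by positivity) hr.ne_zero
        _ = r ^ r * d ^ r := mul_pow _ _ _
        _ ≤ r ^ r * (p * X ^ (p - 1)) := mul_le_mul_of_nonneg_left f4 (by positivity)
    have hrX' : (r : ℤ) ≤ X := Int.le_of_dvd hX hrX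
    -- p^(r-1) X^(r-p+1) < r^r
    have e1 : ((p : ℤ) * X) ^ r = (p ^ (r - 1) * X ^ (r - p + 1)) * (p * X ^ (p - 1)) := by
      have a1 : (p : ℤ) ^ r = p ^ (r - 1) * p := by rw [← pow_succ]; congr 1; omega
      have a2 : X ^ r = X ^ (r - p + 1) * X ^ (p - 1) := by rw [← pow_add]; congr 1; omega
      rw [mul_pow, a1, a2]; ring
    have h4 : (p : ℤ) ^ (r - 1) * X ^ (r - p + 1) < r ^ r := by
      rw [e1] at h3
      have hpos : 0 < (p : ℤ) * X ^ (p - 1) := by positivity
      exact lt_of_mul_lt_mul_right h3 hpos.le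
    have h5 : (r : ℤ) ^ (p - 1) ≤ p ^ (r - 1) := by
      have : r ^ (p - 1) ≤ p ^ (r - 1) := by
        have h6 : p + 2 ≤ r := by
          rcases Nat.lt_or_ge r (p + 2) with h7 | h7
          · exfalso
            have h8 : r = p + 1 := by omega
            rw [h8] at hro
            exact (Nat.not_odd_iff_even.2 (hpo.add_odd odd_one)) hro
          · exact h7
        exact le_trans (Nat.pow_le_pow_left (Nat.le_succ r) _) (pow_lemma hp3 h6)
      exact_mod_cast this
    have h6 : (r : ℤ) ^ r ≤ p ^ (r - 1) * X ^ (r - p + 1) := by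
      calc (r : ℤ) ^ r = r ^ (p - 1) * r ^ (r - p + 1) := by rw [← pow_add]; congr 1; omega
        _ ≤ p ^ (r - 1) * X ^ (r - p + 1) := by
          apply mul_le_mul h5 (pow_le_pow_left₀ hr0.le hrX' _) (by positivity) (by positivity)
    linarith
  · have h1 : (p : ℤ) * X ≤ d - c ^ (p - 1) := Int.le_of_dvd (by linarith) (k2 hrX)
    have h2 : (p : ℤ) * X < d := by linarith
    have h3 : ((p : ℤ) * X) ^ r < p * X ^ (p - 1) :=
      lt_of_lt_of_le (pow_lt_pow_left₀ h2 (by positivity) hr.ne_zero) f4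
    have h4 : (p : ℤ) * X ^ (p - 1) ≤ (p * X) ^ r := by
      rw [mul_pow]
      apply mul_le_mul
      · exact le_self_pow₀ (by linarith) hr.ne_zero
      · exact pow_le_pow_right₀ (by linarith) (by omega)
      · positivity
      · positivity
    linarith

theorem case_diff_small {p r : ℕ} (hp : p.Prime) (hr : r.Prime) (hp2 : p ≠ 2) (hpr : p < r)
    {X Y z : ℤ} (hY : 0 < Y) (hXY : Y < X) (hco : IsCoprime X Y) (h : X ^ p - Y ^ p = z ^ r)
    (hpz : ¬ (p : ℤ) ∣ z) (hgood : ∀ l : ℕ, l.Prime → (l : ℤ) ∣ Y → ¬ l ≡ 1 [MOD r]) : False := by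
  have hpo := hp.odd_of_ne_two hp2
  have hp3 : 3 ≤ p := by have := hp.two_le; omega
  have hr2 : r ≠ 2 := by omega
  have hro := hr.odd_of_ne_two hr2
  have hpr2 : p + 2 ≤ r := by
    rcases Nat.lt_or_ge r (p + 2) with h7 | h7
    · exfalso
      have h8 : r = p + 1 := by omega
      rw [h8] at hro
      exact (Nat.not_odd_iff_even.2 (hpo.add_odd odd_one)) hro
    · exact h7
  have hX : 0 < X := by linarith
  obtain ⟨c, d, hc, hd, hd0⟩ := exists_cd hp hr hp2 hr2 hco h hpz
  have hpd : ¬ (p : ℤ) ∣ X - Y := by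
    intro hd'
    apply hpz
    apply (Nat.prime_iff_prime_int.1 hp).dvd_of_dvd_pow (n := r)
    rw [← h, ← F_mul]
    exact hd'.mul_right _
  obtain ⟨k1, k2⟩ := key_dvd hp hr hp2 hpr hco hY.ne' hpd hc hd hgood
  obtain ⟨f1, f2, f3, f4⟩ := diff_common hp hr hp2 hpr hY hXY hc hd hd0
  have hC0 : 0 < c ^ (p - 1) := by positivity
  have hr0 : (0 : ℤ) < r := by exact_mod_cast hr.pos
  have hp0 : (0 : ℤ) < p := by exact_mod_cast hp.pos
  have hprZ : (p : ℤ) < r := by exact_mod_cast hpr
  have hp3Z : (3 : ℤ) ≤ p := by exact_mod_cast hp3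
  have hZ : 0 < X - Y := by linarith
  by_cases hrY : (r : ℤ) ∣ Y
  · have h1 : (p : ℤ) * Y ≤ r * (d - c ^ (p - 1)) :=
      Int.le_of_dvd (mul_pos hr0 (by linarith)) k1
    have h2 : X - Y ≤ d := by
      have : (p * Y) * (X - Y) ≤ (p * Y) * d := by
        calc ((p : ℤ) * Y) * (X - Y) ≤ (r * (d - c ^ (p - 1))) * (X - Y) :=
              mul_le_mul_of_nonneg_right h1 hZ.le
          _ ≤ p * Y * d := f3
      exact le_of_mul_le_mul_left this (by positivity)
    rcases eq_or_lt_of_le f1 with hc1 | hc1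
    · -- c = 1
      rw [← hc1, one_pow] at hc h1
      obtain ⟨m, hm⟩ := hrY
      have hm0 : 0 < m := by
        rw [hm] at hY
        exact pos_of_mul_pos_right hY hr0.le
      have h3 : (p : ℤ) * m ≤ d - 1 := by
        have : (r : ℤ) * (p * m) ≤ r * (d - 1) := by
          calc (r : ℤ) * (p * m) = p * Y := by rw [hm]; ring
            _ ≤ r * (d - 1) := h1
        exact le_of_mul_le_mul_left this hr0
      have h4 : ((p : ℤ) * m) ^ r < p * ((r + 1) * m) ^ (p - 1) := by
        calc ((p : ℤ) * m) ^ r < d ^ r :=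
              pow_lt_pow_left₀ (by linarith) (by positivity) hr.ne_zero
          _ ≤ p * X ^ (p - 1) := f4
          _ ≤ p * ((r + 1) * m) ^ (p - 1) := by
            apply mul_le_mul_of_nonneg_left _ hp0.le
            apply pow_le_pow_left₀ hX.le
            have : X = r * m + 1 := by rw [← hm]; linarith
            rw [this]
            nlinarith
      have h5 : ((r : ℤ) + 1) ^ (p - 1) ≤ p ^ (r - 1) := by
        exact_mod_cast pow_lemma hp3 hpr2
      have h6 : (p : ℤ) ^ r * m ^ r < p ^ r * m ^ (p - 1) := by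
        calc (p : ℤ) ^ r * m ^ r = (p * m) ^ r := (mul_pow _ _ _).symm
          _ < p * ((r + 1) * m) ^ (p - 1) := h4
          _ = (p * (r + 1) ^ (p - 1)) * m ^ (p - 1) := by rw [mul_pow]; ring
          _ ≤ (p * p ^ (r - 1)) * m ^ (p - 1) := by
            apply mul_le_mul_of_nonneg_right _ (by positivity)
            exact mul_le_mul_of_nonneg_left h5 hp0.le
          _ = p ^ r * m ^ (p - 1) := by
            rw [← pow_succ', Nat.sub_add_cancel hr.one_le]
      have h7 : m ^ r < m ^ (p - 1) := lt_of_mul_lt_mul_left h6 (by positivity)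
      have h8 : m ^ (p - 1) ≤ m ^ r := pow_le_pow_right₀ hm0 (by omega)
      linarith
    · -- c ≥ 2
      have hd2 : (2 : ℤ) ^ r ≤ d := by
        calc (2 : ℤ) ^ r ≤ c ^ r := pow_le_pow_left₀ (by norm_num) hc1 r
          _ = X - Y := hc.symm
          _ ≤ d := h2
      have h3 : (p : ℤ) * X ≤ (p + r) * d := by
        have : (p : ℤ) * X = p * Y + p * (X - Y) := by ring
        nlinarith
      have h4 : ((p : ℤ) ^ (p - 1)) * d ^ r ≤ p * ((p + r) ^ (p - 1) * d ^ (p - 1)) := by
        calc ((p : ℤ) ^ (p - 1)) * d ^ r ≤ p ^ (p - 1) * (p * X ^ (p - 1)) :=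
              mul_le_mul_of_nonneg_left f4 (by positivity)
          _ = p * (p * X) ^ (p - 1) := by rw [mul_pow]; ring
          _ ≤ p * ((p + r) * d) ^ (p - 1) := by
            apply mul_le_mul_of_nonneg_left _ hp0.le
            exact pow_le_pow_left₀ (by positivity) h3 _
          _ = p * ((p + r) ^ (p - 1) * d ^ (p - 1)) := by rw [mul_pow]
      have h5 : ((p : ℤ) ^ (p - 1)) * d ^ (r - p + 1) ≤ p * (p + r) ^ (p - 1) := by
        have e : d ^ r = d ^ (r - p + 1) * d ^ (p - 1) := by rw [← pow_add]; congr 1; omega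
        rw [e] at h4
        have hpos : 0 < d ^ (p - 1) := by positivity
        have : (p ^ (p - 1) * d ^ (r - p + 1)) * d ^ (p - 1) ≤
            (p * (p + r) ^ (p - 1)) * d ^ (p - 1) := by linarith
        exact le_of_mul_le_mul_right this hpos
      have h6 : (8 : ℤ) ^ r ≤ d ^ (r - p + 1) := by
        calc (8 : ℤ) ^ r = (2 ^ r) ^ 3 := by
              rw [← pow_mul, mul_comm r 3, pow_mul]; norm_num
          _ ≤ d ^ 3 := pow_le_pow_left₀ (by positivity) hd2 3
          _ ≤ d ^ (r - p + 1) := pow_le_pow_right₀ (by linarith) (by omega)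
      have h7 : ((p : ℤ) + r) ^ p ≤ p ^ p * 3 ^ r := by
        exact_mod_cast add_pow_le p r hp.pos
      have h8 : ((p : ℤ) ^ (p - 1) * 8 ^ r) * (p + r) ≤ p * (p ^ p * 3 ^ r) := by
        calc ((p : ℤ) ^ (p - 1) * 8 ^ r) * (p + r) ≤ (p * (p + r) ^ (p - 1)) * (p + r) := by
              apply mul_le_mul_of_nonneg_right _ (by positivity)
              exact le_trans (mul_le_mul_of_nonneg_left h6 (by positivity)) h5
          _ = p * (p + r) ^ p := by
              rw [mul_assoc, ← pow_succ, Nat.sub_add_cancel hp.one_le]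
          _ ≤ p * (p ^ p * 3 ^ r) := mul_le_mul_of_nonneg_left h7 hp0.le
      have h9 : (8 : ℤ) ^ r * (p + r) ≤ p * p * 3 ^ r := by
        have e : (p : ℤ) ^ p = p ^ (p - 1) * p := by
          rw [← pow_succ, Nat.sub_add_cancel hp.one_le]
        rw [e] at h8
        have hpos : 0 < (p : ℤ) ^ (p - 1) := by positivity
        have : (p : ℤ) ^ (p - 1) * (8 ^ r * (p + r)) ≤ p ^ (p - 1) * (p * p * 3 ^ r) := by
          linarith
        exact le_of_mul_le_mul_left this hpos
      have h10 : (r : ℤ) < 2 ^ r := by exact_mod_cast Nat.lt_two_pow_self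
      have h11 : (2 : ℤ) ^ r * 3 ^ r ≤ 8 ^ r := by
        rw [← mul_pow]; exact pow_le_pow_left₀ (by norm_num) (by norm_num) r
      have h12 : (0 : ℤ) < 3 ^ r := by positivity
      have h13 : (p : ℤ) * p * 3 ^ r < 8 ^ r * (p + r) := by
        calc (p : ℤ) * p * 3 ^ r = (p * 3 ^ r) * p := by ring
          _ < (2 ^ r * 3 ^ r) * p := by
            apply mul_lt_mul_of_pos_right _ hp0
            apply mul_lt_mul_of_pos_right _ h12
            linarith
          _ ≤ 8 ^ r * p := mul_le_mul_of_nonneg_right h11 hp0.le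
          _ ≤ 8 ^ r * (p + r) := by
            apply mul_le_mul_of_nonneg_left _ (by positivity)
            linarith
      linarith
  · -- r ∤ Y
    have h1 : (p : ℤ) * Y ≤ d - c ^ (p - 1) := Int.le_of_dvd (by linarith) (k2 hrY)
    have h2 : r * (X - Y) ≤ d := by
      have : (p * Y) * (r * (X - Y)) ≤ (p * Y) * d := by
        calc ((p : ℤ) * Y) * (r * (X - Y)) ≤ (d - c ^ (p - 1)) * (r * (X - Y)) :=
              mul_le_mul_of_nonneg_right h1 (by positivity)
          _ = r * (d - c ^ (p - 1)) * (X - Y) := by ring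
          _ ≤ p * Y * d := f3
      exact le_of_mul_le_mul_left this (by positivity)
    have h3 : (p : ℤ) * Y < d := by linarith
    have hXd : X ≤ d := by
      have : (p : ℤ) * X ≤ p * d := by
        calc (p : ℤ) * X = p * Y + p * (X - Y) := by ring
          _ ≤ p * Y + r * (X - Y) := by nlinarith
          _ ≤ d + d := by linarith
          _ ≤ p * d := by nlinarith
      exact le_of_mul_le_mul_left this hp0
    have hpd' : (p : ℤ) < d := by nlinarith
    have h4 : d ^ r < d ^ p := by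
      calc d ^ r ≤ p * X ^ (p - 1) := f4
        _ ≤ p * d ^ (p - 1) := by
          apply mul_le_mul_of_nonneg_left _ hp0.le
          exact pow_le_pow_left₀ hX.le hXd _
        _ < d * d ^ (p - 1) := mul_lt_mul_of_pos_right hpd' (by positivity)
        _ = d ^ p := by rw [← pow_succ', Nat.sub_add_cancel hp.one_le]
    have h5 : d ^ p ≤ d ^ r := pow_le_pow_right₀ hd0 hpr.le
    linarith

/-- **First case.** Let `p < r` be odd primes, `u, v` coprime nonzero integers with
`u^p - v^p = w^r`, and suppose `v` has no prime factor `≡ 1 mod r`. Then `p ∣ w`. -/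
theorem first_case {p r : ℕ} (hp : p.Prime) (hr : r.Prime) (hp2 : p ≠ 2) (hpr : p < r)
    {u v w : ℤ} (huv : IsCoprime u v) (hu : u ≠ 0) (hv : v ≠ 0) (h : u ^ p - v ^ p = w ^ r)
    (hgood : ∀ l : ℕ, l.Prime → (l : ℤ) ∣ v → ¬ l ≡ 1 [MOD r]) : (p : ℤ) ∣ w := by
  by_contra hpw
  have hpo := hp.odd_of_ne_two hp2
  have hr2 : r ≠ 2 := by have := hp.two_le; omega
  have hro := hr.odd_of_ne_two hr2
  have huv' : u ≠ v := by
    rintro rfl
    rw [sub_self] at h
    have := (pow_eq_zero_iff hr.ne_zero).1 h.symm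
    rw [this] at hpw
    exact hpw (dvd_zero _)
  have hgood' : ∀ l : ℕ, l.Prime → (l : ℤ) ∣ -v → ¬ l ≡ 1 [MOD r] :=
    fun l hl hlv => hgood l hl ((dvd_neg).1 hlv)
  have hpw' : ¬ (p : ℤ) ∣ -w := by rwa [dvd_neg]
  rcases lt_or_gt_of_ne hv with hv0 | hv0
  · rcases lt_or_gt_of_ne hu with hu0 | hu0
    · -- both negative
      rcases lt_or_gt_of_ne huv' with hlt | hlt
      · -- u < v < 0 : (-u)^p - (-v)^p = (-w)^r
        refine case_diff_small hp hr hp2 hpr (X := -u) (Y := -v) (z := -w) (by linarith)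
          (by linarith) huv.neg_neg ?_ hpw' hgood'
        rw [hpo.neg_pow, hpo.neg_pow, hro.neg_pow]; linarith
      · refine case_diff_big hp hr hp2 hpr (X := -v) (Y := -u) (z := w) (by linarith)
          (by linarith) huv.symm.neg_neg ?_ hpw hgood'
        rw [hpo.neg_pow, hpo.neg_pow]; linarith
    · -- v < 0 < u
      refine case_sum hp hr hp2 hpr (x := u) (y := -v) (z := w) hu0 (by linarith)
        huv.neg_right ?_ hpw hgood'
      rw [hpo.neg_pow]; linarith
  · rcases lt_or_gt_of_ne hu with hu0 | hu0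
    · -- u < 0 < v
      refine case_sum hp hr hp2 hpr (x := -u) (y := v) (z := -w) (by linarith) hv0
        huv.neg_left ?_ hpw' hgood
      rw [hpo.neg_pow, hro.neg_pow]; linarith
    · rcases lt_or_gt_of_ne huv' with hlt | hlt
      · refine case_diff_big hp hr hp2 hpr (X := v) (Y := u) (z := -w) hu0 hlt
          huv.symm ?_ hpw' hgood
        rw [hro.neg_pow]; linarith
      · exact case_diff_small hp hr hp2 hpr hv0 hlt huv h hpw hgood

end Pool.Agent.Lib.MP_509488_nt
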