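import Pool.Agent.Lib.MP_509488_nt.RungePoly

set_option autoImplicit false

/-!
Coefficients of the Padé approximants of the binomial series.
-/

namespace Pool.Agent.Lib.MP_509488_nt.Pade

open Finset Nat

section

variable {K : Type*} [Field K] [CharZero K]

theorem choose_neg_pow (x : K) (n : ℕ) :
    Ring.choose (-x) n = (-1) ^ n * Ring.choose (x + n - 1) n := by
  rw [Ring.choose_neg]
  rcases Nat.even_or_odd n with h | h
  · rw [Int.negOnePow_even _ (by exact_mod_cast h), one_smul, h.neg_one_pow, one_mul]
  · rw [Int.negOnePow_odd _ (by exact_mod_cast h), h.neg_one_pow]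
    simp [Units.smul_def]

theorem choose_sub_eq (x : K) {n k : ℕ} (h : k ≤ n) :
    ∑ ij ∈ antidiagonal k, (-1) ^ ij.1 * Ring.choose x ij.1 * ((n - ij.1).choose ij.2 : K) =
      Ring.choose ((n : K) - x) k := by
  have h1 : Ring.choose ((n : K) - x) k = (-1) ^ k * Ring.choose (x + ((k : K) - n - 1)) k := by
    have h2 := choose_neg_pow (x - n) k
    rw [show -(x - (n : K)) = n - x by ring] at h2
    rw [h2]
    congr 2
    ring
  rw [h1, Ring.add_choose_eq k (Commute.all _ _), mul_sum]
  apply sum_congr rfl
  rintro ⟨i, j⟩ hij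
  have hij' : i + j = k := by simpa using hij
  have h3 : Ring.choose ((k : K) - n - 1) j = (-1) ^ j * ((n - i).choose j : K) := by
    have h4 := choose_neg_pow ((n : K) + 1 - k) j
    rw [show -((n : K) + 1 - k) = k - n - 1 by ring] at h4
    rw [h4, ← Ring.choose_natCast]
    congr 2
    rw [Nat.cast_sub (by omega), ← hij']
    push_cast
    ring
  simp only
  rw [h3, ← hij', pow_add]
  have h5 : ((-1 : K) ^ j) * (-1) ^ j = 1 := by
    rw [← mul_pow]; simp
  linear_combination (-(-1) ^ i * Ring.choose x i * ((n - i).choose j : K)) * h5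

theorem choose_nat_sub_eq {n k j : ℕ} (h : k ≤ n) (hj : j ≤ n) :
    ((n - j).choose k : K) = ∑ ij ∈ antidiagonal k, (-1) ^ ij.1 * (j.choose ij.1 : K) *
      ((n - ij.1).choose ij.2 : K) := by
  have h1 := choose_sub_eq (j : K) h
  rw [← Nat.cast_sub hj, Ring.choose_natCast] at h1
  rw [← h1]
  apply sum_congr rfl
  rintro ⟨i, l⟩ _
  simp only
  rw [Ring.choose_natCast]

/-- the Padé identity -/
theorem pade (x y : K) {a b k : ℕ} (hk : k ≤ a + b) (hxy : x + y = a) :
    ∑ jl ∈ antidiagonal k, Ring.choose x jl.1 * ((a + b - jl.1).choose a : K) * Ring.choose y jl.2 =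
      if k ≤ a then Ring.choose (y + b) k * ((a + b - k).choose b : K) else 0 := by
  -- expand the middle factor
  have h1 : ∑ jl ∈ antidiagonal k, Ring.choose x jl.1 * ((a + b - jl.1).choose a : K) *
      Ring.choose y jl.2 = ∑ ij ∈ antidiagonal a, (-1) ^ ij.1 * ((a + b - ij.1).choose ij.2 : K) *
        ∑ jl ∈ antidiagonal k, Ring.choose x jl.1 * (jl.1.choose ij.1 : K) * Ring.choose y jl.2 := by
    simp only [mul_sum]
    rw [sum_comm]
    apply sum_congr rfl
    rintro ⟨j, l⟩ hjl
    have hjl' : j + l = k := by simpa using hjl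
    simp only
    rw [choose_nat_sub_eq (K := K) (Nat.le_add_right a b) (by omega : j ≤ a + b), mul_sum, sum_mul]
    apply sum_congr rfl
    rintro ⟨i, i'⟩ _
    simp only
    ring
  -- inner sum
  have h2 : ∀ i i' : ℕ, i + i' = a → ∑ jl ∈ antidiagonal k,
      Ring.choose x jl.1 * (jl.1.choose i : K) * Ring.choose y jl.2 =
        if i ≤ k then Ring.choose x i * ((i'.choose (k - i) : ℕ) : K) else 0 := by
    intro i i' hi
    split_ifs with hik
    · -- reindex
      obtain ⟨k', rfl⟩ := Nat.exists_eq_add_of_le hik
      have h3 : Ring.choose x i * ((i'.choose (i + k' - i) : ℕ) : K) =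
          ∑ jl ∈ antidiagonal k', Ring.choose x i * (Ring.choose (x - i) jl.1 * Ring.choose y jl.2) := by
        rw [← mul_sum, ← Ring.add_choose_eq k' (Commute.all _ _),
          show x - i + y = ((i' : ℕ) : K) by
            have : (a : K) = i + i' := by exact_mod_cast hi.symm
            linear_combination hxy + this, Ring.choose_natCast, Nat.add_sub_cancel_left]
      rw [h3, Finset.Nat.sum_antidiagonal_eq_sum_range_succ_mk,
        Finset.Nat.sum_antidiagonal_eq_sum_range_succ_mk, Nat.succ_eq_add_one, Nat.succ_eq_add_one,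
        add_assoc, sum_range_add, sum_eq_zero (s := range i), zero_add]
      · apply sum_congr rfl
        intro j _
        simp only
        have h4 := Ring.choose_smul_choose x (Nat.le_add_right i j)
        rw [Nat.add_sub_cancel_left, nsmul_eq_mul] at h4
        rw [show i + k' - (i + j) = k' - j by omega]
        linear_combination (Ring.choose y (k' - j)) * h4
      · intro j hj
        simp only
        rw [Nat.choose_eq_zero_of_lt (mem_range.1 hj)]
        simp
    · apply sum_eq_zero
      rintro ⟨j, l⟩ hjl
      have hjl' : j + l = k := by simpa using hjl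
      simp only
      rw [Nat.choose_eq_zero_of_lt (by omega)]
      simp
  rw [h1]
  have h3 : ∑ ij ∈ antidiagonal a, (-1) ^ ij.1 * ((a + b - ij.1).choose ij.2 : K) *
        ∑ jl ∈ antidiagonal k, Ring.choose x jl.1 * (jl.1.choose ij.1 : K) * Ring.choose y jl.2 =
      ∑ ij ∈ antidiagonal a, (-1) ^ ij.1 * ((a + b - ij.1).choose ij.2 : K) *
        (if ij.1 ≤ k then Ring.choose x ij.1 * ((ij.2.choose (k - ij.1) : ℕ) : K) else 0) := by
    apply sum_congr rfl
    rintro ⟨i, i'⟩ hi
    simp only
    rw [h2 i i' (by simpa using hi)]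
  rw [h3]
  split_ifs with hka
  · -- `k ≤ a`
    have h4 : Ring.choose (y + b) k = Ring.choose (((a + b : ℕ) : K) - x) k := by
      congr 1
      push_cast
      linear_combination hxy
    rw [h4, ← choose_sub_eq x hk, sum_mul]
    rw [Finset.Nat.sum_antidiagonal_eq_sum_range_succ_mk, Finset.Nat.sum_antidiagonal_eq_sum_range_succ_mk]
    rw [← Finset.sum_subset (range_subset_range.2 (Nat.succ_le_succ hka))]
    · apply sum_congr rfl
      intro i hi
      have hi' : i ≤ k := Nat.lt_succ_iff.1 (mem_range.1 hi)
      simp only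
      rw [if_pos hi']
      have h5 : (a + b - i).choose (a - i) * (a - i).choose (k - i) =
          (a + b - i).choose (k - i) * (a + b - k).choose b := by
        rw [Nat.choose_mul (by omega : k - i ≤ a - i)]
        congr 1
        rw [show a + b - i - (k - i) = a + b - k by omega, show a - i - (k - i) = a - k by omega]
        apply Nat.choose_symm_of_eq_add
        omega
      have h6 : ((a + b - i).choose (a - i) : K) * ((a - i).choose (k - i) : K) =
          ((a + b - i).choose (k - i) : K) * ((a + b - k).choose b : K) := by exact_mod_cast h5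
      linear_combination ((-1) ^ i * Ring.choose x i) * h6
    · intro i _ hi
      rw [mem_range, not_lt] at hi
      simp only
      rw [if_neg (by omega), mul_zero]
  · -- `a < k`
    apply sum_eq_zero
    rintro ⟨i, i'⟩ hi
    have hi' : i + i' = a := by simpa using hi
    simp only
    rw [if_pos (by omega), Nat.choose_eq_zero_of_lt (by omega : i' < k - i)]
    simp

end

end Pool.Agent.Lib.MP_509488_nt.Pade
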