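import Pool.Agent.Lib.MP_509488_nt.RungePoly
import Pool.Agent.Lib.MP_509488_nt.Alg

set_option autoImplicit false

namespace Pool.Agent.Lib.MP_509488_nt.Runge

open Finset Nat

variable {p r m : ℕ}

/-- `∑_{k ≤ m} N_k v^k A^(m-k)` -/
noncomputable def Y (p : ℕ) {r : ℕ} (m : ℕ) (hr : r.Prime) (A v : ℤ) : ℤ :=
  ∑ k ∈ range (m + 1), N p m hr k * v ^ k * A ^ (m - k)

theorem pow_dvd_pow_sub (hr : r.Prime) (hp : p ≤ m * r) (hmp : m + 1 ≤ p) {a v w : ℤ}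
    (hav : IsCoprime (a ^ r) v) (h : (a ^ r + v) ^ p - v ^ p = w ^ r) :
    v ^ (m + 1) ∣ (r ^ (ex r m) * a ^ (m * r - p) * w) ^ r - (Y p m hr (a ^ r) v) ^ r := by
  set n := (v ^ (m + 1)).natAbs with hn
  have hdvd : ∀ z : ℤ, (z : ZMod n) = 0 → v ^ (m + 1) ∣ z := by
    intro z hz
    rw [ZMod.intCast_zmod_eq_zero_iff_dvd, hn] at hz
    exact Int.natAbs_dvd.1 hz
  apply hdvd
  have hv : ((v : ℤ) : ZMod n) ^ (m + 1) = 0 := by
    have : ((v ^ (m + 1) : ℤ) : ZMod n) = 0 := by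
      rw [ZMod.intCast_zmod_eq_zero_iff_dvd, hn]
      exact Int.natAbs_dvd.2 dvd_rfl
    simpa using this
  have hA : IsUnit (((a ^ r : ℤ)) : ZMod n) := by
    have h1 : IsCoprime (a ^ r) (v ^ (m + 1)) := hav.pow_right
    obtain ⟨x, y, hxy⟩ := h1
    rw [isUnit_iff_exists_inv]
    refine ⟨(x : ZMod n), ?_⟩
    have h2 := congrArg (Int.cast : ℤ → ZMod n) hxy
    push_cast at h2
    rw [hv, mul_zero, add_zero] at h2
    push_cast
    rw [mul_comm]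
    exact h2
  have h1 := homog p m hr hp hA hv
  have hvp : ((v : ℤ) : ZMod n) ^ p = 0 := pow_eq_zero_of_le hmp hv
  have hw : ((w : ℤ) : ZMod n) ^ r = (((a ^ r : ℤ) : ZMod n) + v) ^ p := by
    have h2 := congrArg (Int.cast : ℤ → ZMod n) h
    push_cast at h2 ⊢
    rw [hvp, sub_zero] at h2
    exact h2.symm
  have h3 : (((Y p m hr (a ^ r) v) : ℤ) : ZMod n) ^ r =
      (r : ZMod n) ^ (ex r m * r) * ((a ^ r : ℤ) : ZMod n) ^ (m * r - p) *
        (((a ^ r : ℤ) : ZMod n) + v) ^ p := by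
    rw [← h1, Y]
    push_cast
    rfl
  rw [Int.cast_sub, sub_eq_zero, Int.cast_pow, Int.cast_pow, h3, ← hw]
  push_cast
  ring

theorem dvd_sub (hr : r.Prime) (hp : p ≤ m * r) (hmp : m + 1 ≤ p) {a v w : ℤ}
    (hv0 : v ≠ 0)
    (hav : IsCoprime (a ^ r) v) (h : (a ^ r + v) ^ p - v ^ p = w ^ r)
    (hgood : ∀ l : ℕ, l.Prime → (l : ℤ) ∣ v → l ≠ r ∧ ¬ l ≡ 1 [MOD r]) :
    v ^ (m + 1) ∣ r ^ (ex r m) * a ^ (m * r - p) * w - Y p m hr (a ^ r) v := by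
  have hrv : ¬ (r : ℤ) ∣ v := fun h => (hgood r hr h).1 rfl
  have hrZ := Nat.prime_iff_prime_int.1 hr
  have hrcop : IsCoprime (r : ℤ) v := (hrZ.coprime_iff_not_dvd).2 hrv
  apply dvd_sub_of_pow' hr (pow_ne_zero _ hv0)
  · apply IsCoprime.pow_right
    -- `Y ≡ N_0 A^m mod v`
    have h1 : Y p m hr (a ^ r) v = r ^ (ex r m) * (a ^ r) ^ m +
        v * ∑ k ∈ range m, N p m hr (k + 1) * v ^ k * (a ^ r) ^ (m - (k + 1)) := by
      rw [Y, sum_range_succ', N_zero, mul_sum]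
      simp only [pow_zero, mul_one, Nat.sub_zero]
      rw [add_comm]
      congr 1
      apply sum_congr rfl
      intro k _
      ring
    rw [h1]
    have h2 : IsCoprime ((r : ℤ) ^ (ex r m) * (a ^ r) ^ m) v :=
      IsCoprime.mul_left hrcop.pow_left hav.pow_left
    exact IsCoprime.add_mul_left_left h2 _
  · intro hd
    exact hrv (hrZ.dvd_of_dvd_pow hd)
  · intro l hl hlv
    exact (hgood l hl ((Nat.prime_iff_prime_int.1 hl).dvd_of_dvd_pow hlv)).2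
  · exact pow_dvd_pow_sub hr hp hmp hav h

theorem sub_ne_zero' (hr : r.Prime) (hrp : ¬ r ∣ p) (hm : 1 ≤ m) {A v : ℤ} (B : ℤ)
    (hrv : ¬ (r : ℤ) ∣ v) :
    r ^ (ex r m) * B - Y p m hr A v ≠ 0 := by
  intro h
  have hrZ := Nat.prime_iff_prime_int.1 hr
  have h1 : (r : ℤ) ∣ r ^ (ex r m) * B := by
    apply Dvd.dvd.mul_right
    apply dvd_pow_self
    unfold ex; omega
  have h2 : (r : ℤ) ∣ Y p m hr A v := by
    have : Y p m hr A v = r ^ (ex r m) * B := by linarith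
    rw [this]; exact h1
  rw [Y, sum_range_succ] at h2
  have h3 : (r : ℤ) ∣ ∑ k ∈ range m, N p m hr k * v ^ k * A ^ (m - k) := by
    apply Finset.dvd_sum
    intro k hk
    rw [mem_range] at hk
    exact ((dvd_N hr hk).mul_right _).mul_right _
  have h4 := (Int.dvd_add_right h3).1 h2
  rw [Nat.sub_self, pow_zero, mul_one] at h4
  rcases hrZ.dvd_or_dvd h4 with h | h
  · exact not_dvd_N hr hrp h
  · exact hrv (hrZ.dvd_of_dvd_pow h)

theorem le_abs (hr : r.Prime) (hrp : ¬ r ∣ p) (hm : 1 ≤ m) (hp : p ≤ m * r) (hmp : m + 1 ≤ p)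
    {a v w : ℤ} (hv0 : v ≠ 0)
    (hav : IsCoprime (a ^ r) v) (h : (a ^ r + v) ^ p - v ^ p = w ^ r)
    (hgood : ∀ l : ℕ, l.Prime → (l : ℤ) ∣ v → l ≠ r ∧ ¬ l ≡ 1 [MOD r]) :
    |v| ^ (m + 1) ≤ |r ^ (ex r m) * a ^ (m * r - p) * w - Y p m hr (a ^ r) v| := by
  have h1 := dvd_sub hr hp hmp hv0 hav h hgood
  have h2 : r ^ (ex r m) * a ^ (m * r - p) * w - Y p m hr (a ^ r) v ≠ 0 := by
    rw [mul_assoc]
    exact sub_ne_zero' hr hrp hm _ (fun h => (hgood r hr h).1 rfl)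
  rw [← abs_pow]
  exact Int.le_of_dvd (abs_pos.2 h2) ((abs_dvd_abs _ _).2 h1)

end Pool.Agent.Lib.MP_509488_nt.Runge
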