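import Pool.Agent.Lib.MP_509488_nt.PadeCoeff
import Pool.Agent.Lib.MP_509488_nt.RungeInt

set_option autoImplicit false

/-!
The integral Padé forms and the divisibility of the remainder.
-/

namespace Pool.Agent.Lib.MP_509488_nt.Pade

open Finset Nat Pool.Agent.Lib.MP_509488_nt Pool.Agent.Lib.MP_509488_nt.Runge

variable {p r a b : ℕ}

/-- coefficients of the numerator -/
noncomputable def al (p : ℕ) {r : ℕ} (a b : ℕ) (hr : r.Prime) (j : ℕ) : ℤ :=
  N (p + b * r) a hr j * ((a + b - j).choose b : ℤ)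

/-- coefficients of the denominator -/
noncomputable def be (p : ℕ) {r : ℕ} (a b : ℕ) (hr : r.Prime) (j : ℕ) : ℤ :=
  N (a * r - p) a hr j * ((a + b - j).choose a : ℤ)

theorem al_eq {K : Type*} [Field K] [CharZero K] (hr : r.Prime) {j : ℕ} (hj : j ≤ a) :
    (al p a b hr j : K) =
      r ^ (ex r a) * (Ring.choose ((p : K) / r + b) j * ((a + b - j).choose b : K)) := by
  have hr' : (r : K) ≠ 0 := by exact_mod_cast hr.ne_zero
  unfold al
  push_cast
  rw [N_eq (K := K) hr hj]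
  have : ((p + b * r : ℕ) : K) / r = (p : K) / r + b := by
    push_cast; field_simp
  rw [this]; ring

theorem be_eq {K : Type*} [Field K] [CharZero K] (hr : r.Prime) (hba : b ≤ a) (hp : p ≤ a * r)
    {j : ℕ} (hj : j ≤ a + b) :
    (be p a b hr j : K) =
      r ^ (ex r a) * (Ring.choose ((a : K) - (p : K) / r) j * ((a + b - j).choose a : K)) := by
  have hr' : (r : K) ≠ 0 := by exact_mod_cast hr.ne_zero
  unfold be
  push_cast
  rcases le_or_gt j a with hja | hja
  · rw [N_eq (K := K) hr hja]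
    have : ((a * r - p : ℕ) : K) / r = (a : K) - (p : K) / r := by
      rw [Nat.cast_sub hp]; push_cast; field_simp
    rw [this]; ring
  · rw [Nat.choose_eq_zero_of_lt (by omega : a + b - j < a)]
    simp

/-- generic homogeneous form -/
def hom (f : ℕ → ℤ) (n : ℕ) (A v : ℤ) : ℤ := ∑ j ∈ range (n + 1), f j * v ^ j * A ^ (n - j)

/-- generic dehomogenised polynomial -/
noncomputable def poly (f : ℕ → ℤ) (n : ℕ) : Polynomial ℤ :=
  ∑ j ∈ range (n + 1), Polynomial.C (f j) * Polynomial.X ^ j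

theorem coeff_poly (f : ℕ → ℤ) (n k : ℕ) : (poly f n).coeff k = if k ≤ n then f k else 0 := by
  unfold poly
  rw [Polynomial.finsetSum_coeff]
  simp only [Polynomial.coeff_C_mul, Polynomial.coeff_X_pow, mul_ite, mul_one, mul_zero]
  rw [Finset.sum_ite_eq (range (n + 1)) k]
  simp

theorem hom_eq {R : Type*} [CommRing R] (f : ℕ → ℤ) (n : ℕ) {A v : ℤ} {B : R}
    (hB : (A : R) * B = 1) :
    (hom f n A v : R) = (A : R) ^ n * Polynomial.aeval ((v : R) * B) (poly f n) := by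
  unfold hom poly
  push_cast
  rw [map_sum, mul_sum]
  apply sum_congr rfl
  intro k hk
  have hk' : k ≤ n := Nat.lt_succ_iff.1 (mem_range.1 hk)
  have h3 : (A : R) ^ n = (A : R) ^ (n - k) * (A : R) ^ k := by rw [← pow_add, Nat.sub_add_cancel hk']
  have h4 : (A : R) ^ k * B ^ k = 1 := by rw [← mul_pow, hB, one_pow]
  rw [h3]
  simp only [map_mul, map_pow, Polynomial.aeval_X, mul_pow, eq_intCast, map_intCast]
  linear_combination (-(f k : R) * (v : R) ^ k * (A : R) ^ (n - k)) * h4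

theorem X_pow_dvd_pade (hr : r.Prime) (hba : b ≤ a) (hp : p ≤ a * r) :
    (Polynomial.X : Polynomial ℤ) ^ (a + b + 1) ∣
      poly (be p a b hr) b * poly (N p (a + b) hr) (a + b) -
        Polynomial.C ((r : ℤ) ^ (ex r (a + b))) * poly (al p a b hr) a := by
  rw [Polynomial.X_pow_dvd_iff]
  intro d hd
  have hd' : d ≤ a + b := Nat.lt_succ_iff.1 hd
  rw [Polynomial.coeff_sub, Polynomial.coeff_C_mul, Polynomial.coeff_mul, sub_eq_zero]
  have hr' : (r : ℚ) ≠ 0 := by exact_mod_cast hr.ne_zero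
  have key := pade ((a : ℚ) - (p : ℚ) / r) ((p : ℚ) / r) (a := a) (b := b) hd' (by ring)
  have goalQ : ((∑ x ∈ antidiagonal d, (poly (be p a b hr) b).coeff x.1 *
      (poly (N p (a + b) hr) (a + b)).coeff x.2 : ℤ) : ℚ) =
      (((r : ℤ) ^ (ex r (a + b)) * (poly (al p a b hr) a).coeff d : ℤ) : ℚ) := by
    have h1 : ((∑ x ∈ antidiagonal d, (poly (be p a b hr) b).coeff x.1 *
      (poly (N p (a + b) hr) (a + b)).coeff x.2 : ℤ) : ℚ) =
        r ^ (ex r a) * r ^ (ex r (a + b)) * ∑ jl ∈ antidiagonal d,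
          Ring.choose ((a : ℚ) - (p : ℚ) / r) jl.1 * ((a + b - jl.1).choose a : ℚ) *
            Ring.choose ((p : ℚ) / r) jl.2 := by
      rw [mul_sum]
      push_cast
      apply sum_congr rfl
      rintro ⟨j, l⟩ hjl
      have hjl' : j + l = d := by simpa using hjl
      simp only
      have h2 : (((poly (be p a b hr) b).coeff j : ℤ) : ℚ) = (be p a b hr j : ℚ) := by
        rw [coeff_poly]
        split_ifs with hjb
        · rfl
        · unfold be
          rw [Nat.choose_eq_zero_of_lt (by omega : a + b - j < a)]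
          simp
      have h3 : (((poly (N p (a + b) hr) (a + b)).coeff l : ℤ) : ℚ) = (N p (a + b) hr l : ℚ) := by
        rw [coeff_poly, if_pos (by omega)]
      rw [h2, h3, be_eq (K := ℚ) hr hba hp (by omega), N_eq (K := ℚ) hr (by omega)]
      ring
    rw [h1, key, coeff_poly]
    split_ifs with hda
    · push_cast
      rw [al_eq (K := ℚ) hr hda]
      ring
    · simp
  exact_mod_cast goalQ

/-- in a commutative ring where `v ^ (a + b + 1) = 0` and `A` is a unit -/
theorem homog_pade {R : Type*} [CommRing R] (hr : r.Prime) (hba : b ≤ a) (hp : p ≤ a * r)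
    {A v : ℤ} (hA : IsUnit (A : R)) (hv : (v : R) ^ (a + b + 1) = 0) :
    (hom (be p a b hr) b A v : R) * (hom (N p (a + b) hr) (a + b) A v : R) =
      (r : R) ^ (ex r (a + b)) * ((A : R) ^ (2 * b) * (hom (al p a b hr) a A v : R)) := by
  obtain ⟨B, hB⟩ := hA.exists_right_inv
  obtain ⟨H, hH⟩ := X_pow_dvd_pade (p := p) hr hba hp
  have h1 := congrArg (Polynomial.aeval ((v : R) * B)) hH
  simp only [map_sub, map_pow, map_mul, Polynomial.aeval_X, mul_pow (v : R) B,
    hv, zero_mul, sub_eq_zero, map_natCast] at h1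
  rw [hom_eq _ _ hB, hom_eq _ _ hB, hom_eq _ _ hB]
  have h2 : (A : R) ^ (2 * b) * (A : R) ^ a = (A : R) ^ b * (A : R) ^ (a + b) := by
    rw [← pow_add, ← pow_add]; congr 1; ring
  linear_combination ((A : R) ^ b * (A : R) ^ (a + b)) * h1 -
    ((r : R) ^ (ex r (a + b)) * Polynomial.aeval ((v : R) * B) (poly (al p a b hr) a)) * h2

theorem Y_eq_hom (hr : r.Prime) (m : ℕ) (A v : ℤ) : Y p m hr A v = hom (N p m hr) m A v := rfl

/-- the remainder -/
noncomputable def K (p : ℕ) {r : ℕ} (a b : ℕ) (hr : r.Prime) (A v t : ℤ) : ℤ :=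
  hom (al p a b hr) a A v - t * hom (be p a b hr) b A v

/-- divisibility by a power of the good part `v₁` of `v`. -/
theorem dvd_K (hr : r.Prime) (hba : b ≤ a) (hp : p ≤ (a - b) * r) (hmp : a + b + 1 ≤ p)
    {c v v₁ w : ℤ} (hv1 : v₁ ∣ v) (hv10 : v₁ ≠ 0) (hrv : ¬ (r : ℤ) ∣ v)
    (hav : IsCoprime (c ^ r) v) (h : (c ^ r + v) ^ p - v ^ p = w ^ r)
    (hgood : ∀ l : ℕ, l.Prime → (l : ℤ) ∣ v₁ → ¬ l ≡ 1 [MOD r]) :
    v₁ ^ (a + b + 1) ∣ K p a b hr (c ^ r) v (c ^ ((a - b) * r - p) * w) := by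
  have hpar : p ≤ a * r := hp.trans (Nat.mul_le_mul_right _ (Nat.sub_le _ _))
  have hpabr : p ≤ (a + b) * r := hpar.trans (Nat.mul_le_mul_right _ (Nat.le_add_right _ _))
  have hrZ := Nat.prime_iff_prime_int.1 hr
  have hrcop : IsCoprime (r : ℤ) v := (hrZ.coprime_iff_not_dvd).2 hrv
  have hrcop1 : IsCoprime (r : ℤ) v₁ := hrcop.of_isCoprime_of_dvd_right hv1
  have hav1 : IsCoprime (c ^ r) v₁ := hav.of_isCoprime_of_dvd_right hv1
  set M := a + b with hM
  -- the truncated series modulo `v₁ ^ (M+1)`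
  have h1 : v₁ ^ (M + 1) ∣ r ^ (ex r M) * c ^ (M * r - p) * w - Y p M hr (c ^ r) v := by
    apply dvd_sub_of_pow' hr (pow_ne_zero _ hv10)
    · apply IsCoprime.pow_right
      have h1 : Y p M hr (c ^ r) v = r ^ (ex r M) * (c ^ r) ^ M +
          v * ∑ k ∈ range M, N p M hr (k + 1) * v ^ k * (c ^ r) ^ (M - (k + 1)) := by
        rw [Y, sum_range_succ', N_zero, mul_sum]
        simp only [pow_zero, mul_one, Nat.sub_zero]
        rw [add_comm]
        congr 1
        apply sum_congr rfl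
        intro k _
        ring
      rw [h1]
      have h2 : IsCoprime ((r : ℤ) ^ (ex r M) * (c ^ r) ^ M) v₁ :=
        IsCoprime.mul_left hrcop1.pow_left hav1.pow_left
      obtain ⟨s, hs⟩ := hv1
      rw [hs, mul_assoc]
      exact IsCoprime.add_mul_left_left h2 _
    · intro hd
      exact hrv ((hrZ.dvd_of_dvd_pow hd).trans hv1)
    · intro l hl hlv
      exact hgood l hl ((Nat.prime_iff_prime_int.1 hl).dvd_of_dvd_pow hlv)
    · exact (pow_dvd_pow_of_dvd hv1 _).trans (pow_dvd_pow_sub hr hpabr hmp hav h)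
  -- pass to `ZMod n`
  set n := (v₁ ^ (M + 1)).natAbs with hn
  have hdvd : ∀ z : ℤ, (z : ZMod n) = 0 ↔ v₁ ^ (M + 1) ∣ z := by
    intro z
    rw [ZMod.intCast_zmod_eq_zero_iff_dvd, hn]
    exact Int.natAbs_dvd
  have hunit : ∀ z : ℤ, IsCoprime z v₁ → IsUnit (z : ZMod n) := by
    intro z hz
    obtain ⟨x, y, hxy⟩ := (hz.pow_right : IsCoprime z (v₁ ^ (M + 1)))
    rw [isUnit_iff_exists_inv]
    refine ⟨(x : ZMod n), ?_⟩
    have h2 := congrArg (Int.cast : ℤ → ZMod n) hxy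
    rw [Int.cast_add, Int.cast_mul, Int.cast_mul, (hdvd _).2 dvd_rfl, mul_zero, add_zero,
      Int.cast_one] at h2
    rw [mul_comm]
    exact h2
  have hv : ((v : ℤ) : ZMod n) ^ (M + 1) = 0 := by
    rw [← Int.cast_pow, hdvd]
    exact pow_dvd_pow_of_dvd hv1 _
  have hA := hunit _ hav1
  have hru := hunit _ hrcop1
  have h2 := homog_pade (p := p) hr hba hpar hA hv
  have h3 := (hdvd _).2 h1
  rw [Y_eq_hom] at h3
  rw [← hdvd]
  unfold K
  push_cast at h2 h3 ⊢
  -- cancel `r ^ ex * A ^ (2 b)`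
  have hu : IsUnit ((r : ZMod n) ^ (ex r M) * ((c : ZMod n) ^ r) ^ (2 * b)) := by
    apply IsUnit.mul
    · exact (by simpa using hru : IsUnit (r : ZMod n)).pow _
    · exact (by simpa using hA : IsUnit ((c : ZMod n) ^ r)).pow _
  have hexp : M * r - p = r * (2 * b) + ((a - b) * r - p) := by
    have e1 : M * r = 2 * b * r + (a - b) * r := by
      rw [← add_mul]; congr 1; omega
    rw [e1, mul_comm r]
    omega
  rw [hexp, pow_add, pow_mul] at h3
  apply (hu.mul_right_eq_zero).1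
  linear_combination (-1 : ZMod n) * h2 - ((hom (be p a b hr) b (c ^ r) v : ℤ) : ZMod n) * h3

/-- non-vanishing, `r`-adically -/
theorem K_ne_zero (hr : r.Prime) (hrp : ¬ r ∣ p) (hba : b < a) {A v t : ℤ}
    (hrv : ¬ (r : ℤ) ∣ v) : K p a b hr A v t ≠ 0 := by
  intro h
  have hrZ := Nat.prime_iff_prime_int.1 hr
  have h1 : (r : ℤ) ∣ hom (be p a b hr) b A v := by
    apply Finset.dvd_sum
    intro k hk
    rw [mem_range] at hk
    exact ((((dvd_N hr (by omega)).mul_right _).mul_right _).mul_right _)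
  have h2 : (r : ℤ) ∣ hom (al p a b hr) a A v := by
    unfold K at h
    have : hom (al p a b hr) a A v = t * hom (be p a b hr) b A v := by linarith
    rw [this]; exact h1.mul_left _
  rw [hom, sum_range_succ] at h2
  have h3 : (r : ℤ) ∣ ∑ k ∈ range a, al p a b hr k * v ^ k * A ^ (a - k) := by
    apply Finset.dvd_sum
    intro k hk
    rw [mem_range] at hk
    exact ((((dvd_N hr hk).mul_right _).mul_right _).mul_right _)
  have h4 := (Int.dvd_add_right h3).1 h2
  rw [Nat.sub_self, pow_zero, mul_one] at h4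
  rcases hrZ.dvd_or_dvd h4 with h | h
  · unfold al at h
    rw [Nat.add_sub_cancel_left, Nat.choose_self, Nat.cast_one, mul_one] at h
    refine not_dvd_N hr ?_ h
    intro hd
    exact hrp ((Nat.dvd_add_left (Dvd.intro_left b rfl)).1 hd)
  · exact hrv (hrZ.dvd_of_dvd_pow h)

theorem le_abs_K (hr : r.Prime) (hrp : ¬ r ∣ p) (hba : b < a) (hp : p ≤ (a - b) * r)
    (hmp : a + b + 1 ≤ p) {c v v₁ w : ℤ} (hv1 : v₁ ∣ v) (hv10 : v₁ ≠ 0) (hrv : ¬ (r : ℤ) ∣ v)
    (hav : IsCoprime (c ^ r) v) (h : (c ^ r + v) ^ p - v ^ p = w ^ r)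
    (hgood : ∀ l : ℕ, l.Prime → (l : ℤ) ∣ v₁ → ¬ l ≡ 1 [MOD r]) :
    |v₁| ^ (a + b + 1) ≤ |K p a b hr (c ^ r) v (c ^ ((a - b) * r - p) * w)| := by
  rw [← abs_pow]
  exact Int.le_of_dvd (abs_pos.2 (K_ne_zero hr hrp hba hrv))
    ((abs_dvd_abs _ _).2 (dvd_K hr hba.le hp hmp hv1 hv10 hrv hav h hgood))

end Pool.Agent.Lib.MP_509488_nt.Pade
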