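import Pool.Agent.Lib.MP_509488_nt.PadeSize

set_option autoImplicit false

/-!
Size estimate for the Padé remainder when `2|v| ≤ c^r`.
-/

namespace Pool.Agent.Lib.MP_509488_nt.Pade

open Finset Nat Pool.Agent.Lib.MP_509488_nt Pool.Agent.Lib.MP_509488_nt.Runge

variable {p r m b : ℕ}

theorem tail_le' (hr : r ≠ 0) (h : (m : ℤ) * r < p + r) (h' : (p : ℤ) ≤ m * r) {n : ℕ}
    (hn : m ≤ n) {x : ℝ} (hx : |x| ≤ 1 / 2) :
    |(1 + x) ^ ((p : ℝ) / r) - ∑ k ∈ range (n + 1), Ring.choose ((p : ℝ) / r) k * x ^ k| ≤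
      2 * |x| ^ (n + 1) := by
  have hmem : x ∈ Metric.eball (0 : ℝ) 1 := by
    rw [← ENNReal.ofReal_one, Metric.eball_ofReal, mem_ball_zero_iff, Real.norm_eq_abs]
    linarith
  have hs := (Real.one_add_rpow_hasFPowerSeriesOnBall_zero (a := (p : ℝ) / r)).hasSum hmem
  have hs' : HasSum (fun k => Ring.choose ((p : ℝ) / r) k * x ^ k) ((1 + x) ^ ((p : ℝ) / r)) := by
    rw [zero_add] at hs
    have e : (fun n : ℕ => (binomialSeries ℝ ((p : ℝ) / r) n) fun _ => x) =
        fun k => Ring.choose ((p : ℝ) / r) k * x ^ k := by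
      funext n
      rw [binomialSeries_apply]
      simp
    rw [e] at hs
    exact hs
  have hs2 := (hasSum_nat_add_iff' (n + 1)).2 hs'
  have hg : HasSum (fun i : ℕ => |x| ^ (n + 1) * (1 / 2 : ℝ) ^ i) (|x| ^ (n + 1) * 2) :=
    hasSum_geometric_two.mul_left _
  have := hs2.norm_le_of_bounded hg (by
    intro i
    rw [norm_mul, norm_pow, Real.norm_eq_abs, Real.norm_eq_abs]
    have h1 : |Ring.choose ((p : ℝ) / r) (i + (n + 1))| ≤ 1 := by
      have := abs_choose_le hr h h' (i + 1 + (n - m))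
      rwa [show m + (i + 1 + (n - m)) = i + (n + 1) by omega] at this
    have h2 : |x| ^ (i + (n + 1)) ≤ |x| ^ (n + 1) * (1 / 2 : ℝ) ^ i := by
      rw [pow_add, mul_comm]
      exact mul_le_mul_of_nonneg_left (pow_le_pow_left₀ (abs_nonneg _) hx _) (by positivity)
    calc |Ring.choose ((p : ℝ) / r) (i + (n + 1))| * |x| ^ (i + (n + 1))
        ≤ 1 * |x| ^ (i + (n + 1)) := mul_le_mul_of_nonneg_right h1 (by positivity)
      _ ≤ _ := by rw [one_mul]; exact h2)
  rw [Real.norm_eq_abs] at this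
  linarith

/-- the Padé remainder. -/
theorem pade_rem_le (hr : r.Prime) (hpr : (p : ℤ) < m * r) (h : (m : ℤ) * r < p + r)
    (hm : 1 ≤ m) {x : ℝ} (hx : |x| ≤ 1 / 2) :
    4 * |(∑ j ∈ range (b + 1), (be p (b + m) b hr j : ℝ) * x ^ j) * (1 + x) ^ ((p : ℝ) / r) -
      ∑ j ∈ range (b + m + 1), (al p (b + m) b hr j : ℝ) * x ^ j| ≤
      r ^ (ex r (b + m)) * (2 ^ (b + m) * 3 ^ (b + 1)) * (2 * |x| ^ (2 * b + m + 1)) := by
  set α : ℝ := (p : ℝ) / r with hα
  set B : ℕ → ℝ := fun j => (be p (b + m) b hr j : ℝ) with hB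
  set D : ℝ := r ^ (ex r (b + m)) with hD
  have hpar : p ≤ (b + m) * r := by
    have : (p : ℤ) ≤ ((b + m) * r : ℕ) := by
      push_cast
      have : (0 : ℤ) ≤ b * r := by positivity
      nlinarith
    exact_mod_cast this
  -- the double sum identity
  have h1 : ∑ j ∈ range (b + 1), B j * x ^ j *
      ∑ k ∈ range (2 * b + m - j + 1), Ring.choose α k * x ^ k =
      ∑ j ∈ range (b + m + 1), (al p (b + m) b hr j : ℝ) * x ^ j := by
    have h2 : ∑ j ∈ range (b + 1), B j * x ^ j *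
        ∑ k ∈ range (2 * b + m - j + 1), Ring.choose α k * x ^ k =
        ∑ j ∈ range (2 * b + m + 1), ∑ k ∈ range (2 * b + m + 1 - j),
          (B j * x ^ j) * (Ring.choose α k * x ^ k) := by
      rw [← Finset.sum_subset (range_subset_range.2 (by omega : b + 1 ≤ 2 * b + m + 1))]
      · apply sum_congr rfl
        intro j hj
        rw [mem_range] at hj
        rw [mul_sum, show 2 * b + m - j + 1 = 2 * b + m + 1 - j by omega]
      · intro j _ hj
        rw [mem_range, not_lt] at hj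
        apply sum_eq_zero
        intro k _
        have : B j = 0 := by
          rw [hB]; simp only
          unfold be
          rw [Nat.choose_eq_zero_of_lt (by omega)]
          simp
        rw [this]; simp
    rw [h2, ← Finset.sum_range_diag_flip]
    have h3 : ∀ d ∈ range (2 * b + m + 1), ∑ j ∈ range (d + 1), B j * x ^ j *
        (Ring.choose α (d - j) * x ^ (d - j)) =
        (if d ≤ b + m then (al p (b + m) b hr d : ℝ) else 0) * x ^ d := by
      intro d hd
      have hd' : d ≤ b + m + b := by rw [mem_range] at hd; omega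
      have key := pade (((b + m : ℕ) : ℝ) - α) α (a := b + m) (b := b) hd' (by push_cast; ring)
      have h4 : ∑ j ∈ range (d + 1), B j * x ^ j * (Ring.choose α (d - j) * x ^ (d - j)) =
          D * (∑ jl ∈ antidiagonal d, Ring.choose (((b + m : ℕ) : ℝ) - α) jl.1 *
            ((b + m + b - jl.1).choose (b + m) : ℝ) * Ring.choose α jl.2) * x ^ d := by
        rw [Finset.Nat.sum_antidiagonal_eq_sum_range_succ_mk, mul_sum, sum_mul]
        apply sum_congr rfl
        intro j hj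
        have hj' : j ≤ d := Nat.lt_succ_iff.1 (mem_range.1 hj)
        have h5 : x ^ d = x ^ j * x ^ (d - j) := by rw [← pow_add]; congr 1; omega
        rw [hB]; simp only
        rw [be_eq (K := ℝ) (a := b + m) (b := b) hr (by omega) hpar (by omega), h5]
        ring
      rw [h4, key]
      split_ifs with hda
      · rw [al_eq (K := ℝ) (a := b + m) (b := b) hr hda]
      · simp
    rw [sum_congr rfl h3]
    rw [← Finset.sum_subset (range_subset_range.2 (by omega : b + m + 1 ≤ 2 * b + m + 1))]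
    · apply sum_congr rfl
      intro j hj
      rw [if_pos (by rw [mem_range] at hj; omega)]
    · intro j _ hj
      rw [mem_range, not_lt] at hj
      rw [if_neg (by omega), zero_mul]
  have h2 : (∑ j ∈ range (b + 1), B j * x ^ j) * (1 + x) ^ α -
      ∑ j ∈ range (b + m + 1), (al p (b + m) b hr j : ℝ) * x ^ j =
      ∑ j ∈ range (b + 1), B j * x ^ j * ((1 + x) ^ α -
        ∑ k ∈ range (2 * b + m - j + 1), Ring.choose α k * x ^ k) := by
    rw [← h1, sum_mul, ← sum_sub_distrib]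
    apply sum_congr rfl
    intro j _
    ring
  have h3 : |(∑ j ∈ range (b + 1), B j * x ^ j) * (1 + x) ^ α -
      ∑ j ∈ range (b + m + 1), (al p (b + m) b hr j : ℝ) * x ^ j| ≤
      (∑ j ∈ range (b + 1), B j * 1 ^ j * 1 ^ (b - j)) * (2 * |x| ^ (2 * b + m + 1)) := by
    rw [h2, sum_mul]
    refine (abs_sum_le_sum_abs _ _).trans ?_
    apply sum_le_sum
    intro j hj
    have hj' : j ≤ b := Nat.lt_succ_iff.1 (mem_range.1 hj)
    have hB0 : 0 ≤ B j := by
      rw [hB]
      have := be_nonneg (b := b) hr hpr h.le hm hj'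
      simp only
      exact_mod_cast this
    have h4 := tail_le' hr.ne_zero h hpr.le (n := 2 * b + m - j) (by omega) hx
    rw [abs_mul, abs_mul, abs_of_nonneg hB0, abs_pow]
    calc B j * |x| ^ j * |(1 + x) ^ α - ∑ k ∈ range (2 * b + m - j + 1), Ring.choose α k * x ^ k|
        ≤ B j * |x| ^ j * (2 * |x| ^ (2 * b + m - j + 1)) :=
          mul_le_mul_of_nonneg_left h4 (by positivity)
      _ = _ := by
        rw [show 2 * b + m + 1 = j + (2 * b + m - j + 1) by omega, pow_add]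
        simp only [one_pow, mul_one]
        ring
  have h4 := sum_be_le (b := b) (A := 1) (V := 1) hr hpr h.le hm (by norm_num) (by norm_num)
  calc 4 * |(∑ j ∈ range (b + 1), B j * x ^ j) * (1 + x) ^ α -
      ∑ j ∈ range (b + m + 1), (al p (b + m) b hr j : ℝ) * x ^ j|
      ≤ (4 * 1 * ∑ j ∈ range (b + 1), B j * 1 ^ j * 1 ^ (b - j)) * (2 * |x| ^ (2 * b + m + 1)) := by
        linarith
    _ ≤ (D * (2 ^ (b + m) * (1 + 2 * 1) ^ (b + 1))) * (2 * |x| ^ (2 * b + m + 1)) :=
        mul_le_mul_of_nonneg_right h4 (by positivity)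
    _ = _ := by norm_num

/-- case `2|v| ≤ c^r`. -/
theorem size_large (hr : r.Prime) (hm : 1 ≤ m) (hpr : (p : ℤ) < m * r)
    (h : (m : ℤ) * r < p + r) (hmp : 2 * b + m + 1 ≤ p)
    {c v w : ℤ} (hc : 0 < c) (hw : 0 ≤ w) (hge : 2 * |v| ≤ c ^ r)
    (he : (c ^ r + v) ^ p - v ^ p = w ^ r) :
    4 * |(K p (b + m) b hr (c ^ r) v (c ^ (m * r - p) * w) : ℝ)| * ((c ^ r : ℤ) : ℝ) ^ (b + 1) ≤
      7 * 6 ^ m * 20 ^ b * r ^ (ex r (b + m)) * |(v : ℝ)| ^ (2 * b + m + 1) := by
  have hr0 := hr.pos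
  have hp : p ≤ m * r := by exact_mod_cast hpr.le
  set A : ℝ := ((c ^ r : ℤ) : ℝ) with hAdef
  have hApos : 0 < A := by
    rw [hAdef]; exact_mod_cast (pow_pos hc r)
  have hAa : A = (c : ℝ) ^ r := by rw [hAdef]; push_cast; rfl
  have haR : (0 : ℝ) < c := by exact_mod_cast hc
  have hwR : (0 : ℝ) ≤ w := by exact_mod_cast hw
  set x : ℝ := (v : ℝ) / A with hx
  have hV : 2 * |(v : ℝ)| ≤ A := by
    rw [hAdef]; exact_mod_cast hge
  have hxabs : |x| = |(v : ℝ)| / A := by rw [hx, abs_div, abs_of_pos hApos]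
  have hx2 : |x| ≤ 1 / 2 := by
    rw [hxabs, div_le_iff₀ hApos]; linarith
  have hx1 := (abs_le.1 hx2)
  set α : ℝ := (p : ℝ) / r with hα
  have hrR : (0 : ℝ) < r := by exact_mod_cast hr0
  have hαm : α ≤ m := by
    rw [hα, div_le_iff₀ hrR]; exact_mod_cast hp
  have hα0 : 0 ≤ α := by positivity
  set D : ℝ := r ^ (ex r (b + m)) with hDdef
  have hDpos : 0 < D := by positivity
  have h1x : (0 : ℝ) < 1 + x := by linarith
  set z : ℝ := A ^ m * (1 + x) ^ α with hz
  set t : ℝ := (c : ℝ) ^ (m * r - p) * w with ht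
  have hz0 : 0 < z := by positivity
  have ht0 : 0 ≤ t := by positivity
  have hAv : A * (1 + x) = A + v := by rw [hx]; field_simp
  have hAv0 : 0 < A + v := by rw [← hAv]; positivity
  have hApow : A ^ (m * r) = A ^ (m * r - p) * A ^ p := by
    rw [← pow_add, Nat.sub_add_cancel hp]
  have hzr : z ^ r = A ^ (m * r - p) * (A + v) ^ p := by
    have h3 : ((1 + x) ^ α) ^ r = (1 + x) ^ p := by
      rw [← Real.rpow_natCast, ← Real.rpow_mul h1x.le, hα, div_mul_cancel₀ _ hrR.ne',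
        Real.rpow_natCast]
    rw [hz, mul_pow, h3, ← pow_mul, hApow, ← hAv, mul_pow]
    ring
  have heR : (A + v) ^ p - (v : ℝ) ^ p = (w : ℝ) ^ r := by
    rw [hAdef]; exact_mod_cast he
  have htr : t ^ r = A ^ (m * r - p) * ((A + v) ^ p - (v : ℝ) ^ p) := by
    rw [ht, heR, hAa]; ring
  have hzt : |z - t| * z ^ (r - 1) ≤ A ^ (m * r - p) * |(v : ℝ)| ^ p := by
    have h4 : z ^ r - t ^ r = A ^ (m * r - p) * (v : ℝ) ^ p := by rw [hzr, htr]; ring
    have h5 := Commute.mul_geom_sum₂ (Commute.all z t) r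
    have h6 : |z - t| * ∑ i ∈ range r, z ^ i * t ^ (r - 1 - i) = A ^ (m * r - p) * |(v : ℝ)| ^ p := by
      have h7 : 0 ≤ ∑ i ∈ range r, z ^ i * t ^ (r - 1 - i) :=
        sum_nonneg (fun i _ => by positivity)
      rw [← abs_of_nonneg h7, ← abs_mul, h5, h4, abs_mul, abs_pow, abs_pow, abs_of_pos hApos]
    rw [← h6]
    apply mul_le_mul_of_nonneg_left _ (abs_nonneg _)
    have h8 : z ^ (r - 1) = z ^ (r - 1) * t ^ (r - 1 - (r - 1)) := by simp
    rw [h8]
    exact single_le_sum (f := fun i => z ^ i * t ^ (r - 1 - i)) (fun i _ => by positivity)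
      (mem_range.2 (by omega))
  have hzle : z ≤ A ^ m * (3 / 2) ^ m := by
    rw [hz]
    apply mul_le_mul_of_nonneg_left _ (by positivity)
    calc (1 + x) ^ α ≤ (3 / 2 : ℝ) ^ α := Real.rpow_le_rpow h1x.le (by linarith) hα0
      _ ≤ (3 / 2 : ℝ) ^ (m : ℝ) := Real.rpow_le_rpow_of_exponent_le (by norm_num) hαm
      _ = _ := Real.rpow_natCast _ _
  have hzt2 : |z - t| * (A + v) ^ p ≤ |(v : ℝ)| ^ p * z := by
    have h9 : z ^ r = z ^ (r - 1) * z := by
      rw [← pow_succ]; congr 1; omega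
    have hc : 0 < A ^ (m * r - p) := by positivity
    have : A ^ (m * r - p) * (|z - t| * (A + v) ^ p) ≤ A ^ (m * r - p) * (|(v : ℝ)| ^ p * z) := by
      calc A ^ (m * r - p) * (|z - t| * (A + v) ^ p) = |z - t| * z ^ r := by rw [hzr]; ring
        _ = (|z - t| * z ^ (r - 1)) * z := by rw [h9]; ring
        _ ≤ (A ^ (m * r - p) * |(v : ℝ)| ^ p) * z := mul_le_mul_of_nonneg_right hzt hz0.le
        _ = _ := by ring
    exact le_of_mul_le_mul_left this hc
  -- `|z - t| ≤ (2|x|)^(2b+m+1) A^m (3/2)^m`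
  have hzt3 : |z - t| ≤ (2 * |x|) ^ (2 * b + m + 1) * (A ^ m * (3 / 2) ^ m) := by
    have hAv2 : A / 2 ≤ A + v := by
      have := neg_abs_le (v : ℝ)
      linarith
    have h10 : (A / 2) ^ p ≤ (A + v) ^ p := pow_le_pow_left₀ (by positivity) hAv2 _
    have h11 : |z - t| * (A / 2) ^ p ≤ |(v : ℝ)| ^ p * (A ^ m * (3 / 2) ^ m) := by
      calc |z - t| * (A / 2) ^ p ≤ |z - t| * (A + v) ^ p :=
            mul_le_mul_of_nonneg_left h10 (abs_nonneg _)
        _ ≤ |(v : ℝ)| ^ p * z := hzt2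
        _ ≤ _ := mul_le_mul_of_nonneg_left hzle (by positivity)
    have h12 : |(v : ℝ)| ^ p = (2 * |x|) ^ p * (A / 2) ^ p := by
      rw [← mul_pow, hxabs]; congr 1; field_simp
    rw [h12] at h11
    have h13 : |z - t| ≤ (2 * |x|) ^ p * (A ^ m * (3 / 2) ^ m) := by
      have hc : 0 < (A / 2) ^ p := by positivity
      apply le_of_mul_le_mul_right _ hc
      linarith
    refine h13.trans (mul_le_mul_of_nonneg_right ?_ (by positivity))
    exact pow_le_pow_of_le_one (by positivity) (by linarith) hmp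
  -- the form `K`
  have hPx : (hom (al p (b + m) b hr) (b + m) (c ^ r) v : ℝ) =
      A ^ (b + m) * ∑ j ∈ range (b + m + 1), (al p (b + m) b hr j : ℝ) * x ^ j := by
    unfold hom
    push_cast
    rw [mul_sum, ← hAa]
    apply sum_congr rfl
    intro k hk
    have hk' : k ≤ b + m := Nat.lt_succ_iff.1 (mem_range.1 hk)
    have : A ^ (b + m) = A ^ (b + m - k) * A ^ k := by rw [← pow_add, Nat.sub_add_cancel hk']
    rw [this, hx, div_pow]
    field_simp
  have hQx : (hom (be p (b + m) b hr) b (c ^ r) v : ℝ) =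
      A ^ b * ∑ j ∈ range (b + 1), (be p (b + m) b hr j : ℝ) * x ^ j := by
    unfold hom
    push_cast
    rw [mul_sum, ← hAa]
    apply sum_congr rfl
    intro k hk
    have hk' : k ≤ b := Nat.lt_succ_iff.1 (mem_range.1 hk)
    have : A ^ b = A ^ (b - k) * A ^ k := by rw [← pow_add, Nat.sub_add_cancel hk']
    rw [this, hx, div_pow]
    field_simp
  set P : ℝ := ∑ j ∈ range (b + m + 1), (al p (b + m) b hr j : ℝ) * x ^ j with hP
  set Q : ℝ := ∑ j ∈ range (b + 1), (be p (b + m) b hr j : ℝ) * x ^ j with hQ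
  have hK : (K p (b + m) b hr (c ^ r) v (c ^ (m * r - p) * w) : ℝ) =
      A ^ b * (Q * (z - t)) - A ^ (b + m) * (Q * (1 + x) ^ α - P) := by
    unfold K
    rw [Int.cast_sub, Int.cast_mul, hPx, hQx]
    push_cast
    rw [← ht, hz, pow_add]
    ring
  have hQle : 4 * |Q| ≤ D * (2 ^ (b + m) * (5 / 2) ^ (b + 1)) := by
    have h1 : |Q| ≤ ∑ j ∈ range (b + 1), (be p (b + m) b hr j : ℝ) * (1 / 2) ^ j * 1 ^ (b - j) := by
      rw [hQ]
      refine (abs_sum_le_sum_abs _ _).trans ?_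
      apply sum_le_sum
      intro j hj
      have hj' : j ≤ b := Nat.lt_succ_iff.1 (mem_range.1 hj)
      have hB0 : (0 : ℝ) ≤ be p (b + m) b hr j := by
        exact_mod_cast be_nonneg (b := b) hr hpr h.le hm hj'
      rw [abs_mul, abs_of_nonneg hB0, abs_pow, one_pow, mul_one]
      exact mul_le_mul_of_nonneg_left (pow_le_pow_left₀ (abs_nonneg _) hx2 _) hB0
    have h2 := sum_be_le (b := b) (A := 1) (V := 1 / 2) hr hpr h.le hm (by norm_num) (by norm_num)
    calc 4 * |Q| ≤ 4 * 1 * ∑ j ∈ range (b + 1), (be p (b + m) b hr j : ℝ) * (1 / 2) ^ j * 1 ^ (b - j) := by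
          linarith
      _ ≤ _ := h2
      _ = _ := by rw [hDdef]; norm_num
  have hrem := pade_rem_le (b := b) hr hpr h hm hx2
  have hm6 : (6 : ℝ) * 3 ^ b ≤ 2 * 3 ^ m * 10 ^ b := by
    have h1 : (3 : ℝ) ≤ 3 ^ m := by
      calc (3 : ℝ) = 3 ^ 1 := by norm_num
        _ ≤ 3 ^ m := pow_le_pow_right₀ (by norm_num) hm
    have h2 : (3 : ℝ) ^ b ≤ 10 ^ b := pow_le_pow_left₀ (by norm_num) (by norm_num) _
    calc (6 : ℝ) * 3 ^ b = (2 * 3) * 3 ^ b := by norm_num
      _ ≤ (2 * 3 ^ m) * 10 ^ b := by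
        apply mul_le_mul _ h2 (by positivity) (by positivity)
        linarith
      _ = _ := by ring
  have hmain : 4 * |(K p (b + m) b hr (c ^ r) v (c ^ (m * r - p) * w) : ℝ)| ≤
      D * A ^ (b + m) * |x| ^ (2 * b + m + 1) * (7 * 6 ^ m * 20 ^ b) := by
    rw [hK]
    calc 4 * |A ^ b * (Q * (z - t)) - A ^ (b + m) * (Q * (1 + x) ^ α - P)|
        ≤ 4 * (|A ^ b * (Q * (z - t))| + |A ^ (b + m) * (Q * (1 + x) ^ α - P)|) :=
          mul_le_mul_of_nonneg_left (abs_sub _ _) (by norm_num)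
      _ = A ^ b * ((4 * |Q|) * |z - t|) + A ^ (b + m) * (4 * |Q * (1 + x) ^ α - P|) := by
          rw [abs_mul, abs_mul, abs_mul, abs_of_pos (pow_pos hApos _), abs_of_pos (pow_pos hApos _)]
          ring
      _ ≤ A ^ b * ((D * (2 ^ (b + m) * (5 / 2) ^ (b + 1))) *
            ((2 * |x|) ^ (2 * b + m + 1) * (A ^ m * (3 / 2) ^ m))) +
          A ^ (b + m) * (D * (2 ^ (b + m) * 3 ^ (b + 1)) * (2 * |x| ^ (2 * b + m + 1))) := by
          apply _root_.add_le_add
          · apply mul_le_mul_of_nonneg_left _ (by positivity)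
            exact mul_le_mul hQle hzt3 (abs_nonneg _) (by positivity)
          · exact mul_le_mul_of_nonneg_left hrem (by positivity)
      _ = D * A ^ (b + m) * |x| ^ (2 * b + m + 1) *
          (2 ^ (b + m) * (5 * 10 ^ b * 3 ^ m + 6 * 3 ^ b)) := by
          have e1 : (5 / 2 : ℝ) ^ (b + 1) * 2 ^ (2 * b + m + 1) * (3 / 2) ^ m = 5 * 10 ^ b * 3 ^ m := by
            rw [div_pow, div_pow]
            have e2 : (2 : ℝ) ^ (2 * b + m + 1) = 2 ^ b * (2 ^ (b + 1) * 2 ^ m) := by
              rw [← pow_add, ← pow_add]; congr 1; ring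
            have e3 : (10 : ℝ) ^ b = 2 ^ b * 5 ^ b := by rw [← mul_pow]; norm_num
            rw [e2, e3]
            field_simp
            ring
          rw [mul_pow 2 |x|, pow_add A b m]
          linear_combination (A ^ b * D * 2 ^ (b + m) * |x| ^ (2 * b + m + 1) * A ^ m) * e1
      _ ≤ D * A ^ (b + m) * |x| ^ (2 * b + m + 1) *
          (2 ^ (b + m) * (5 * 10 ^ b * 3 ^ m + 2 * 3 ^ m * 10 ^ b)) := by
          apply mul_le_mul_of_nonneg_left _ (by positivity)
          apply mul_le_mul_of_nonneg_left _ (by positivity)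
          linarith
      _ = _ := by
          have e4 : (6 : ℝ) ^ m = 2 ^ m * 3 ^ m := by rw [← mul_pow]; norm_num
          have e5 : (20 : ℝ) ^ b = 2 ^ b * 10 ^ b := by rw [← mul_pow]; norm_num
          rw [e4, e5, pow_add]
          ring
  calc 4 * |(K p (b + m) b hr (c ^ r) v (c ^ (m * r - p) * w) : ℝ)| * A ^ (b + 1)
      ≤ (D * A ^ (b + m) * |x| ^ (2 * b + m + 1) * (7 * 6 ^ m * 20 ^ b)) * A ^ (b + 1) :=
        mul_le_mul_of_nonneg_right hmain (by positivity)
    _ = _ := by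
      rw [hxabs, div_pow]
      have e6 : A ^ (2 * b + m + 1) = A ^ (b + m) * A ^ (b + 1) := by
        rw [← pow_add]; congr 1; ring
      rw [e6]
      field_simp

end Pool.Agent.Lib.MP_509488_nt.Pade
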