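import Pool.Agent.Lib.MP_509488_nt.PadeLarge

set_option autoImplicit false

/-!
Main estimate for the Padé method.
-/

namespace Pool.Agent.Lib.MP_509488_nt.Pade

open Finset Nat Pool.Agent.Lib.MP_509488_nt Pool.Agent.Lib.MP_509488_nt.Runge

variable {p r m b : ℕ}

/-- The bound `H^(b+1) ≤ 20^(b+m) r^(ex) |v₂|^(2b+m+1)`. -/
theorem main_bound (hr : r.Prime) (hpodd : Odd p) (hrp : ¬ r ∣ p) (hm : 1 ≤ m)
    (hpr : (p : ℤ) < m * r) (h : (m : ℤ) * r < p + r) (hmp : 2 * b + m + 1 ≤ p)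
    {c v v₁ v₂ w : ℤ} (hc : 0 < c) (hw : 0 ≤ w) (hv0 : v ≠ 0) (hv12 : v = v₁ * v₂)
    (hrv : ¬ (r : ℤ) ∣ v) (hav : IsCoprime (c ^ r) v)
    (he : (c ^ r + v) ^ p - v ^ p = w ^ r)
    (hgood : ∀ l : ℕ, l.Prime → (l : ℤ) ∣ v₁ → ¬ l ≡ 1 [MOD r]) :
    (max |v| (c ^ r)) ^ (b + 1) ≤ 20 ^ (b + m) * r ^ (ex r (b + m)) * |v₂| ^ (2 * b + m + 1) := by
  have hr0 := hr.pos
  have hpr' : p ≤ m * r := by exact_mod_cast hpr.le
  have hv10 : v₁ ≠ 0 := by rintro rfl; simp at hv12; exact hv0 hv12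
  have hv20 : v₂ ≠ 0 := by rintro rfl; simp at hv12; exact hv0 hv12
  have hlow := le_abs_K (a := b + m) (b := b) hr hrp (by omega) (by rwa [Nat.add_sub_cancel_left])
    (by omega) (Dvd.intro _ hv12.symm) hv10 hrv hav he hgood
  rw [Nat.add_sub_cancel_left, show b + m + b + 1 = 2 * b + m + 1 by ring] at hlow
  set M1 := 2 * b + m + 1 with hM1
  have hlowR : |(v₁ : ℝ)| ^ M1 ≤ |(K p (b + m) b hr (c ^ r) v (c ^ (m * r - p) * w) : ℝ)| := by
    exact_mod_cast hlow
  set V : ℝ := |(v : ℝ)| with hV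
  set V1 : ℝ := |(v₁ : ℝ)| with hV1
  set V2 : ℝ := |(v₂ : ℝ)| with hV2
  set D : ℝ := r ^ (ex r (b + m)) with hD
  have hV1p : 0 < V1 := by rw [hV1]; exact abs_pos.2 (by exact_mod_cast hv10)
  have hV2p : 0 < V2 := by rw [hV2]; exact abs_pos.2 (by exact_mod_cast hv20)
  have hVV : V = V1 * V2 := by rw [hV, hV1, hV2, hv12]; push_cast; rw [abs_mul]
  have hVp : 0 < V := by rw [hVV]; positivity
  have hDp : 0 < D := by positivity
  have goalR : (max V ((c ^ r : ℤ) : ℝ)) ^ (b + 1) ≤ 20 ^ (b + m) * D * V2 ^ M1 := by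
    rcases lt_or_ge (c ^ r) (2 * |v|) with hlt | hge
    · have h1 := size_small (b := b) hr hpodd hm hpr h hc hw hlt he
      have hmax : max V ((c ^ r : ℤ) : ℝ) ≤ 2 * V := by
        apply max_le
        · linarith
        · rw [hV]; exact_mod_cast hlt.le
      have h2 : 4 * V ^ (b + 1) ≤ 5 * 8 ^ m * 10 ^ b * D * V2 ^ M1 := by
        have h3 : V ^ (b + m) * (4 * V ^ (b + 1)) ≤
            V ^ (b + m) * (5 * 8 ^ m * 10 ^ b * D * V2 ^ M1) := by
          calc V ^ (b + m) * (4 * V ^ (b + 1)) = 4 * V1 ^ M1 * V2 ^ M1 := by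
                rw [mul_assoc 4, ← mul_pow, ← hVV, hM1,
                  show 2 * b + m + 1 = (b + m) + (b + 1) by ring, pow_add V (b + m)]
                ring
            _ ≤ (5 * 8 ^ m * 10 ^ b * D * V ^ (b + m)) * V2 ^ M1 := by
                apply mul_le_mul_of_nonneg_right _ (by positivity)
                linarith
            _ = _ := by ring
        exact le_of_mul_le_mul_left h3 (by positivity)
      have h820 : (10 : ℝ) * 8 ^ m ≤ 4 * 20 ^ m := by
        obtain ⟨k, rfl⟩ := Nat.exists_eq_add_of_le' hm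
        have : (8 : ℝ) ^ k ≤ 20 ^ k := pow_le_pow_left₀ (by norm_num) (by norm_num) _
        rw [pow_succ, pow_succ]; linarith
      have h4 : 4 * (2 * V) ^ (b + 1) ≤ 4 * (20 ^ (b + m) * D * V2 ^ M1) := by
        calc 4 * (2 * V) ^ (b + 1) = 2 ^ (b + 1) * (4 * V ^ (b + 1)) := by rw [mul_pow]; ring
          _ ≤ 2 ^ (b + 1) * (5 * 8 ^ m * 10 ^ b * D * V2 ^ M1) :=
              mul_le_mul_of_nonneg_left h2 (by positivity)
          _ = (10 * 8 ^ m) * (20 ^ b * D * V2 ^ M1) := by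
              have e5 : (20 : ℝ) ^ b = 2 ^ b * 10 ^ b := by rw [← mul_pow]; norm_num
              rw [e5, pow_succ 2 b]; ring
          _ ≤ (4 * 20 ^ m) * (20 ^ b * D * V2 ^ M1) :=
              mul_le_mul_of_nonneg_right h820 (by positivity)
          _ = _ := by rw [pow_add]; ring
      have h5 : (max V ((c ^ r : ℤ) : ℝ)) ^ (b + 1) ≤ (2 * V) ^ (b + 1) :=
        pow_le_pow_left₀ (le_max_of_le_left hVp.le) hmax _
      linarith
    · have h1 := size_large (b := b) hr hm hpr h hmp hc hw hge he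
      have hA0 : (0 : ℝ) < ((c ^ r : ℤ) : ℝ) := by exact_mod_cast (pow_pos hc r)
      have hmax : max V ((c ^ r : ℤ) : ℝ) = ((c ^ r : ℤ) : ℝ) := by
        apply max_eq_right
        have : 2 * V ≤ ((c ^ r : ℤ) : ℝ) := by rw [hV]; exact_mod_cast hge
        linarith
      rw [hmax]
      set A : ℝ := ((c ^ r : ℤ) : ℝ) with hA
      have h2 : V1 ^ M1 * (4 * A ^ (b + 1)) ≤ V1 ^ M1 * (7 * 6 ^ m * 20 ^ b * D * V2 ^ M1) := by
        calc V1 ^ M1 * (4 * A ^ (b + 1)) = 4 * V1 ^ M1 * A ^ (b + 1) := by ring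
          _ ≤ 4 * |(K p (b + m) b hr (c ^ r) v (c ^ (m * r - p) * w) : ℝ)| * A ^ (b + 1) := by
              apply mul_le_mul_of_nonneg_right _ (by positivity)
              linarith
          _ ≤ 7 * 6 ^ m * 20 ^ b * D * V ^ M1 := h1
          _ = _ := by rw [hVV, mul_pow]; ring
      have h3 := le_of_mul_le_mul_left h2 (by positivity)
      have h620 : (7 : ℝ) * 6 ^ m ≤ 4 * 20 ^ m := by
        obtain ⟨k, rfl⟩ := Nat.exists_eq_add_of_le' hm
        have h7 : (6 : ℝ) ^ k ≤ 20 ^ k := pow_le_pow_left₀ (by norm_num) (by norm_num) _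
        have h8 : (0 : ℝ) < 20 ^ k := by positivity
        rw [pow_succ, pow_succ]; linarith
      have h4 : 7 * 6 ^ m * 20 ^ b * D * V2 ^ M1 ≤ 4 * (20 ^ (b + m) * D * V2 ^ M1) := by
        calc 7 * 6 ^ m * 20 ^ b * D * V2 ^ M1 = (7 * 6 ^ m) * (20 ^ b * D * V2 ^ M1) := by ring
          _ ≤ (4 * 20 ^ m) * (20 ^ b * D * V2 ^ M1) :=
              mul_le_mul_of_nonneg_right h620 (by positivity)
          _ = _ := by rw [pow_add]; ring
      linarith
  rw [hV, hV2, hD] at goalR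
  exact_mod_cast goalR

/-- elimination of `b` and `m`. -/
theorem final_algebra (hr : r.Prime) {H V2 : ℤ} (hH : 0 ≤ H) (hV2 : 1 ≤ V2)
    (hbm : (m - 1) * (r - 1) ≤ 2 * (b + 1)) (hm : 1 ≤ m)
    (h : H ^ (b + 1) ≤ 20 ^ (b + m) * r ^ (ex r (b + m)) * V2 ^ (2 * b + m + 1)) :
    H ^ ((r - 1) ^ 2) ≤ (20 ^ (r - 1) * r ^ r) ^ (r + 1) * V2 ^ (2 * r * (r - 1)) := by
  have := Fact.mk hr
  obtain ⟨s, hs⟩ : ∃ s, r = s + 1 := ⟨r - 1, by have := hr.pos; omega⟩
  have hrs : r - 1 = s := by omega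
  obtain ⟨k, hk⟩ : ∃ k, m = k + 1 := ⟨m - 1, by omega⟩
  have hmk : m - 1 = k := by omega
  rw [hrs, hmk] at hbm
  have hleg : s * padicValNat r (b + m)! ≤ b + m := by
    have h1 := sub_one_mul_padicValNat_factorial (p := r) (b + m)
    rw [hrs] at h1
    rw [h1]; exact Nat.sub_le _ _
  have e1 : (b + m) * s ≤ (r + 1) * (b + 1) := by
    rw [hk, hs]
    calc (b + (k + 1)) * s = (b + 1) * s + k * s := by ring
      _ ≤ (b + 1) * s + 2 * (b + 1) := by omega
      _ = _ := by ring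
  have e2 : ex r (b + m) * s ≤ r * (b + m) := by
    unfold ex
    calc (b + m + padicValNat r (b + m)!) * s = (b + m) * s + s * padicValNat r (b + m)! := by ring
      _ ≤ (b + m) * s + (b + m) := by omega
      _ = r * (b + m) := by rw [hs]; ring
  have e3 : (2 * b + m + 1) * s ≤ 2 * r * (b + 1) := by
    rw [hk, hs]
    calc (2 * b + (k + 1) + 1) * s = 2 * (b + 1) * s + k * s := by ring
      _ ≤ 2 * (b + 1) * s + 2 * (b + 1) := by omega
      _ = _ := by ring
  have hr1 : (1 : ℤ) ≤ r := by exact_mod_cast hr.one_lt.le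
  have h1 : (H ^ (s ^ 2)) ^ (b + 1) ≤
      ((20 ^ s * (r : ℤ) ^ r) ^ (r + 1) * V2 ^ (2 * r * s)) ^ (b + 1) := by
    calc (H ^ (s ^ 2)) ^ (b + 1) = (H ^ (b + 1)) ^ (s ^ 2) := by
          rw [← pow_mul, ← pow_mul, mul_comm]
      _ ≤ (20 ^ (b + m) * r ^ (ex r (b + m)) * V2 ^ (2 * b + m + 1)) ^ (s ^ 2) :=
          pow_le_pow_left₀ (by positivity) h _
      _ = 20 ^ ((b + m) * s * s) * r ^ (ex r (b + m) * s * s) * V2 ^ ((2 * b + m + 1) * s * s) := by
          have q : ∀ x : ℕ, x * s ^ 2 = x * s * s := fun x => by ring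
          rw [mul_pow, mul_pow, ← pow_mul, ← pow_mul, ← pow_mul, q, q, q]
      _ ≤ 20 ^ ((r + 1) * (b + 1) * s) * r ^ (r * ((r + 1) * (b + 1))) *
          V2 ^ (2 * r * (b + 1) * s) := by
          have f1 : (20 : ℤ) ^ ((b + m) * s * s) ≤ 20 ^ ((r + 1) * (b + 1) * s) :=
            pow_le_pow_right₀ (by norm_num) (Nat.mul_le_mul_right _ e1)
          have f2 : (r : ℤ) ^ (ex r (b + m) * s * s) ≤ r ^ (r * ((r + 1) * (b + 1))) := by
            apply pow_le_pow_right₀ hr1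
            calc ex r (b + m) * s * s ≤ r * (b + m) * s := Nat.mul_le_mul_right _ e2
              _ = r * ((b + m) * s) := by ring
              _ ≤ _ := Nat.mul_le_mul_left _ e1
          have f3 : V2 ^ ((2 * b + m + 1) * s * s) ≤ V2 ^ (2 * r * (b + 1) * s) :=
            pow_le_pow_right₀ hV2 (Nat.mul_le_mul_right _ e3)
          have hV0 : 0 ≤ V2 := by linarith
          apply mul_le_mul _ f3 (by positivity) (by positivity)
          exact mul_le_mul f1 f2 (by positivity) (by positivity)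
      _ = _ := by
          have q1 : (r + 1) * (b + 1) * s = s * (r + 1) * (b + 1) := by ring
          have q2 : r * ((r + 1) * (b + 1)) = r * (r + 1) * (b + 1) := by ring
          have q3 : 2 * r * (b + 1) * s = 2 * r * s * (b + 1) := by ring
          rw [q1, q2, q3]
          simp only [mul_pow, ← pow_mul]
  rw [hrs]
  have hV0 : 0 ≤ V2 := by linarith
  exact le_of_pow_le_pow_left₀ (by omega) (by positivity) h1

/-- Main bound, normalised so that `u - v = c^r` with `c > 0`. -/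
theorem main_pos (hp : p.Prime) (hr : r.Prime) (hp2 : p ≠ 2) (hr2 : r ≠ 2) (hpr : p ≠ r)
    {c v v₁ v₂ w : ℤ} (hc : 0 < c) (hw : 0 ≤ w) (hv0 : v ≠ 0) (hv12 : v = v₁ * v₂)
    (hrv : ¬ (r : ℤ) ∣ v) (hav : IsCoprime (c ^ r) v)
    (he : (c ^ r + v) ^ p - v ^ p = w ^ r)
    (hgood : ∀ l : ℕ, l.Prime → (l : ℤ) ∣ v₁ → ¬ l ≡ 1 [MOD r]) :
    (max |v| (c ^ r)) ^ ((r - 1) ^ 2) ≤
      (20 ^ (r - 1) * r ^ r) ^ (r + 1) * |v₂| ^ (2 * r * (r - 1)) := by
  have hr3 : 3 ≤ r := by have := hr.two_le; omega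
  have hp3 : 3 ≤ p := by have := hp.two_le; omega
  have hrdp : ¬ r ∣ p := by
    intro hd
    rcases (Nat.dvd_prime hp).1 hd with h | h
    · exact hr.one_lt.ne' h
    · exact hpr h.symm
  have hdiv : p / r * r < p := by
    rcases lt_or_eq_of_le (Nat.div_mul_le_self p r) with h | h
    · exact h
    · exact absurd (Dvd.intro_left _ h) hrdp
  have hlt : p < (p / r + 1) * r := by
    have := Nat.lt_div_mul_add (a := p) hr.pos
    linarith [this]
  set m := p / r + 1 with hm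
  set b := (p - 1 - m) / 2 with hb
  have hpm : (p : ℤ) < m * r := by exact_mod_cast hlt
  have hmr : (m : ℤ) * r < p + r := by
    have : m * r < p + r := by rw [hm]; linarith
    exact_mod_cast this
  have hm3 : 3 * (p / r) ≤ p / r * r := by
    rw [mul_comm]; exact Nat.mul_le_mul_left _ hr3
  have hmp : 2 * b + m + 1 ≤ p := by omega
  have hv20 : v₂ ≠ 0 := by rintro rfl; simp at hv12; exact hv0 hv12
  have h1 := main_bound (b := b) hr (hp.odd_of_ne_two hp2) hrdp (by omega) hpm hmr hmp hc hw hv0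
    hv12 hrv hav he hgood
  refine final_algebra (b := b) (m := m) hr (le_max_of_le_left (abs_nonneg _))
    (Int.one_le_abs hv20) ?_ (by omega) h1
  have h2 : (m - 1) * (r - 1) = p / r * r - p / r := by
    rw [hm, Nat.add_sub_cancel, Nat.mul_sub, mul_one]
  rw [h2]
  omega

end Pool.Agent.Lib.MP_509488_nt.Pade
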