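import Pool.Agent.Lib.MP_509488_nt.RungeInt

set_option autoImplicit false

namespace Pool.Agent.Lib.MP_509488_nt.Runge

open Finset Nat

variable {p r m : ℕ}

theorem abs_num_add_le (h : (m : ℤ) * r < p + r) (h' : (p : ℤ) ≤ m * r) (i : ℕ) :
    |num p r (m + i)| ≤ r ^ (m + i) * (m ! * i !) := by
  induction i with
  | zero =>
    have h1 := num_le h h' (le_refl m)
    have h2 := num_pos h (le_refl m)
    rw [add_zero, abs_of_pos h2]
    simpa using h1
  | succ i ih =>
    rw [← add_assoc, num_succ, abs_mul]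
    have h3 : |(p : ℤ) - ((m + i : ℕ) : ℤ) * r| ≤ r * (i + 1) := by
      rw [abs_le]
      push_cast
      constructor
      · nlinarith
      · have : (0 : ℤ) ≤ r := by positivity
        have h4 : (0 : ℤ) ≤ i * r := by positivity
        nlinarith
    calc |num p r (m + i)| * |(p : ℤ) - ((m + i : ℕ) : ℤ) * r|
        ≤ (r ^ (m + i) * (m ! * i !)) * (r * (i + 1)) :=
          mul_le_mul ih h3 (abs_nonneg _) (by positivity)
      _ = _ := by
        rw [Nat.factorial_succ]; push_cast; ring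

theorem abs_choose_le (hr : r ≠ 0) (h : (m : ℤ) * r < p + r) (h' : (p : ℤ) ≤ m * r) (i : ℕ) :
    |Ring.choose ((p : ℝ) / r) (m + i)| ≤ 1 := by
  rw [choose_eq hr]
  have h1 := abs_num_add_le h h' i
  have h2 : m ! * i ! ≤ (m + i)! :=
    Nat.le_of_dvd (Nat.factorial_pos _) (Nat.factorial_mul_factorial_dvd_factorial_add m i)
  have h3 : |num p r (m + i)| ≤ r ^ (m + i) * (m + i)! := by
    refine h1.trans ?_
    have : ((m ! * i ! : ℕ) : ℤ) ≤ ((m + i)! : ℕ) := by exact_mod_cast h2
    push_cast at this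
    exact mul_le_mul_of_nonneg_left this (by positivity)
  have hpos : (0 : ℝ) < (r : ℝ) ^ (m + i) * ((m + i)! : ℕ) := by
    have := Nat.pos_of_ne_zero hr
    have := Nat.factorial_pos (m + i)
    positivity
  rw [abs_div, abs_of_pos hpos, div_le_one hpos]
  have h4 : ((|num p r (m + i)| : ℤ) : ℝ) ≤ ((r ^ (m + i) * (m + i)! : ℤ) : ℝ) := by
    exact_mod_cast h3
  push_cast at h4
  exact h4

theorem tail_le (hr : r ≠ 0) (h : (m : ℤ) * r < p + r) (h' : (p : ℤ) ≤ m * r) {x : ℝ}
    (hx : |x| ≤ 1 / 2) :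
    |(1 + x) ^ ((p : ℝ) / r) - ∑ k ∈ range (m + 1), Ring.choose ((p : ℝ) / r) k * x ^ k| ≤
      2 * |x| ^ (m + 1) := by
  have hmem : x ∈ Metric.eball (0 : ℝ) 1 := by
    rw [← ENNReal.ofReal_one, Metric.eball_ofReal, mem_ball_zero_iff, Real.norm_eq_abs]
    linarith
  have hs := (Real.one_add_rpow_hasFPowerSeriesOnBall_zero (a := (p : ℝ) / r)).hasSum hmem
  have hs' : HasSum (fun k => Ring.choose ((p : ℝ) / r) k * x ^ k) ((1 + x) ^ ((p : ℝ) / r)) := by
    rw [zero_add] at hs
    have e : (fun n : ℕ => (binomialSeries ℝ ((p : ℝ) / r) n) fun _ => x) =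
        fun k => Ring.choose ((p : ℝ) / r) k * x ^ k := by
      funext n
      rw [binomialSeries_apply]
      simp
    rw [e] at hs
    exact hs
  have hs2 := (hasSum_nat_add_iff' (m + 1)).2 hs'
  have hg : HasSum (fun i : ℕ => |x| ^ (m + 1) * (1 / 2 : ℝ) ^ i) (|x| ^ (m + 1) * 2) :=
    hasSum_geometric_two.mul_left _
  have := hs2.norm_le_of_bounded hg (by
    intro i
    rw [norm_mul, norm_pow, Real.norm_eq_abs, Real.norm_eq_abs]
    have h1 : |Ring.choose ((p : ℝ) / r) (i + (m + 1))| ≤ 1 := by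
      have := abs_choose_le hr h h' (i + 1)
      rwa [show i + (m + 1) = m + (i + 1) by ring]
    have h2 : |x| ^ (i + (m + 1)) ≤ |x| ^ (m + 1) * (1 / 2 : ℝ) ^ i := by
      rw [pow_add, mul_comm]
      exact mul_le_mul_of_nonneg_left (pow_le_pow_left₀ (abs_nonneg _) hx _) (by positivity)
    calc |Ring.choose ((p : ℝ) / r) (i + (m + 1))| * |x| ^ (i + (m + 1))
        ≤ 1 * |x| ^ (i + (m + 1)) := mul_le_mul_of_nonneg_right h1 (by positivity)
      _ ≤ _ := by rw [one_mul]; exact h2)
  rw [Real.norm_eq_abs] at this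
  linarith

theorem Y_eq (hr : r.Prime) {A v : ℤ} (hA : 0 < A) :
    (Y p m hr A v : ℝ) = r ^ (ex r m) * (A ^ m *
      ∑ k ∈ range (m + 1), Ring.choose ((p : ℝ) / r) k * ((v : ℝ) / A) ^ k) := by
  have hA' : (A : ℝ) ≠ 0 := by exact_mod_cast hA.ne'
  rw [Y, mul_sum, mul_sum]
  push_cast
  apply sum_congr rfl
  intro k hk
  have hk' : k ≤ m := Nat.lt_succ_iff.1 (mem_range.1 hk)
  rw [N_eq (K := ℝ) hr hk']
  have : (A : ℝ) ^ m = A ^ (m - k) * A ^ k := by rw [← pow_add, Nat.sub_add_cancel hk']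
  rw [this, div_pow]
  field_simp

/-- the second case: `A = a^r < 2|v|`. -/
theorem case_small (hr : r.Prime) (hr3 : 3 ≤ r) (hm2 : 2 ≤ m) (hp0 : 1 ≤ p)
    (h : (m : ℤ) * r < p + r) (hp : p ≤ m * r) {a v w : ℤ} (ha : 0 < a) (hw : 0 ≤ w)
    (hlt : a ^ r < 2 * |v|)
    (he : (a ^ r + v) ^ p - v ^ p = w ^ r) :
    |r ^ (ex r m) * a ^ (m * r - p) * w - Y p m hr (a ^ r) v| ≤
      r ^ (ex r m) * ((m + 1) * (3 * |v|) ^ m) := by
  set A := a ^ r with hA
  have hApos : 0 < A := by positivity
  have hV : 0 < |v| := by linarith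
  have hD : (0 : ℤ) < r ^ (ex r m) := by have := hr.pos; positivity
  have h' : (p : ℤ) ≤ m * r := by exact_mod_cast hp
  -- bound for `Y`
  have hY : |Y p m hr A v| ≤ r ^ (ex r m) * (3 * |v|) ^ m := by
    calc |Y p m hr A v| ≤ ∑ k ∈ range (m + 1), |N p m hr k * v ^ k * A ^ (m - k)| :=
          abs_sum_le_sum_abs _ _
      _ ≤ ∑ k ∈ range (m + 1), r ^ (ex r m) * (|v| ^ k * A ^ (m - k) * m.choose k) := by
          apply sum_le_sum
          intro k hk
          have hk' : k ≤ m := Nat.lt_succ_iff.1 (mem_range.1 hk)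
          rw [abs_mul, abs_mul, abs_of_nonneg (N_nonneg hr h k), abs_pow,
            abs_of_pos (pow_pos hApos _)]
          have h1 := N_le hr h h' hk'
          calc N p m hr k * |v| ^ k * A ^ (m - k) = N p m hr k * (|v| ^ k * A ^ (m - k)) := by ring
            _ ≤ (r ^ (ex r m) * m.choose k) * (|v| ^ k * A ^ (m - k)) :=
              mul_le_mul_of_nonneg_right h1 (by positivity)
            _ = _ := by ring
      _ = r ^ (ex r m) * (|v| + A) ^ m := by rw [← mul_sum, add_pow]
      _ ≤ r ^ (ex r m) * (3 * |v|) ^ m := by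
          apply mul_le_mul_of_nonneg_left _ hD.le
          exact pow_le_pow_left₀ (by positivity) (by linarith) _
  -- bound for `a ^ (m r - p) * w`
  have hX : a ^ (m * r - p) * w ≤ m * (3 * |v|) ^ m := by
    have h1 : w ^ r ≤ A * (p * (3 * |v|) ^ (p - 1)) := by
      rw [← he, ← F_mul, add_sub_cancel_right]
      apply mul_le_mul_of_nonneg_left _ hApos.le
      unfold F
      calc ∑ i ∈ range p, (A + v) ^ i * v ^ (p - 1 - i)
          ≤ ∑ i ∈ range p, (3 * |v|) ^ (p - 1) := by
            apply sum_le_sum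
            intro i hi
            rw [mem_range] at hi
            calc (A + v) ^ i * v ^ (p - 1 - i) ≤ |(A + v) ^ i * v ^ (p - 1 - i)| := le_abs_self _
              _ = |A + v| ^ i * |v| ^ (p - 1 - i) := by rw [abs_mul, abs_pow, abs_pow]
              _ ≤ (3 * |v|) ^ i * (3 * |v|) ^ (p - 1 - i) := by
                apply mul_le_mul
                · apply pow_le_pow_left₀ (abs_nonneg _)
                  calc |A + v| ≤ |A| + |v| := abs_add_le _ _
                    _ ≤ 3 * |v| := by rw [abs_of_pos hApos]; linarith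
                · apply pow_le_pow_left₀ (abs_nonneg _)
                  linarith
                · positivity
                · positivity
              _ = (3 * |v|) ^ (p - 1) := by rw [← pow_add]; congr 1; omega
        _ = p * (3 * |v|) ^ (p - 1) := by simp
    have h2 : (a ^ (m * r - p) * w) ^ r ≤ (m * (3 * |v|) ^ m) ^ r := by
      have h3 : A ≤ 3 * |v| := by linarith
      have h4 : (a ^ (m * r - p) * w) ^ r = A ^ (m * r - p) * w ^ r := by rw [hA]; ring
      have h5 : (p : ℤ) ≤ m ^ r := by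
        have h6 : r ≤ m ^ (r - 1) := by
          calc r ≤ 2 ^ (r - 1) := by
                have := Nat.lt_two_pow_self (n := r - 1)
                omega
            _ ≤ m ^ (r - 1) := Nat.pow_le_pow_left hm2 _
        have h7 : p ≤ m ^ r := by
          calc p ≤ m * r := hp
            _ ≤ m * m ^ (r - 1) := Nat.mul_le_mul_left _ h6
            _ = m ^ r := by rw [← pow_succ']; congr 1; omega
        exact_mod_cast h7
      calc (a ^ (m * r - p) * w) ^ r = A ^ (m * r - p) * w ^ r := h4
        _ ≤ A ^ (m * r - p) * (A * (p * (3 * |v|) ^ (p - 1))) :=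
          mul_le_mul_of_nonneg_left h1 (by positivity)
        _ ≤ (3 * |v|) ^ (m * r - p) * ((3 * |v|) * (p * (3 * |v|) ^ (p - 1))) := by
          apply mul_le_mul (pow_le_pow_left₀ hApos.le h3 _) _ (by positivity) (by positivity)
          exact mul_le_mul_of_nonneg_right h3 (by positivity)
        _ = p * (3 * |v|) ^ (m * r) := by
          have : m * r = (m * r - p) + 1 + (p - 1) := by omega
          conv_rhs => rw [this, pow_add, pow_add]
          ring
        _ ≤ m ^ r * (3 * |v|) ^ (m * r) := mul_le_mul_of_nonneg_right h5 (by positivity)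
        _ = (m * (3 * |v|) ^ m) ^ r := by rw [pow_mul, ← mul_pow]
    exact le_of_pow_le_pow_left₀ hr.ne_zero (by positivity) h2
  have hX0 : 0 ≤ a ^ (m * r - p) * w := by positivity
  calc |r ^ (ex r m) * a ^ (m * r - p) * w - Y p m hr A v|
      ≤ |r ^ (ex r m) * a ^ (m * r - p) * w| + |Y p m hr A v| := abs_sub _ _
    _ ≤ r ^ (ex r m) * (m * (3 * |v|) ^ m) + r ^ (ex r m) * (3 * |v|) ^ m := by
      apply add_le_add _ hY
      rw [mul_assoc, abs_mul, abs_of_pos hD, abs_of_nonneg hX0]
      exact mul_le_mul_of_nonneg_left hX hD.le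
    _ = _ := by ring

end Pool.Agent.Lib.MP_509488_nt.Runge
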