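import Pool.Agent.Lib.MP_509488_nt.PadeInt
import Pool.Agent.Lib.MP_509488_nt.RungeReal

set_option autoImplicit false

/-!
Size estimates for the Padé forms.
-/

namespace Pool.Agent.Lib.MP_509488_nt.Pade

open Finset Nat Pool.Agent.Lib.MP_509488_nt Pool.Agent.Lib.MP_509488_nt.Runge

theorem choose_succ_le_two_pow (n k : ℕ) : (n + 1).choose k ≤ 2 ^ n := by
  induction n generalizing k with
  | zero =>
    rcases k with _ | _ | k
    · simp
    · simp
    · rw [Nat.choose_eq_zero_of_lt (by omega)]; simp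
  | succ n ih =>
    rcases k with _ | k
    · simp [Nat.one_le_two_pow]
    · rw [Nat.choose_succ_succ, _root_.pow_succ]
      have h1 := ih k
      have h2 := ih (k + 1)
      simp only [Nat.succ_eq_add_one]
      omega

variable {p r m b : ℕ}

theorem al_nonneg (hr : r.Prime) (h : (m : ℤ) * r < p + r) (j : ℕ) :
    0 ≤ al p (b + m) b hr j := by
  unfold al
  apply mul_nonneg _ (by positivity)
  apply N_nonneg
  push_cast
  linarith

theorem al_le (hr : r.Prime) (h : (m : ℤ) * r < p + r) (h' : (p : ℤ) ≤ m * r) {j : ℕ}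
    (hj : j ≤ b + m) :
    al p (b + m) b hr j ≤ r ^ (ex r (b + m)) * ((b + m).choose j * 2 ^ (b + m + b - j)) := by
  unfold al
  have h1 : N (p + b * r) (b + m) hr j ≤ r ^ (ex r (b + m)) * (b + m).choose j := by
    apply N_le hr _ _ hj
    · push_cast; linarith
    · push_cast; linarith
  have h2 : ((b + m + b - j).choose b : ℤ) ≤ 2 ^ (b + m + b - j) := by
    exact_mod_cast Nat.choose_le_two_pow _ _
  calc _ ≤ (r ^ (ex r (b + m)) * (b + m).choose j : ℤ) * 2 ^ (b + m + b - j) :=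
        mul_le_mul h1 h2 (by positivity) (by positivity)
    _ = _ := by ring

theorem N'_bound (hr : r.Prime) (hpr : (p : ℤ) < m * r) (h' : (m : ℤ) * r ≤ p + r) {j : ℕ}
    (hm : 1 ≤ m) (hj : j ≤ b) :
    0 ≤ N ((b + m) * r - p) (b + m) hr j ∧
    N ((b + m) * r - p) (b + m) hr j ≤ r ^ (ex r (b + m)) * (b + 1).choose j := by
  have hp : p ≤ (b + m) * r := by
    have : (p : ℤ) ≤ ((b + m) * r : ℕ) := by
      push_cast
      have : (0 : ℤ) ≤ b * r := by positivity
      nlinarith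
    exact_mod_cast this
  have hcast : (((b + m) * r - p : ℕ) : ℤ) = (b + m) * r - p := by
    rw [Nat.cast_sub hp]; push_cast; ring
  have hjm : j ≤ b + m := by omega
  have h1 := N_mul (p := (b + m) * r - p) hr hjm
  have e1 : ((b + 1 : ℕ) : ℤ) * r < (((b + m) * r - p : ℕ) : ℤ) + r := by
    rw [hcast]; push_cast; linarith
  have e2 : ((((b + m) * r - p : ℕ) : ℤ)) ≤ ((b + 1 : ℕ) : ℤ) * r := by
    rw [hcast]; push_cast; linarith
  have h2 := num_le e1 e2 (by omega : j ≤ b + 1)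
  have h2' := num_pos e1 (by omega : j ≤ b + 1)
  have h3 : (0 : ℤ) < r ^ j * j ! := by
    have := hr.pos
    have := Nat.factorial_pos j
    positivity
  have h4 : (0 : ℤ) < r ^ (ex r (b + m)) := by
    have := hr.pos
    positivity
  constructor
  · by_contra hn
    push Not at hn
    nlinarith [mul_pos h4 h2']
  · apply le_of_mul_le_mul_right _ h3
    rw [h1]
    calc (r : ℤ) ^ (ex r (b + m)) * num ((b + m) * r - p) r j
        ≤ r ^ (ex r (b + m)) * (r ^ j * (j ! * (b + 1).choose j)) :=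
          mul_le_mul_of_nonneg_left h2 h4.le
      _ = _ := by ring

theorem be_nonneg (hr : r.Prime) (hpr : (p : ℤ) < m * r) (h' : (m : ℤ) * r ≤ p + r) {j : ℕ}
    (hm : 1 ≤ m) (hj : j ≤ b) : 0 ≤ be p (b + m) b hr j := by
  unfold be
  exact mul_nonneg (N'_bound hr hpr h' hm hj).1 (by positivity)

theorem be_le (hr : r.Prime) (hpr : (p : ℤ) < m * r) (h' : (m : ℤ) * r ≤ p + r) {j : ℕ}
    (hm : 1 ≤ m) (hj : j ≤ b) :
    2 * be p (b + m) b hr j ≤ r ^ (ex r (b + m)) * ((b + 1).choose j * 2 ^ (b + m + b - j)) := by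
  unfold be
  have h1 := (N'_bound hr hpr h' hm hj).2
  have h0 := (N'_bound hr hpr h' hm hj).1
  have h2 : 2 * ((b + m + b - j).choose (b + m) : ℤ) ≤ 2 ^ (b + m + b - j) := by
    obtain ⟨n, hn⟩ : ∃ n, b + m + b - j = n + 1 := ⟨b + m + b - j - 1, by omega⟩
    rw [hn, pow_succ, mul_comm]
    have := choose_succ_le_two_pow n (b + m)
    have : ((n + 1).choose (b + m) : ℤ) ≤ 2 ^ n := by exact_mod_cast this
    linarith
  calc 2 * (N ((b + m) * r - p) (b + m) hr j * ((b + m + b - j).choose (b + m) : ℤ))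
      = N ((b + m) * r - p) (b + m) hr j * (2 * ((b + m + b - j).choose (b + m) : ℤ)) := by ring
    _ ≤ (r ^ (ex r (b + m)) * (b + 1).choose j : ℤ) * 2 ^ (b + m + b - j) :=
        mul_le_mul h1 h2 (by positivity) (by positivity)
    _ = _ := by ring

/-- the numerator form, bounded for nonnegative reals. -/
theorem sum_al_le (hr : r.Prime) (h : (m : ℤ) * r < p + r) (h' : (p : ℤ) ≤ m * r) {A V : ℝ}
    (hA : 0 ≤ A) (hV : 0 ≤ V) :
    ∑ j ∈ range (b + m + 1), (al p (b + m) b hr j : ℝ) * V ^ j * A ^ (b + m - j) ≤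
      r ^ (ex r (b + m)) * (2 ^ b * (V + 2 * A) ^ (b + m)) := by
  rw [add_pow, mul_sum, mul_sum]
  apply sum_le_sum
  intro j hj
  have hj' : j ≤ b + m := Nat.lt_succ_iff.1 (mem_range.1 hj)
  have h1 : (al p (b + m) b hr j : ℝ) ≤
      r ^ (ex r (b + m)) * ((b + m).choose j * 2 ^ (b + m + b - j)) := by
    exact_mod_cast al_le hr h h' hj'
  have h2 : (2 : ℝ) ^ (b + m + b - j) = 2 ^ b * 2 ^ (b + m - j) := by
    rw [← pow_add]; congr 1; omega
  calc (al p (b + m) b hr j : ℝ) * V ^ j * A ^ (b + m - j)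
      = (al p (b + m) b hr j : ℝ) * (V ^ j * A ^ (b + m - j)) := by ring
    _ ≤ (r ^ (ex r (b + m)) * ((b + m).choose j * 2 ^ (b + m + b - j))) *
        (V ^ j * A ^ (b + m - j)) := mul_le_mul_of_nonneg_right h1 (by positivity)
    _ = _ := by rw [h2, mul_pow]; ring

/-- the denominator form, bounded for nonnegative reals. -/
theorem sum_be_le (hr : r.Prime) (hpr : (p : ℤ) < m * r) (h' : (m : ℤ) * r ≤ p + r)
    (hm : 1 ≤ m) {A V : ℝ} (hA : 0 ≤ A) (hV : 0 ≤ V) :
    4 * A * ∑ j ∈ range (b + 1), (be p (b + m) b hr j : ℝ) * V ^ j * A ^ (b - j) ≤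
      r ^ (ex r (b + m)) * (2 ^ (b + m) * (V + 2 * A) ^ (b + 1)) := by
  have key : 4 * A * ∑ j ∈ range (b + 1), (be p (b + m) b hr j : ℝ) * V ^ j * A ^ (b - j) ≤
      ∑ j ∈ range (b + 1), r ^ (ex r (b + m)) * (2 ^ (b + m) *
        (V ^ j * (2 * A) ^ (b + 1 - j) * (b + 1).choose j)) := by
    rw [mul_sum]
    apply sum_le_sum
    intro j hj
    have hj' : j ≤ b := Nat.lt_succ_iff.1 (mem_range.1 hj)
    have h1 : 2 * (be p (b + m) b hr j : ℝ) ≤
        r ^ (ex r (b + m)) * ((b + 1).choose j * 2 ^ (b + m + b - j)) := by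
      exact_mod_cast be_le hr hpr h' hm hj'
    have h2 : (2 : ℝ) * 2 ^ (b + m + b - j) = 2 ^ (b + m) * 2 ^ (b + 1 - j) := by
      rw [← _root_.pow_succ', ← pow_add]; congr 1; omega
    have h3 : A * A ^ (b - j) = A ^ (b + 1 - j) := by
      rw [← _root_.pow_succ']; congr 1; omega
    calc 4 * A * ((be p (b + m) b hr j : ℝ) * V ^ j * A ^ (b - j))
        = (2 * (be p (b + m) b hr j : ℝ)) * (2 * (V ^ j * A ^ (b + 1 - j))) := by
          rw [← h3]; ring
      _ ≤ (r ^ (ex r (b + m)) * ((b + 1).choose j * 2 ^ (b + m + b - j))) *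
          (2 * (V ^ j * A ^ (b + 1 - j))) := mul_le_mul_of_nonneg_right h1 (by positivity)
      _ = r ^ (ex r (b + m)) * (b + 1).choose j * (2 * 2 ^ (b + m + b - j)) *
          (V ^ j * A ^ (b + 1 - j)) := by ring
      _ = _ := by rw [h2, mul_pow]; ring
  refine key.trans ?_
  rw [← mul_sum, ← mul_sum, add_pow]
  apply mul_le_mul_of_nonneg_left _ (by positivity)
  apply mul_le_mul_of_nonneg_left _ (by positivity)
  apply sum_le_sum_of_subset_of_nonneg
  · exact range_subset_range.2 (by omega)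
  · intro i _ _
    positivity

theorem abs_hom_le {f : ℕ → ℤ} {n : ℕ} (hf : ∀ j ≤ n, 0 ≤ f j) {A v : ℤ} (hA : 0 ≤ A) {A' : ℝ}
    (hAA' : (A : ℝ) ≤ A') :
    |(hom f n A v : ℝ)| ≤ ∑ j ∈ range (n + 1), (f j : ℝ) * |(v : ℝ)| ^ j * A' ^ (n - j) := by
  unfold hom
  push_cast
  refine (abs_sum_le_sum_abs _ _).trans ?_
  apply sum_le_sum
  intro j hj
  have hj' : j ≤ n := Nat.lt_succ_iff.1 (mem_range.1 hj)
  have hA0 : (0 : ℝ) ≤ A := by exact_mod_cast hA
  have hf0 : (0 : ℝ) ≤ f j := by exact_mod_cast hf j hj'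
  rw [abs_mul, abs_mul, abs_pow, abs_pow, abs_of_nonneg hf0, abs_of_nonneg hA0]
  apply mul_le_mul_of_nonneg_left _ (by positivity)
  exact pow_le_pow_left₀ hA0 hAA' _

/-- case `A < 2|v|`. -/
theorem size_small (hr : r.Prime) (hpodd : Odd p) (hm : 1 ≤ m) (hpr : (p : ℤ) < m * r)
    (h : (m : ℤ) * r < p + r)
    {c v w : ℤ} (hc : 0 < c) (hw : 0 ≤ w) (hlt : c ^ r < 2 * |v|)
    (he : (c ^ r + v) ^ p - v ^ p = w ^ r) :
    4 * |(K p (b + m) b hr (c ^ r) v (c ^ (m * r - p) * w) : ℝ)| ≤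
      5 * 8 ^ m * 10 ^ b * r ^ (ex r (b + m)) * |(v : ℝ)| ^ (b + m) := by
  have hr0 := hr.pos
  have hpr' : p ≤ m * r := by exact_mod_cast hpr.le
  have hApos : 0 < c ^ r := by positivity
  have hV : 0 < |v| := by linarith
  have hVR : (0 : ℝ) < |(v : ℝ)| := by exact_mod_cast hV
  have hD : (0 : ℝ) < r ^ (ex r (b + m)) := by positivity
  set D : ℝ := r ^ (ex r (b + m)) with hDdef
  set V : ℝ := |(v : ℝ)| with hVdef
  -- the bound for `t`
  have ht : c ^ (m * r - p) * w ≤ (4 * |v|) ^ m := by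
    have h1 : w ^ r ≤ (4 * |v|) ^ p := by
      have e1 : |(c ^ r + v)| ≤ 3 * |v| := by
        calc |c ^ r + v| ≤ |c ^ r| + |v| := abs_add_le _ _
          _ ≤ 3 * |v| := by rw [abs_of_pos hApos]; linarith
      rw [← he]
      calc (c ^ r + v) ^ p - v ^ p ≤ |c ^ r + v| ^ p + |v| ^ p := by
            have e2 : (c ^ r + v) ^ p ≤ |c ^ r + v| ^ p := by
              rw [← abs_pow]; exact le_abs_self _
            have e3 : - v ^ p ≤ |v| ^ p := by
              rw [← abs_pow]; exact neg_le_abs _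
            linarith
        _ ≤ (3 * |v|) ^ p + |v| ^ p := by
            have := pow_le_pow_left₀ (abs_nonneg _) e1 p
            linarith
        _ ≤ (3 * |v| + |v|) ^ p := pow_add_pow_le (by positivity) hV.le hpodd.pos.ne'
        _ = (4 * |v|) ^ p := by ring_nf
    have h2 : (c ^ (m * r - p) * w) ^ r ≤ ((4 * |v|) ^ m) ^ r := by
      calc (c ^ (m * r - p) * w) ^ r = (c ^ r) ^ (m * r - p) * w ^ r := by ring
        _ ≤ (4 * |v|) ^ (m * r - p) * (4 * |v|) ^ p := by
          apply mul_le_mul _ h1 (by positivity) (by positivity)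
          exact pow_le_pow_left₀ hApos.le (by linarith) _
        _ = ((4 * |v|) ^ m) ^ r := by
          rw [← pow_add, ← pow_mul]; congr 1; omega
    exact le_of_pow_le_pow_left₀ hr.ne_zero (by positivity) h2
  have ht0 : 0 ≤ c ^ (m * r - p) * w := by positivity
  have htR : ((c ^ (m * r - p) * w : ℤ) : ℝ) ≤ (4 * V) ^ m := by
    rw [hVdef]; exact_mod_cast ht
  have ht0R : (0 : ℝ) ≤ ((c ^ (m * r - p) * w : ℤ) : ℝ) := by exact_mod_cast ht0
  set t : ℝ := ((c ^ (m * r - p) * w : ℤ) : ℝ) with htdef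
  have hA2 : ((c ^ r : ℤ) : ℝ) ≤ 2 * V := by
    rw [hVdef]; exact_mod_cast hlt.le
  have hP : |(hom (al p (b + m) b hr) (b + m) (c ^ r) v : ℝ)| ≤ D * (2 ^ b * (5 * V) ^ (b + m)) := by
    refine (abs_hom_le (fun j _ => al_nonneg hr h j) hApos.le hA2).trans ?_
    refine (sum_al_le hr h hpr.le (by positivity) (by positivity)).trans (le_of_eq ?_)
    rw [show V + 2 * (2 * V) = 5 * V by ring]
  have hQ : 8 * |(hom (be p (b + m) b hr) b (c ^ r) v : ℝ)| ≤ D * (2 ^ (b + m) * (5 ^ (b + 1) * V ^ b)) := by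
    have h1 := abs_hom_le (v := v) (fun j hj => be_nonneg (b := b) hr hpr h.le hm hj) hApos.le hA2
    have h2 := sum_be_le (b := b) (A := 2 * V) (V := V) hr hpr h.le hm (by positivity) (by positivity)
    have h3 : V * (8 * |(hom (be p (b + m) b hr) b (c ^ r) v : ℝ)|) ≤
        V * (D * (2 ^ (b + m) * (5 ^ (b + 1) * V ^ b))) := by
      calc V * (8 * |(hom (be p (b + m) b hr) b (c ^ r) v : ℝ)|)
          = 4 * (2 * V) * |(hom (be p (b + m) b hr) b (c ^ r) v : ℝ)| := by ring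
        _ ≤ 4 * (2 * V) * ∑ j ∈ range (b + 1), (be p (b + m) b hr j : ℝ) * V ^ j * (2 * V) ^ (b - j) :=
          mul_le_mul_of_nonneg_left h1 (by positivity)
        _ ≤ _ := h2
        _ = _ := by
          rw [show V + 2 * (2 * V) = 5 * V by ring, mul_pow, pow_succ V b]; ring
    exact le_of_mul_le_mul_left h3 hVR
  have h85 : (8 : ℝ) * 5 ^ m ≤ 5 * 8 ^ m := by
    obtain ⟨k, rfl⟩ := Nat.exists_eq_add_of_le' hm
    have : (5 : ℝ) ^ k ≤ 8 ^ k := pow_le_pow_left₀ (by norm_num) (by norm_num) _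
    rw [pow_succ, pow_succ]; linarith
  unfold K
  rw [Int.cast_sub, Int.cast_mul, ← htdef]
  have hQ0 : 0 ≤ |(hom (be p (b + m) b hr) b (c ^ r) v : ℝ)| := abs_nonneg _
  have hfin : 8 * |(hom (al p (b + m) b hr) (b + m) (c ^ r) v : ℝ) -
      t * (hom (be p (b + m) b hr) b (c ^ r) v : ℝ)| ≤
      2 * (5 * 8 ^ m * 10 ^ b * D * V ^ (b + m)) := by
    calc 8 * |(hom (al p (b + m) b hr) (b + m) (c ^ r) v : ℝ) -
      t * (hom (be p (b + m) b hr) b (c ^ r) v : ℝ)|
        ≤ 8 * (|(hom (al p (b + m) b hr) (b + m) (c ^ r) v : ℝ)| +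
          |t * (hom (be p (b + m) b hr) b (c ^ r) v : ℝ)|) :=
          mul_le_mul_of_nonneg_left (abs_sub _ _) (by norm_num)
      _ = 8 * |(hom (al p (b + m) b hr) (b + m) (c ^ r) v : ℝ)| +
          t * (8 * |(hom (be p (b + m) b hr) b (c ^ r) v : ℝ)|) := by
          rw [abs_mul, abs_of_nonneg ht0R]; ring
      _ ≤ 8 * (D * (2 ^ b * (5 * V) ^ (b + m))) +
          (4 * V) ^ m * (D * (2 ^ (b + m) * (5 ^ (b + 1) * V ^ b))) := by
          apply _root_.add_le_add
          · exact mul_le_mul_of_nonneg_left hP (by norm_num)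
          · exact mul_le_mul htR hQ (by positivity) (by positivity)
      _ = D * V ^ (b + m) * 10 ^ b * (8 * 5 ^ m + 5 * 8 ^ m) := by
          have e1 : (10 : ℝ) ^ b = 2 ^ b * 5 ^ b := by rw [← mul_pow]; norm_num
          have e2 : (8 : ℝ) ^ m = 4 ^ m * 2 ^ m := by rw [← mul_pow]; norm_num
          rw [e1, e2]
          simp only [mul_pow, pow_add, pow_one]
          ring
      _ ≤ D * V ^ (b + m) * 10 ^ b * (5 * 8 ^ m + 5 * 8 ^ m) :=
          mul_le_mul_of_nonneg_left (by linarith) (by positivity)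
      _ = _ := by ring
  linarith

end Pool.Agent.Lib.MP_509488_nt.Pade
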