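import Mathlib

set_option autoImplicit false

namespace Pool.Agent.Lib.MP_509488_nt.Runge

open Finset Nat

/-- numerator `∏_{j<k} (p - j r)` of the binomial coefficient `binom(p/r, k)`. -/
def num (p r k : ℕ) : ℤ := ∏ j ∈ range k, ((p : ℤ) - j * r)

theorem num_succ (p r k : ℕ) : num p r (k + 1) = num p r k * ((p : ℤ) - k * r) := by
  simp [num, prod_range_succ]

theorem num_zero (p r : ℕ) : num p r 0 = 1 := by simp [num]

theorem not_dvd_num {p r : ℕ} (hr : r.Prime) (hrp : ¬ r ∣ p) (k : ℕ) : ¬ (r : ℤ) ∣ num p r k := by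
  induction k with
  | zero =>
    rw [num_zero]
    exact fun h => (Nat.prime_iff_prime_int.1 hr).not_isUnit (isUnit_of_dvd_one h)
  | succ k ih =>
    rw [num_succ]
    intro h
    rcases (Nat.prime_iff_prime_int.1 hr).dvd_or_dvd h with h | h
    · exact ih h
    · apply hrp
      have : (r : ℤ) ∣ p := by
        have := dvd_add h (Dvd.intro_left (k : ℤ) rfl : (r : ℤ) ∣ k * r)
        simpa using this
      exact_mod_cast this

/-- A divisor `q` of `k!` prime to `r` divides `num p r k`. -/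
theorem dvd_num {p r k q : ℕ} (hq : q ∣ k !) (hqr : Nat.Coprime q r) :
    (q : ℤ) ∣ num p r k := by
  have hq0 : 0 < q := Nat.pos_of_dvd_of_pos hq (Nat.factorial_pos k)
  -- inverse of `r` modulo `q`
  obtain ⟨t, ht⟩ : ∃ t : ℕ, (q : ℤ) ∣ t * r - 1 := by
    obtain ⟨a, b, hab⟩ := (Nat.isCoprime_iff_coprime.2 hqr)
    refine ⟨(b + q * |b|).toNat, ?_⟩
    have hpos : 0 ≤ b + q * |b| := by
      have h1 : |b| ≤ q * |b| := le_mul_of_one_le_left (abs_nonneg _) (by exact_mod_cast hq0)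
      have := neg_abs_le b
      linarith
    rw [Int.toNat_of_nonneg hpos]
    exact ⟨-a + |b| * r, by linear_combination hab⟩
  have key : (t : ℤ) ^ k * num p r k ≡ ∏ j ∈ range k, (((t * p : ℕ) : ℤ) - j) [ZMOD q] := by
    have : (t : ℤ) ^ k * num p r k = ∏ j ∈ range k, ((t : ℤ) * (p - j * r)) := by
      rw [prod_mul_distrib, num]; simp
    rw [this]
    apply Int.ModEq.prod
    intro j _
    apply Int.ModEq.symm
    rw [Int.modEq_iff_dvd]
    obtain ⟨s, hs⟩ := ht
    exact ⟨- s * j, by push_cast; linear_combination (-j : ℤ) * hs⟩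
  have h2 : (q : ℤ) ∣ ∏ j ∈ range k, (((t * p : ℕ) : ℤ) - j) := by
    rw [← descPochhammer_eval_eq_prod_range, descPochhammer_eval_eq_descFactorial]
    exact_mod_cast hq.trans (Nat.factorial_dvd_descFactorial _ _)
  have h3 : (q : ℤ) ∣ (t : ℤ) ^ k * num p r k := (Int.ModEq.dvd_iff key).2 h2
  have h4 : IsCoprime (q : ℤ) ((t : ℤ) ^ k) := by
    apply IsCoprime.pow_right
    obtain ⟨s, hs⟩ := ht
    exact ⟨-s, r, by linear_combination hs⟩
  exact h4.dvd_of_dvd_mul_left h3

section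

variable {p r m : ℕ}

/-- exponent of the common denominator -/
def ex (r m : ℕ) : ℕ := m + padicValNat r m !

theorem exists_N (hr : r.Prime) {k : ℕ} (hk : k ≤ m) :
    ∃ n : ℤ, n * (r ^ k * k !) = r ^ (ex r m) * num p r k := by
  have := Fact.mk hr
  obtain ⟨q, hq, hq2⟩ : ∃ q : ℕ, k ! = r ^ (padicValNat r k !) * q ∧ Nat.Coprime q r := by
    obtain ⟨q, hq⟩ := (pow_padicValNat_dvd : r ^ (padicValNat r k !) ∣ k !)
    refine ⟨q, hq, ?_⟩
    rw [Nat.coprime_comm, Nat.Prime.coprime_iff_not_dvd hr]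
    rintro ⟨s, rfl⟩
    apply pow_succ_padicValNat_not_dvd (p := r) (Nat.factorial_ne_zero k)
    rw [pow_succ]
    exact ⟨s, by rw [mul_assoc]; exact hq⟩
  obtain ⟨s, hs⟩ := dvd_num (p := p) (Dvd.intro_left _ hq.symm : q ∣ k !) hq2
  have hle : padicValNat r k ! ≤ padicValNat r m ! :=
    padicValNat_dvd_iff_le (Nat.factorial_ne_zero m) |>.1
      (pow_padicValNat_dvd.trans (Nat.factorial_dvd_factorial hk))
  refine ⟨r ^ (ex r m - (k + padicValNat r k !)) * s, ?_⟩
  have h1 : ex r m = (ex r m - (k + padicValNat r k !)) + (k + padicValNat r k !) := by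
    unfold ex; omega
  rw [hs, show ((k ! : ℕ) : ℤ) = (r : ℤ) ^ (padicValNat r k !) * q by exact_mod_cast hq]
  conv_rhs => rw [h1]
  ring

/-- the integer `r^(ex) * binom(p/r, k)`. -/
noncomputable def N (p : ℕ) {r : ℕ} (m : ℕ) (hr : r.Prime) (k : ℕ) : ℤ :=
  if hk : k ≤ m then (exists_N (p := p) hr hk).choose else 0

theorem N_mul (hr : r.Prime) {k : ℕ} (hk : k ≤ m) :
    N p m hr k * (r ^ k * k !) = r ^ (ex r m) * num p r k := by
  unfold N
  rw [dif_pos hk]
  exact (exists_N (p := p) hr hk).choose_spec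

theorem N_zero (hr : r.Prime) : N p m hr 0 = r ^ (ex r m) := by
  have := N_mul (p := p) (m := m) hr (Nat.zero_le m)
  simpa [num_zero] using this

theorem exists_fact (hr : r.Prime) (k : ℕ) :
    ∃ q : ℕ, k ! = r ^ (padicValNat r k !) * q ∧ Nat.Coprime q r := by
  have := Fact.mk hr
  obtain ⟨q, hq⟩ := (pow_padicValNat_dvd : r ^ (padicValNat r k !) ∣ k !)
  refine ⟨q, hq, ?_⟩
  rw [Nat.coprime_comm, Nat.Prime.coprime_iff_not_dvd hr]
  rintro ⟨s, rfl⟩
  apply pow_succ_padicValNat_not_dvd (p := r) (Nat.factorial_ne_zero k)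
  rw [pow_succ]
  exact ⟨s, by rw [mul_assoc]; exact hq⟩

theorem dvd_N (hr : r.Prime) {k : ℕ} (hk : k < m) : (r : ℤ) ∣ N p m hr k := by
  have := Fact.mk hr
  obtain ⟨q, hq, hq2⟩ := exists_fact hr k
  have hle : padicValNat r k ! ≤ padicValNat r m ! :=
    padicValNat_dvd_iff_le (Nat.factorial_ne_zero m) |>.1
      (pow_padicValNat_dvd.trans (Nat.factorial_dvd_factorial hk.le))
  have h := N_mul (p := p) hr hk.le
  rw [show ((k ! : ℕ) : ℤ) = (r : ℤ) ^ (padicValNat r k !) * q by exact_mod_cast hq] at h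
  obtain ⟨e, he⟩ : ∃ e, ex r m = (e + 1) + (k + padicValNat r k !) := by
    refine ⟨ex r m - (k + padicValNat r k !) - 1, ?_⟩
    unfold ex; omega
  have hr0 : (r : ℤ) ^ (k + padicValNat r k !) ≠ 0 := pow_ne_zero _ (by exact_mod_cast hr.ne_zero)
  have h2 : N p m hr k * q = (r : ℤ) ^ (e + 1) * num p r k := by
    apply mul_left_cancel₀ hr0
    rw [he] at h
    linear_combination h
  have h3 : (r : ℤ) ∣ N p m hr k * q := by
    rw [h2, pow_succ]
    exact ⟨r ^ e * num p r k, by ring⟩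
  exact ((Nat.isCoprime_iff_coprime.2 hq2).symm).dvd_of_dvd_mul_right h3

theorem not_dvd_N (hr : r.Prime) (hrp : ¬ r ∣ p) : ¬ (r : ℤ) ∣ N p m hr m := by
  have := Fact.mk hr
  obtain ⟨q, hq, hq2⟩ := exists_fact hr m
  have h := N_mul (p := p) hr (le_refl m)
  rw [show ((m ! : ℕ) : ℤ) = (r : ℤ) ^ (padicValNat r m !) * q by exact_mod_cast hq] at h
  have hr0 : (r : ℤ) ^ (m + padicValNat r m !) ≠ 0 := pow_ne_zero _ (by exact_mod_cast hr.ne_zero)
  have h2 : N p m hr m * q = num p r m := by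
    apply mul_left_cancel₀ hr0
    unfold ex at h
    linear_combination h
  intro hd
  apply not_dvd_num hr hrp m
  rw [← h2]
  exact hd.mul_right _

/-- positivity and size of the coefficients -/
theorem num_pos (h : (m : ℤ) * r < p + r) {k : ℕ} (hk : k ≤ m) : 0 < num p r k := by
  apply prod_pos
  intro j hj
  rw [mem_range] at hj
  have : (j : ℤ) + 1 ≤ m := by exact_mod_cast (by omega : j + 1 ≤ m)
  nlinarith [(Int.natCast_nonneg r)]

theorem num_le (h : (m : ℤ) * r < p + r) (h' : (p : ℤ) ≤ m * r) {k : ℕ} (hk : k ≤ m) :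
    num p r k ≤ r ^ k * (k ! * m.choose k) := by
  have h1 : num p r k ≤ ∏ j ∈ range k, (((m : ℤ) - j) * r) := by
    apply prod_le_prod
    · intro j hj
      rw [mem_range] at hj
      have : (j : ℤ) + 1 ≤ m := by exact_mod_cast (by omega : j + 1 ≤ m)
      nlinarith [(Int.natCast_nonneg r)]
    · intro j _
      linarith
  refine h1.trans (le_of_eq ?_)
  rw [prod_mul_distrib, ← descPochhammer_eval_eq_prod_range, descPochhammer_eval_eq_descFactorial,
    Nat.descFactorial_eq_factorial_mul_choose]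
  push_cast
  simp
  ring

theorem N_nonneg (hr : r.Prime) (h : (m : ℤ) * r < p + r) (k : ℕ) : 0 ≤ N p m hr k := by
  by_cases hk : k ≤ m
  · have h1 := N_mul (p := p) hr hk
    have h2 := num_pos h hk
    have h3 : (0 : ℤ) < r ^ k * k ! := by
      have := hr.pos
      have := Nat.factorial_pos k
      positivity
    have h4 : (0 : ℤ) < r ^ (ex r m) := by
      have := hr.pos
      positivity
    by_contra hn
    push Not at hn
    nlinarith [mul_pos h4 h2]
  · unfold N; rw [dif_neg hk]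

theorem N_le (hr : r.Prime) (h : (m : ℤ) * r < p + r) (h' : (p : ℤ) ≤ m * r) {k : ℕ}
    (hk : k ≤ m) : N p m hr k ≤ r ^ (ex r m) * m.choose k := by
  have h1 := N_mul (p := p) hr hk
  have h2 := num_le h h' hk
  have h3 : (0 : ℤ) < r ^ k * k ! := by
    have := hr.pos
    have := Nat.factorial_pos k
    positivity
  have h4 : (0 : ℤ) < r ^ (ex r m) := by
    have := hr.pos
    positivity
  apply le_of_mul_le_mul_right _ h3
  rw [h1]
  calc (r : ℤ) ^ (ex r m) * num p r k ≤ r ^ (ex r m) * (r ^ k * (k ! * m.choose k)) :=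
        mul_le_mul_of_nonneg_left h2 h4.le
    _ = _ := by ring

end

end Pool.Agent.Lib.MP_509488_nt.Runge
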