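import Pool.Agent.Lib.MP_509488_nt.RungeCoeff

set_option autoImplicit false

namespace Pool.Agent.Lib.MP_509488_nt.Runge

open Finset Nat

theorem choose_eq {K : Type*} [Field K] [CharZero K] {p r : ℕ} (hr : r ≠ 0) (k : ℕ) :
    Ring.choose ((p : K) / r) k = (num p r k : K) / (r ^ k * k !) := by
  have hr' : (r : K) ≠ 0 := by exact_mod_cast hr
  have h : (descPochhammer ℤ k).smeval ((p : K) / r) = (num p r k : K) / r ^ k := by
    induction k with
    | zero => simp [num_zero]
    | succ k ih =>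
      rw [descPochhammer_succ_right, Polynomial.smeval_mul, ih, num_succ, Polynomial.smeval_sub,
        Polynomial.smeval_X, Polynomial.smeval_natCast]
      push_cast
      field_simp
      simp
      ring
  rw [Ring.choose_eq_smul, h, smul_eq_mul]
  have : (k ! : K) ≠ 0 := by exact_mod_cast Nat.factorial_ne_zero k
  field_simp

theorem N_eq {K : Type*} [Field K] [CharZero K] {p r m : ℕ} (hr : r.Prime) {k : ℕ} (hk : k ≤ m) :
    (N p m hr k : K) = r ^ (ex r m) * Ring.choose ((p : K) / r) k := by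
  have hr' : (r : K) ≠ 0 := by exact_mod_cast hr.ne_zero
  have : (k ! : K) ≠ 0 := by exact_mod_cast Nat.factorial_ne_zero k
  rw [choose_eq hr.ne_zero, mul_div_assoc', eq_div_iff (by positivity)]
  have h := N_mul (p := p) hr hk
  exact_mod_cast h

/-- the truncated binomial polynomial -/
noncomputable def T (p : ℕ) {r : ℕ} (m : ℕ) (hr : r.Prime) : Polynomial ℤ :=
  ∑ k ∈ range (m + 1), Polynomial.C (N p m hr k) * Polynomial.X ^ k

theorem coeff_T (p : ℕ) {r : ℕ} (m : ℕ) (hr : r.Prime) (k : ℕ) :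
    (T p m hr).coeff k = if k ≤ m then N p m hr k else 0 := by
  unfold T
  rw [Polynomial.finsetSum_coeff]
  simp only [Polynomial.coeff_C_mul, Polynomial.coeff_X_pow, mul_ite, mul_one, mul_zero]
  rw [Finset.sum_ite_eq (range (m + 1)) k]
  simp

theorem X_pow_dvd (p : ℕ) {r : ℕ} (m : ℕ) (hr : r.Prime) :
    (Polynomial.X : Polynomial ℤ) ^ (m + 1) ∣
      (T p m hr) ^ r - Polynomial.C ((r : ℤ) ^ (ex r m * r)) * (1 + Polynomial.X) ^ p := by
  rw [Polynomial.X_pow_dvd_iff]
  intro d hd
  -- pass to power series over `ℚ`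
  set f : PowerSeries ℚ := PowerSeries.binomialSeries ℚ ((p : ℚ) / r) with hf
  have hfr : f ^ r = (1 + PowerSeries.X) ^ p := by
    have key : ∀ n : ℕ, f ^ n = PowerSeries.binomialSeries ℚ (n * ((p : ℚ) / r)) := by
      intro n
      induction n with
      | zero => simp
      | succ n ih =>
        rw [pow_succ, ih, hf, ← PowerSeries.binomialSeries_add]
        congr 1
        push_cast; ring
    rw [key]
    have : (r : ℚ) * ((p : ℚ) / r) = (p : ℕ) := by
      have : (r : ℚ) ≠ 0 := by exact_mod_cast hr.ne_zero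
      field_simp
    rw [this]
    exact PowerSeries.binomialSeries_nat p
  set g : PowerSeries ℚ := (((T p m hr).map (Int.castRingHom ℚ) : Polynomial ℚ) : PowerSeries ℚ) with hg
  have hdiv : (PowerSeries.X : PowerSeries ℚ) ^ (m + 1) ∣
      g - PowerSeries.C ((r : ℚ) ^ (ex r m)) * f := by
    rw [PowerSeries.X_pow_dvd_iff]
    intro k hk
    have hk' : k ≤ m := Nat.lt_succ_iff.1 hk
    rw [map_sub, PowerSeries.coeff_C_mul, hf, PowerSeries.binomialSeries_coeff, hg,
      Polynomial.coeff_coe, Polynomial.coeff_map, coeff_T, if_pos hk']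
    have := N_eq (K := ℚ) (p := p) hr hk'
    simp [this]
  have hdiv2 : (PowerSeries.X : PowerSeries ℚ) ^ (m + 1) ∣
      g ^ r - (PowerSeries.C ((r : ℚ) ^ (ex r m)) * f) ^ r := hdiv.trans (sub_dvd_pow_sub_pow _ _ _)
  rw [mul_pow, hfr, ← map_pow, ← pow_mul, PowerSeries.X_pow_dvd_iff] at hdiv2
  have h := hdiv2 d hd
  have h2 : (PowerSeries.coeff d) (g ^ r - PowerSeries.C ((r : ℚ) ^ (ex r m * r)) *
      (1 + PowerSeries.X) ^ p) = ((((T p m hr) ^ r - Polynomial.C ((r : ℤ) ^ (ex r m * r)) *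
        (1 + Polynomial.X) ^ p).coeff d : ℤ) : ℚ) := by
    have : g ^ r - PowerSeries.C ((r : ℚ) ^ (ex r m * r)) * (1 + PowerSeries.X) ^ p =
        ((((T p m hr) ^ r - Polynomial.C ((r : ℤ) ^ (ex r m * r)) *
        (1 + Polynomial.X) ^ p).map (Int.castRingHom ℚ) : Polynomial ℚ) : PowerSeries ℚ) := by
      rw [hg]
      simp
      left
      norm_cast
      exact (map_natCast (Polynomial.coeToPowerSeries.ringHom (R := ℚ)) _).symm
    rw [this, Polynomial.coeff_coe, Polynomial.coeff_map]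
    simp
  rw [h2] at h
  exact_mod_cast h

/-- homogeneous version in a commutative ring where `v ^ (m+1) = 0` and `A` is a unit. -/
theorem homog {R : Type*} [CommRing R] (p : ℕ) {r : ℕ} (m : ℕ) (hr : r.Prime) (hp : p ≤ m * r)
    {A v : R} (hA : IsUnit A) (hv : v ^ (m + 1) = 0) :
    (∑ k ∈ range (m + 1), (N p m hr k : R) * v ^ k * A ^ (m - k)) ^ r =
      (r : R) ^ (ex r m * r) * A ^ (m * r - p) * (A + v) ^ p := by
  obtain ⟨B, hB⟩ := hA.exists_right_inv
  obtain ⟨H, hH⟩ := X_pow_dvd p m hr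
  have h1 := congrArg (Polynomial.aeval (v * B)) hH
  simp only [map_sub, map_pow, map_mul, map_add, map_one, Polynomial.aeval_X, T, map_sum,
    Polynomial.aeval_C, mul_pow v B, hv, zero_mul, sub_eq_zero] at h1
  have h2 : (∑ k ∈ range (m + 1), (N p m hr k : R) * v ^ k * A ^ (m - k)) =
      A ^ m * ∑ k ∈ range (m + 1), (algebraMap ℤ R) (N p m hr k) * (v ^ k * B ^ k) := by
    rw [mul_sum]
    apply sum_congr rfl
    intro k hk
    have hk' : k ≤ m := Nat.lt_succ_iff.1 (mem_range.1 hk)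
    have h3 : A ^ m = A ^ (m - k) * A ^ k := by rw [← pow_add, Nat.sub_add_cancel hk']
    have h4 : A ^ k * B ^ k = 1 := by rw [← mul_pow, hB, one_pow]
    rw [h3]
    simp only [algebraMap_int_eq, eq_intCast]
    linear_combination (-(N p m hr k : R) * v ^ k * A ^ (m - k)) * h4
  have h5 : A + v = A * (1 + v * B) := by linear_combination (-v) * hB
  rw [h2, mul_pow, h1, h5, mul_pow, ← pow_mul]
  have h6 : A ^ (m * r) = A ^ (m * r - p) * A ^ p := by rw [← pow_add, Nat.sub_add_cancel hp]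
  rw [h6]
  simp only [algebraMap_int_eq, eq_intCast, Int.cast_natCast]
  ring

end Pool.Agent.Lib.MP_509488_nt.Runge
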