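import Mathlib
import Pool.Agent.Lib.MP_509488_nt.Alg

set_option autoImplicit false

namespace Pool.Agent.Lib.MP_509488_nt

open Finset

/-- Structure of a solution in the second case `p ∣ w`. -/
theorem exists_gd {p r : ℕ} (hp : p.Prime) (hr : r.Prime) (hp2 : p ≠ 2) (hr2 : r ≠ 2)
    {u v w : ℤ} (huv : IsCoprime u v) (huv' : u ≠ v) (h : u ^ p - v ^ p = w ^ r)
    (hpw : (p : ℤ) ∣ w) :
    ∃ g d : ℤ, p * (u - v) = g ^ r ∧ F p u v = p * d ^ r ∧ 0 < d ∧ (p : ℤ) ∣ g ∧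
      (p : ℤ) ^ (r - 1) ∣ u - v ∧ ¬ (p : ℤ) ∣ d ∧ ¬ (p : ℤ) ∣ v := by
  have : Fact p.Prime := ⟨hp⟩
  have hpZ := Nat.prime_iff_prime_int.1 hp
  have hpo := hp.odd_of_ne_two hp2
  have hro := hr.odd_of_ne_two hr2
  -- `p ∣ u - v`
  have h1 : (p : ℤ) ∣ u - v := by
    have h2 : (p : ℤ) ∣ u ^ p - v ^ p := by rw [h]; exact dvd_pow hpw hr.ne_zero
    rw [← ZMod.intCast_zmod_eq_zero_iff_dvd] at h2 ⊢
    push_cast at h2 ⊢
    simpa [ZMod.pow_card] using h2
  have hpv : ¬ (p : ℤ) ∣ v := fun hv =>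
    hpZ.not_isUnit ((isCoprime_sub huv).isUnit_of_dvd' h1 hv)
  obtain ⟨b, hb⟩ := h1
  have hu : u = v + p * b := by linear_combination hb
  obtain ⟨s, hs⟩ := odd_sq_dvd_geom_sum₂_sub (a := v) (b := b) (p := p) hpo
  have hF : F p u v = p * (v ^ (p - 1) + p * s) := by
    have : F p u v = ∑ i ∈ range p, (v + p * b) ^ i * v ^ (p - 1 - i) := by
      rw [hu]; rfl
    rw [this]
    linear_combination hs
  set F' := v ^ (p - 1) + p * s with hF'
  have hpF' : ¬ (p : ℤ) ∣ F' := by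
    intro hd
    have : (p : ℤ) ∣ v ^ (p - 1) := by
      have := dvd_sub hd (Dvd.intro s rfl : (p : ℤ) ∣ p * s)
      simpa [hF'] using this
    exact hpv (hpZ.dvd_of_dvd_pow this)
  have hFpos : 0 < F p u v := F_pos hpo huv'
  have hp0 : (0 : ℤ) < p := by exact_mod_cast hp.pos
  have hF'pos : 0 < F' := by
    rw [hF] at hFpos
    exact pos_of_mul_pos_right hFpos hp0.le
  have hcop : IsCoprime ((p : ℤ) * (u - v)) F' := by
    apply isCoprime_of_nat_prime hF'pos.ne'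
    intro l hl hl1 hl2
    have hlZ := Nat.prime_iff_prime_int.1 hl
    by_cases hlp : l = p
    · subst hlp; exact hpF' hl2
    · have hluv : (l : ℤ) ∣ u - v := by
        rcases hlZ.dvd_or_dvd hl1 with h3 | h3
        · exact absurd ((Nat.prime_dvd_prime_iff_eq hl hp).1 (Int.natCast_dvd_natCast.1 h3)) hlp
        · exact h3
      have hlu : ¬ (l : ℤ) ∣ u := fun hu =>
        hlZ.not_isUnit ((isCoprime_sub' huv).isUnit_of_dvd' hluv hu)
      refine not_dvd_geom_sum₂ hlZ hluv hlu ?_ (?_ : (l : ℤ) ∣ F p u v)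
      · intro hd
        exact hlp ((Nat.prime_dvd_prime_iff_eq hl hp).1 (Int.natCast_dvd_natCast.1 hd))
      · rw [hF]; exact hl2.mul_left _
  have hmul : ((p : ℤ) * (u - v)) * F' = w ^ r := by
    rw [← h, ← F_mul, hF]; ring
  obtain ⟨⟨g, hg⟩, ⟨d, hd⟩⟩ := Int.eq_pow_of_mul_eq_pow_odd hcop hro hmul
  have hpg : (p : ℤ) ∣ g := by
    apply hpZ.dvd_of_dvd_pow (n := r)
    rw [← hg]; exact Dvd.intro _ rfl
  refine ⟨g, d, hg, by rw [hF, hd], ?_, hpg, ?_, ?_, hpv⟩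
  · rw [hd] at hF'pos
    exact hro.pow_pos_iff.1 hF'pos
  · have h3 : (p : ℤ) ^ r ∣ p * (u - v) := by
      rw [hg]; exact pow_dvd_pow_of_dvd hpg r
    have h4 : (p : ℤ) ^ r = p * p ^ (r - 1) := by
      rw [← pow_succ', Nat.sub_add_cancel hr.one_le]
    rw [h4] at h3
    exact (mul_dvd_mul_iff_left hp0.ne').1 h3
  · intro hd'
    apply hpF'
    rw [hd]
    exact dvd_pow hd' hr.ne_zero

/-- In the second case `p` is an `r`-th power modulo every prime factor of `u`. -/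
theorem residue {p r : ℕ} (hp : p.Prime) (hr : r.Prime) (hp2 : p ≠ 2) (hpr : p ≠ r)
    {u v g d : ℤ} (huv : IsCoprime u v) (hg : p * (u - v) = g ^ r)
    (hF : F p u v = p * d ^ r) (hpu : ¬ (p : ℤ) ∣ u) {l : ℕ} (hl : l.Prime) (hlu : (l : ℤ) ∣ u) :
    ∃ k : ZMod l, k ^ r = p := by
  have : Fact l.Prime := ⟨hl⟩
  have hlZ := Nat.prime_iff_prime_int.1 hl
  have hu0 : (u : ZMod l) = 0 := by rwa [ZMod.intCast_zmod_eq_zero_iff_dvd]
  have hv0 : (v : ZMod l) ≠ 0 := by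
    rw [Ne, ZMod.intCast_zmod_eq_zero_iff_dvd]
    intro hv
    exact hlZ.not_isUnit (huv.isUnit_of_dvd' hlu hv)
  have hlp : l ≠ p := by rintro rfl; exact hpu hlu
  have hp0 : (p : ZMod l) ≠ 0 := by
    rw [Ne, ZMod.natCast_eq_zero_iff]
    intro hd
    exact hlp ((Nat.prime_dvd_prime_iff_eq hl hp).1 hd)
  have hpo := hp.odd_of_ne_two hp2
  have h1 : ((F p u v : ℤ) : ZMod l) = (v : ZMod l) ^ (p - 1) := by
    unfold F
    push_cast
    rw [Finset.sum_eq_single 0]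
    · simp
    · intro i _ hi
      rw [hu0, zero_pow hi, zero_mul]
    · intro h; simp at h; exact absurd h hp.ne_zero
  have h2 : (v : ZMod l) ^ (p - 1) = p * (d : ZMod l) ^ r := by
    rw [← h1, hF]; push_cast; rfl
  have h3 : (g : ZMod l) ^ r = -(p * v) := by
    have : ((g ^ r : ℤ) : ZMod l) = ((p * (u - v) : ℤ) : ZMod l) := by rw [hg]
    push_cast at this
    rw [this, hu0]; ring
  have hd0 : (d : ZMod l) ≠ 0 := by
    intro hd
    rw [hd, zero_pow hr.ne_zero, mul_zero] at h2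
    exact pow_ne_zero _ hv0 h2
  have heven : Even (p - 1) := Nat.Odd.sub_odd hpo odd_one
  have h4 : ((g : ZMod l) ^ (p - 1) / d) ^ r = (p : ZMod l) ^ p := by
    rw [div_pow, div_eq_iff (pow_ne_zero _ hd0), ← pow_mul, mul_comm (p - 1) r, pow_mul, h3,
      heven.neg_pow, mul_pow, h2]
    have : (p : ZMod l) ^ p = p ^ (p - 1) * p := by
      rw [← pow_succ, Nat.sub_add_cancel hp.one_le]
    rw [this]; ring
  have hcop : IsCoprime (p : ℤ) (r : ℤ) := by
    rw [Nat.isCoprime_iff_coprime]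
    exact (Nat.coprime_primes hp hr).2 hpr
  obtain ⟨a, b, hab⟩ := hcop
  refine ⟨((g : ZMod l) ^ (p - 1) / d) ^ a * (p : ZMod l) ^ b, ?_⟩
  have e1 : (((g : ZMod l) ^ (p - 1) / d) ^ a) ^ r = ((p : ZMod l) ^ p) ^ a := by
    rw [← h4, ← zpow_natCast, ← zpow_mul, mul_comm a, zpow_mul, zpow_natCast]
  rw [mul_pow, e1, ← zpow_natCast ((p : ZMod l)) p, ← zpow_mul, ← zpow_natCast ((p : ZMod l) ^ b) r,
    ← zpow_mul, ← zpow_add₀ hp0]
  have : (p : ℤ) * a + b * r = 1 := by linarith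
  rw [this, zpow_one]

end Pool.Agent.Lib.MP_509488_nt
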