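import Mathlib
import Pool.Agent.Lib.MP_509488_nt.CycMain
import Pool.Agent.Lib.MP_509488_nt.SecondCase
import Pool.Agent.Lib.MP_509488_nt.FirstCase

set_option autoImplicit false

namespace Pool.Agent.Lib.MP_509488_nt

open NumberField

theorem exists_unit_mul_pow {K : Type*} [Field K] [NumberField K] {r : ℕ} (hr : r.Prime)
    (hcl : ¬ r ∣ classNumber K) (a b w : 𝓞 K) (hab : IsCoprime a b) (h : a * b = w ^ r) :
    ∃ (e : (𝓞 K)ˣ) (d : 𝓞 K), a = e * d ^ r := by
  have h1 : Ideal.span {a} * Ideal.span {b} = (Ideal.span {w}) ^ r := by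
    rw [Ideal.span_singleton_mul_span_singleton, h, Ideal.span_singleton_pow]
  have h2 : IsCoprime (Ideal.span {a}) (Ideal.span {b}) := (Ideal.isCoprime_span_singleton_iff a b).2 hab
  obtain ⟨I, hI⟩ := exists_eq_pow_of_mul_eq_pow_of_coprime h2 h1
  have h3 : (I ^ r).IsPrincipal := by rw [← hI]; exact ⟨a, rfl⟩
  have h4 : I.IsPrincipal := by
    refine Ideal.IsPrincipal.of_isPrincipal_pow_of_coprime ?_ h3
    exact (Nat.Prime.coprime_iff_not_dvd hr).2 hcl
  obtain ⟨d, hd⟩ := h4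
  have h5 : Ideal.span {a} = Ideal.span {d ^ r} := by
    rw [hI, ← Ideal.span_singleton_pow, Ideal.span, hd]
  obtain ⟨e, he⟩ := (Ideal.span_singleton_eq_span_singleton.1 h5).symm
  exact ⟨e, d, by rw [← he, mul_comm]⟩


theorem lte {p r : ℕ} (hp : p.Prime) (hp2 : p ≠ 2) (hr : 1 ≤ r) {v : ℤ} (hpv : ¬ (p : ℤ) ∣ v)
    (h : (p : ℤ) ^ (r - 1) ∣ (v ^ (r - 1)) ^ (p - 1) - 1) :
    (p : ℤ) ^ (r - 1) ∣ ((r : ℤ) - 1) * (v ^ (p - 1) - 1) := by
  have hpo := hp.odd_of_ne_two hp2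
  have hc : IsCoprime v (p : ℤ) := ((Nat.prime_iff_prime_int.1 hp).coprime_iff_not_dvd.2 hpv).symm
  have h1 : (p : ℤ) ∣ v ^ (p - 1) - 1 := (Int.ModEq.pow_card_sub_one_eq_one hp hc).symm.dvd
  have h2 : ¬ (p : ℤ) ∣ v ^ (p - 1) := fun hd =>
    hpv ((Nat.prime_iff_prime_int.1 hp).dvd_of_dvd_pow hd)
  have h3 := Int.emultiplicity_pow_sub_pow hp hpo h1 h2 (r - 1)
  rw [← pow_mul, mul_comm (r - 1), pow_mul, ← one_pow (M := ℤ) (r - 1),
    pow_dvd_iff_le_emultiplicity, h3] at h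
  rw [pow_dvd_iff_le_emultiplicity, emultiplicity_mul (Nat.prime_iff_prime_int.1 hp)]
  have h4 : ((r : ℤ) - 1) = ((r - 1 : ℕ) : ℤ) := by push_cast [Nat.cast_sub hr]; ring
  rw [h4, Int.natCast_emultiplicity, add_comm]
  exact h

set_option backward.isDefEq.respectTransparency false in
theorem cyc_inst (p : ℕ) : IsCyclotomicExtension {p} ℚ (CyclotomicField p ℚ) := inferInstance

theorem second_case {p r : ℕ} (hp : p.Prime) (hr : r.Prime) (hp2 : p ≠ 2) (hr2 : r ≠ 2)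
    (hpr : p ≠ r) (hcl : ¬ r ∣ classNumber (CyclotomicField p ℚ)) {u v w : ℤ}
    (huv : IsCoprime u v) (hv0 : v ≠ 0) (h : u ^ p - v ^ p = w ^ r) (hpw : (p : ℤ) ∣ w)
    (hl : ∀ l : ℕ, l.Prime → (l : ℤ) ∣ v → l ≠ p → ¬ r ∣ l * (l ^ orderOf (l : ZMod p) - 1)) :
    (p : ℤ) ^ (r - 1) ∣ ((r : ℤ) - 1) * (v ^ (p - 1) - 1) := by
  have hp3 : 3 ≤ p := by have := hp.two_le; omega
  have hr3 : 3 ≤ r := by have := hr.two_le; omega
  by_cases huv' : u = v
  · subst huv'
    have h1 : IsUnit u := by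
      rw [← isCoprime_self]; exact huv
    have h2 : u ^ (p - 1) = 1 := by
      have he : Even (p - 1) := Nat.Odd.sub_odd (hp.odd_of_ne_two hp2) odd_one
      rcases Int.isUnit_iff.1 h1 with h3 | h3
      · rw [h3, one_pow]
      · rw [h3, he.neg_one_pow]
    rw [h2]; simp
  · obtain ⟨-, -, -, -, -, -, hs, -, hpv⟩ := exists_gd hp hr hp2 hr2 huv huv' h hpw
    have : Fact p.Prime := ⟨hp⟩
    have : NeZero p := ⟨hp.ne_zero⟩
    have := cyc_inst p
    have hζ := IsCyclotomicExtension.zeta_spec p ℚ (CyclotomicField p ℚ)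
    let C := cycRing hζ (by omega : 2 < p)
    exact lte hp hp2 (by omega) hpv (C.main hp hr hp3 hr3 hpr
      (exists_unit_mul_pow hr hcl) huv h hv0 hpv hs hl)


theorem not_dvd_classNumber_of_le_five {p r : ℕ} (hp : p.Prime) (hp2 : p ≠ 2) (hp5 : p ≤ 5)
    (hr : r.Prime) : ¬ r ∣ classNumber (CyclotomicField p ℚ) := by
  have := cyc_inst p
  have h1 : classNumber (CyclotomicField p ℚ) = 1 := by
    rw [classNumber_eq_one_iff]
    have h2 := hp.two_le
    interval_cases p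
    · exact absurd rfl hp2
    · exact IsCyclotomicExtension.Rat.three_pid _
    · norm_num at hp
    · exact IsCyclotomicExtension.Rat.five_pid _
  rw [h1]
  exact fun h => hr.one_lt.ne' (Nat.dvd_one.1 h)

/-- Main theorem. -/
theorem wieferich {p r : ℕ} (hp : p.Prime) (hr : r.Prime) (hp2 : p ≠ 2) (hr2 : r ≠ 2)
    (hpr : p ≠ r) (hcl : p ≤ 5 ∨ ¬ r ∣ classNumber (CyclotomicField p ℚ)) {u v w : ℤ}
    (huv : IsCoprime u v) (h : u ^ p - v ^ p = w ^ r) (hc : p < r ∨ (p : ℤ) ∣ w)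
    (hl : ∀ l : ℕ, l.Prime → (l : ℤ) ∣ v → l ≠ p → ¬ r ∣ l * (l ^ orderOf (l : ZMod p) - 1)) :
    (p : ℤ) ^ (r - 1) ∣ ((r : ℤ) - 1) * (v ^ (p - 1) - 1) := by
  have hp3 : 3 ≤ p := by have := hp.two_le; omega
  have hcl' : ¬ r ∣ classNumber (CyclotomicField p ℚ) := by
    rcases hcl with h5 | h5
    · exact not_dvd_classNumber_of_le_five hp hp2 h5 hr
    · exact h5
  have hv0 : v ≠ 0 := by
    rintro rfl
    exact hl r hr (dvd_zero _) hpr.symm (dvd_mul_right _ _)
  rcases hc with hc | hc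
  · by_cases hu : u = 0
    · subst hu
      have h1 : IsUnit v := isCoprime_zero_left.1 huv
      have h2 : v ^ (p - 1) = 1 := by
        have he : Even (p - 1) := Nat.Odd.sub_odd (hp.odd_of_ne_two hp2) odd_one
        rcases Int.isUnit_iff.1 h1 with h3 | h3
        · rw [h3, one_pow]
        · rw [h3, he.neg_one_pow]
      rw [h2]; simp
    · have hpw : (p : ℤ) ∣ w := by
        refine first_case hp hr hp2 hc huv hu hv0 h ?_
        intro l hlp hlv hl1
        by_cases hlep : l = p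
        · subst hlep
          have h1 : r ∣ l - 1 := by
            rw [← Nat.modEq_iff_dvd' hlp.one_le]; exact hl1.symm
          exact absurd (Nat.le_of_dvd (by omega) h1) (by omega)
        · refine hl l hlp hlv hlep (Dvd.dvd.mul_left ?_ _)
          have h1 : r ∣ l - 1 := by
            rw [← Nat.modEq_iff_dvd' hlp.one_le]; exact hl1.symm
          refine h1.trans ?_
          simpa using Nat.sub_dvd_pow_sub_pow l 1 (orderOf (l : ZMod p))
      exact second_case hp hr hp2 hr2 hpr hcl' huv hv0 h hpw hl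
  · exact second_case hp hr hp2 hr2 hpr hcl' huv hv0 h hc hl

end Pool.Agent.Lib.MP_509488_nt
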